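import Pool.Agent.R283.PT.Defs

set_option autoImplicit false

open Finset Function
open scoped fwdDiff

namespace Pool.Agent.R283.PT

lemma fwd_choose_lt {j n : ℕ} (h : j < n) :
    (fwdDiff 1)^[n] (fun x : ℕ => ((x.choose j : ℕ) : ℤ)) = fun _ => 0 := by
  obtain ⟨k, rfl⟩ := Nat.exists_eq_add_of_lt h
  have h1 := fwdDiff_iter_choose 0 j
  rw [show j + k + 1 = k + (1 + j) by ring, iterate_add_apply, iterate_add_apply]
  rw [add_zero] at h1
  rw [h1]
  have h2 : (fwdDiff 1)^[1] (fun x : ℕ => ((x.choose 0 : ℕ) : ℤ)) = fun _ => 0 := by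
    ext x
    simp [fwdDiff]
  rw [h2]
  induction k with
  | zero => rfl
  | succ k ih =>
    rw [iterate_succ_apply', ih]
    · ext x; simp [fwdDiff]
    · omega

/-- `∑ (-1)^(K-i) C(K,i) C(X+i,Y) = C(X,Y-K)`. -/
lemma alt_choose (K X Y : ℕ) :
    ∑ i ∈ range (K + 1), (-1 : ℤ) ^ (K - i) * (K.choose i : ℤ) * ((X + i).choose Y : ℤ) =
      if K ≤ Y then ((X.choose (Y - K) : ℕ) : ℤ) else 0 := by
  have h := fwdDiff_iter_eq_sum_shift 1 (fun x : ℕ => ((x.choose Y : ℕ) : ℤ)) K X
  simp only [smul_eq_mul, mul_one] at h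
  rw [← h]
  split_ifs with hY
  · obtain ⟨j, rfl⟩ := Nat.exists_eq_add_of_le hY
    rw [fwdDiff_iter_choose, Nat.add_sub_cancel_left]
  · rw [fwd_choose_lt (not_le.1 hY)]

lemma alt_choose_real (K X Y : ℕ) :
    ∑ i ∈ range (K + 1), (-1 : ℝ) ^ (K + i) * (K.choose i : ℝ) * ((X + i).choose Y : ℝ) =
      if K ≤ Y then ((X.choose (Y - K) : ℕ) : ℝ) else 0 := by
  have h := congrArg (Int.cast : ℤ → ℝ) (alt_choose K X Y)
  push_cast at h
  rw [← h]
  refine sum_congr rfl fun i hi => ?_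
  have hi' : i ≤ K := Nat.lt_succ_iff.1 (mem_range.1 hi)
  congr 2
  rw [show K + i = (K - i) + 2 * i by omega, pow_add, pow_mul]
  simp

lemma kap_moment {N i : ℕ} (hi : i ≤ N) :
    ∑ k ∈ range (N + 1), kap N k * ((i.factorial : ℝ) * k.factorial / (i + k + 1).factorial) =
      if i = 0 then 1 else 0 := by
  have key : ∀ k ∈ range (N + 1),
      kap N k * ((i.factorial : ℝ) * k.factorial / (i + k + 1).factorial) =
      ((i.factorial : ℝ) * (N - i).factorial / N.factorial) *
        ((-1 : ℝ) ^ (N + k) * (N.choose k : ℝ) * ((N + 1 + k).choose (N - i) : ℝ)) := by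
    intro k hk
    have hk' : k ≤ N := Nat.lt_succ_iff.1 (mem_range.1 hk)
    have h1 : ((N.choose k : ℕ) : ℝ) = N.factorial / (k.factorial * (N - k).factorial) :=
      Nat.cast_choose ℝ hk'
    have h2 : (((N + 1 + k).choose (N - i) : ℕ) : ℝ) =
        (N + 1 + k).factorial / ((N - i).factorial * (i + k + 1).factorial) := by
      rw [Nat.cast_choose ℝ (by omega), show N + 1 + k - (N - i) = i + k + 1 by omega]
    rw [h1, h2, kap]
    have f1 : ((N - k).factorial : ℝ) ≠ 0 := by positivity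
    have f2 : (k.factorial : ℝ) ≠ 0 := by positivity
    have f3 : (N.factorial : ℝ) ≠ 0 := by positivity
    have f4 : ((N - i).factorial : ℝ) ≠ 0 := by positivity
    have f5 : ((i + k + 1).factorial : ℝ) ≠ 0 := by positivity
    field_simp
  rw [sum_congr rfl key, ← mul_sum, alt_choose_real]
  by_cases h0 : i = 0
  · subst h0
    have f3 : (N.factorial : ℝ) ≠ 0 := by positivity
    simp [f3]
  · rw [if_neg (by omega), if_neg h0, mul_zero]

lemma sum_kap (N : ℕ) : ∑ k ∈ range (N + 1), kap N k = ((N : ℝ) + 1) ^ 2 := by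
  have key : ∀ k ∈ range (N + 1), kap N k = ((N : ℝ) + 1) *
      ((-1 : ℝ) ^ (N + k) * (N.choose k : ℝ) * ((N + 1 + k).choose (N + 1) : ℝ)) := by
    intro k hk
    have hk' : k ≤ N := Nat.lt_succ_iff.1 (mem_range.1 hk)
    have h1 : ((N.choose k : ℕ) : ℝ) = N.factorial / (k.factorial * (N - k).factorial) :=
      Nat.cast_choose ℝ hk'
    have h2 : (((N + 1 + k).choose (N + 1) : ℕ) : ℝ) =
        (N + 1 + k).factorial / ((N + 1).factorial * k.factorial) := by
      rw [Nat.cast_choose ℝ (by omega), show N + 1 + k - (N + 1) = k by omega]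
    rw [h1, h2, kap, Nat.factorial_succ]
    push_cast
    have f1 : ((N - k).factorial : ℝ) ≠ 0 := by positivity
    have f2 : (k.factorial : ℝ) ≠ 0 := by positivity
    have f3 : (N.factorial : ℝ) ≠ 0 := by positivity
    field_simp
  rw [sum_congr rfl key, ← mul_sum, alt_choose_real, if_pos (by omega)]
  simp
  ring

end Pool.Agent.R283.PT
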