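import Pool.Agent.R283.PT.W1

/-!
# Part W: injectivity of the Berezin transform on bounded functions
-/

set_option autoImplicit false

open MeasureTheory Complex Set Metric Filter Topology
open scoped ComplexConjugate ENNReal

namespace Pool.Agent.R283.PT
namespace W

noncomputable section

/-- moments -/
def MM (g : ℂ → ℂ) (j k : ℕ) : ℂ := ∫ w, g w * (w ^ j * conj w ^ k) ∂μD

lemma kk0 {z w : ℂ} (hz : ‖z‖ < 1) (hw : ‖w‖ < 1) :
    (kk 0 z w : ℂ) = ((1 - ‖z‖ ^ 2 : ℝ) : ℂ) ^ 2 *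
      (1 / (1 - conj z * w) ^ 2 * (1 / (1 - z * conj w) ^ 2)) := by
  have h1 := one_sub_ne hz hw.le
  have h2 := one_sub_ne' hz hw.le
  have e : ((‖1 - conj z * w‖ ^ 4 : ℝ) : ℂ) = (1 - conj z * w) ^ 2 * (1 - z * conj w) ^ 2 := by
    have : ‖1 - conj z * w‖ ^ 4 = (‖1 - conj z * w‖ ^ 2) ^ 2 := by ring
    rw [this, Complex.ofReal_pow, sq_norm_eq]
    simp only [map_sub, map_one, map_mul, Complex.conj_conj]
    ring
  rw [kk]
  simp only [Nat.cast_zero, zero_add, one_mul, pow_zero, mul_one, mul_zero]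
  rw [Complex.ofReal_div, e, Complex.ofReal_pow]
  field_simp

lemma gint_integrable {g : ℂ → ℂ} {M : ℝ} (hg : AEStronglyMeasurable g μD)
    (hM : ∀ᵐ z ∂μD, ‖g z‖ ≤ M) {f : ℂ → ℂ} {B : ℝ} (hf : AEStronglyMeasurable f μD)
    (hB : ∀ᵐ z ∂μD, ‖f z‖ ≤ B) : Integrable (fun w => g w * f w) μD := by
  refine Integrable.mono' (integrable_const (M * B)) (hg.mul hf) ?_
  filter_upwards [hM, hB] with w h1 h2
  rw [norm_mul]
  exact mul_le_mul h1 h2 (norm_nonneg _) (M_nonneg hM)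

lemma mon_bd (a b : ℕ) : ∀ᵐ w ∂μD, ‖w ^ a * conj w ^ b‖ ≤ 1 := by
  filter_upwards [ae_lt] with w hw
  rw [norm_mul, norm_pow, norm_pow, Complex.norm_conj]
  exact mul_le_one₀ (pow_le_one₀ (norm_nonneg _) hw.le) (by positivity)
    (pow_le_one₀ (norm_nonneg _) hw.le)

lemma mon_int {g : ℂ → ℂ} {M : ℝ} (hg : AEStronglyMeasurable g μD)
    (hM : ∀ᵐ z ∂μD, ‖g z‖ ≤ M) (a b : ℕ) : Integrable (fun w => g w * (w ^ a * conj w ^ b)) μD :=
  gint_integrable hg hM (by fun_prop : Continuous fun w : ℂ => w ^ a * conj w ^ b).aestronglyMeasurable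
    (mon_bd a b)

/-- the coefficient of `r^d` in the expansion at `z = r u` -/
def CC (g : ℂ → ℂ) (u : ℂ) (d : ℕ) : ℂ :=
  ∑ p ∈ Finset.HasAntidiagonal.antidiagonal d, (((p.1 : ℂ) + 1) * ((p.2 : ℂ) + 1) * (conj u ^ p.1 * u ^ p.2)) *
    MM g p.1 p.2

lemma geom2 {x : ℂ} (hx : ‖x‖ < 1) :
    HasSum (fun n : ℕ => ((n : ℂ) + 1) * x ^ n) (1 / (1 - x) ^ 2) ∧
      Summable (fun n : ℕ => ‖((n : ℂ) + 1) * x ^ n‖) := by
  have h1 := hasSum_choose_mul_geometric_of_norm_lt_one 1 hx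
  have h2 : (fun n : ℕ => ((n : ℂ) + 1) * x ^ n) = fun n : ℕ => ((n + 1).choose 1 : ℂ) * x ^ n := by
    funext n
    rw [Nat.choose_one_right]
    push_cast
    ring
  have h3 : ∀ y : ℝ, 0 ≤ y → y < 1 → Summable (fun n : ℕ => ((n : ℝ) + 1) * y ^ n) := by
    intro y hy0 hy1
    have h4 := (hasSum_choose_mul_geometric_of_norm_lt_one (𝕜 := ℝ) 1
      (by rwa [Real.norm_of_nonneg hy0] : ‖y‖ < 1)).summable
    refine h4.congr fun n => ?_
    rw [Nat.choose_one_right]
    push_cast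
    ring
  refine ⟨by rw [h2]; exact h1, ?_⟩
  refine (h3 ‖x‖ (norm_nonneg _) hx).congr fun n => ?_
  rw [norm_mul, norm_pow]
  congr 1
  rw [show (n : ℂ) + 1 = ((n + 1 : ℕ) : ℂ) by push_cast; ring, Complex.norm_natCast]
  push_cast
  ring

lemma expansion {g : ℂ → ℂ} {M : ℝ} (hg : AEStronglyMeasurable g μD)
    (hM : ∀ᵐ z ∂μD, ‖g z‖ ≤ M) (h : ∀ z : ℂ, ‖z‖ < 1 → uu 0 g z = 0) {u : ℂ} (hu : ‖u‖ = 1)
    {r : ℝ} (hr : |r| < 1) : HasSum (fun d => r ^ d • CC g u d) 0 := by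
  set z : ℂ := r * u with hz
  have hz1 : ‖z‖ = |r| := by rw [hz, norm_mul, Complex.norm_real, hu, mul_one, Real.norm_eq_abs]
  have hzlt : ‖z‖ < 1 := by rw [hz1]; exact hr
  have hconj : conj z = r * conj u := by rw [hz, map_mul, Complex.conj_ofReal]
  have h0 : ∫ w, g w * (1 / (1 - conj z * w) ^ 2 * (1 / (1 - z * conj w) ^ 2)) ∂μD = 0 := by
    have h1 := h z hzlt
    rw [uu] at h1
    have h2 : ∫ w, ((1 - ‖z‖ ^ 2 : ℝ) : ℂ) ^ 2 *
        (g w * (1 / (1 - conj z * w) ^ 2 * (1 / (1 - z * conj w) ^ 2))) ∂μD = 0 := by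
      rw [← h1]
      refine integral_congr_ae ?_
      filter_upwards [ae_lt] with w hw
      rw [kk0 hzlt hw]
      ring
    rw [integral_const_mul] at h2
    refine (mul_eq_zero.1 h2).resolve_left (pow_ne_zero 2 ?_)
    exact_mod_cast (one_sub_sq_pos hzlt).ne'
  rw [← h0]
  -- termwise integration
  have hterm : ∀ d : ℕ, r ^ d • CC g u d = ∫ w, g w * ∑ p ∈ Finset.HasAntidiagonal.antidiagonal d,
      (((p.1 : ℂ) + 1) * (conj z * w) ^ p.1) * (((p.2 : ℂ) + 1) * (z * conj w) ^ p.2) ∂μD := by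
    intro d
    have e1 : ∀ w : ℂ, g w * ∑ p ∈ Finset.HasAntidiagonal.antidiagonal d,
        (((p.1 : ℂ) + 1) * (conj z * w) ^ p.1) * (((p.2 : ℂ) + 1) * (z * conj w) ^ p.2) =
        ∑ p ∈ Finset.HasAntidiagonal.antidiagonal d, ((r : ℂ) ^ d * (((p.1 : ℂ) + 1) * ((p.2 : ℂ) + 1) *
          (conj u ^ p.1 * u ^ p.2))) * (g w * (w ^ p.1 * conj w ^ p.2)) := by
      intro w
      rw [Finset.mul_sum]
      refine Finset.sum_congr rfl fun p hp => ?_
      rw [← Finset.HasAntidiagonal.mem_antidiagonal.1 hp, hconj, hz]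
      simp only [mul_pow, pow_add]
      ring
    simp_rw [e1]
    rw [integral_finsetSum _ fun p _ => (mon_int hg hM p.1 p.2).const_mul _]
    simp_rw [integral_const_mul]
    rw [CC, Complex.real_smul, Finset.mul_sum]
    refine Finset.sum_congr rfl fun p _ => ?_
    rw [MM]
    push_cast
    ring
  simp_rw [hterm]
  have hrn : ‖((|r| : ℝ) : ℂ)‖ < 1 := by
    rw [Complex.norm_real, Real.norm_eq_abs, abs_abs]; exact hr
  refine hasSum_integral_of_dominated_convergence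
    (bound := fun d _ => M * ∑ p ∈ Finset.HasAntidiagonal.antidiagonal d,
      ‖((p.1 : ℂ) + 1) * ((|r| : ℝ) : ℂ) ^ p.1‖ * ‖((p.2 : ℂ) + 1) * ((|r| : ℝ) : ℂ) ^ p.2‖) ?_ ?_ ?_ ?_ ?_
  · intro d
    refine hg.mul ?_
    exact (by fun_prop : Continuous fun w : ℂ => ∑ p ∈ Finset.HasAntidiagonal.antidiagonal d,
      (((p.1 : ℂ) + 1) * (conj z * w) ^ p.1) *
        (((p.2 : ℂ) + 1) * (z * conj w) ^ p.2)).aestronglyMeasurable
  · intro d
    filter_upwards [ae_lt, hM] with w hw hw2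
    rw [norm_mul]
    refine mul_le_mul hw2 ?_ (norm_nonneg _) (M_nonneg hM)
    refine (norm_sum_le _ _).trans (Finset.sum_le_sum fun p _ => ?_)
    rw [norm_mul, norm_mul, norm_mul, norm_mul, norm_mul, norm_pow, norm_pow, norm_pow, norm_pow,
      norm_mul, norm_mul, Complex.norm_conj, Complex.norm_conj, hz1, Complex.norm_real,
      Real.norm_eq_abs, abs_abs]
    have h3 : |r| * ‖w‖ ≤ |r| := by nlinarith [abs_nonneg r, norm_nonneg w]
    have h4 : 0 ≤ |r| * ‖w‖ := by positivity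
    gcongr
  · refine Eventually.of_forall fun w => Summable.mul_left _ ?_
    have h1 := (geom2 hrn).2
    have h2 : Summable (fun n : ℕ => ‖‖((n : ℂ) + 1) * ((|r| : ℝ) : ℂ) ^ n‖‖) := by
      simpa only [norm_norm] using h1
    exact summable_sum_mul_antidiagonal_of_summable_norm'
      (f := fun n : ℕ => ‖((n : ℂ) + 1) * ((|r| : ℝ) : ℂ) ^ n‖)
      (g := fun n : ℕ => ‖((n : ℂ) + 1) * ((|r| : ℝ) : ℂ) ^ n‖) h2 h1 h2 h1
  · exact integrable_const _
  · filter_upwards [ae_lt] with w hw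
    have hx : ‖conj z * w‖ < 1 := by
      rw [norm_mul, Complex.norm_conj]; nlinarith [norm_nonneg z, norm_nonneg w]
    have hy : ‖z * conj w‖ < 1 := by
      rw [norm_mul, Complex.norm_conj]; nlinarith [norm_nonneg z, norm_nonneg w]
    refine HasSum.mul_left _ ?_
    obtain ⟨a1, a2⟩ := geom2 hx
    obtain ⟨b1, b2⟩ := geom2 hy
    rw [← a1.tsum_eq, ← b1.tsum_eq, tsum_mul_tsum_eq_tsum_sum_antidiagonal_of_summable_norm a2 b2]
    exact (summable_norm_sum_mul_antidiagonal_of_summable_norm a2 b2).of_norm.hasSum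

lemma CC_zero {g : ℂ → ℂ} {M : ℝ} (hg : AEStronglyMeasurable g μD)
    (hM : ∀ᵐ z ∂μD, ‖g z‖ ≤ M) (h : ∀ z : ℂ, ‖z‖ < 1 → uu 0 g z = 0) {u : ℂ} (hu : ‖u‖ = 1)
    (d : ℕ) : CC g u d = 0 := by
  set p : FormalMultilinearSeries ℝ ℝ ℂ := fun n =>
    ContinuousMultilinearMap.mkPiRing ℝ (Fin n) (CC g u n) with hp
  have hcoeff : ∀ n, p.coeff n = CC g u n := by
    intro n
    simp [FormalMultilinearSeries.coeff, hp]
  have h1 : HasFPowerSeriesAt (0 : ℝ → ℂ) p 0 := by
    rw [hasFPowerSeriesAt_iff]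
    have h2 : ∀ᶠ r : ℝ in 𝓝 0, |r| < 1 := by
      have := (continuous_abs.tendsto (0 : ℝ)).eventually (gt_mem_nhds (by simp : |(0 : ℝ)| < 1))
      exact this
    filter_upwards [h2] with r hr
    simp only [hcoeff, Pi.zero_apply]
    exact expansion hg hM h hu hr
  rw [← hcoeff, h1.eq_zero]
  simp [FormalMultilinearSeries.coeff]

lemma sphere_inf : (sphere (0 : ℂ) 1).Infinite := by
  have h1 : IsPreconnected (sphere (0 : ℂ) 1) := by
    refine isPreconnected_sphere ?_ 0 1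
    rw [Complex.rank_real_complex]
    norm_num
  refine h1.infinite_of_nontrivial ⟨1, by simp, -1, by simp, ?_⟩
  intro h
  have := congrArg Complex.re h
  norm_num at this

open Polynomial in
lemma moments {g : ℂ → ℂ} {M : ℝ} (hg : AEStronglyMeasurable g μD)
    (hM : ∀ᵐ z ∂μD, ‖g z‖ ≤ M) (h : ∀ z : ℂ, ‖z‖ < 1 → uu 0 g z = 0) (j k : ℕ) :
    MM g j k = 0 := by
  set P : ℂ[X] := ∑ p ∈ Finset.HasAntidiagonal.antidiagonal (j + k),
    C ((((p.1 : ℂ) + 1) * ((p.2 : ℂ) + 1)) * MM g p.1 p.2) * X ^ (2 * p.2) with hP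
  have hP0 : P = 0 := by
    refine eq_zero_of_infinite_isRoot P (sphere_inf.mono fun u hu => ?_)
    have hu1 : ‖u‖ = 1 := mem_sphere_zero_iff_norm.1 hu
    have huu : u * conj u = 1 := by
      rw [← sq_norm_eq, hu1]; simp
    have h1 := CC_zero hg hM h hu1 (j + k)
    show P.eval u = 0
    have h2 : P.eval u = u ^ (j + k) * CC g u (j + k) := by
      rw [hP, eval_finsetSum, CC, Finset.mul_sum]
      refine Finset.sum_congr rfl fun p hp => ?_
      rw [eval_mul, eval_C, eval_pow, eval_X, ← Finset.HasAntidiagonal.mem_antidiagonal.1 hp, pow_add]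
      have h3 : u ^ p.1 * conj u ^ p.1 = 1 := by rw [← mul_pow, huu, one_pow]
      rw [two_mul, pow_add]
      linear_combination (-(((p.1 : ℂ) + 1) * ((p.2 : ℂ) + 1)) * MM g p.1 p.2 * u ^ p.2 * u ^ p.2) * h3
    rw [h2, h1, mul_zero]
  have h1 : P.coeff (2 * k) = (((j : ℂ) + 1) * ((k : ℂ) + 1)) * MM g j k := by
    rw [hP, finsetSum_coeff, Finset.sum_eq_single (j, k)]
    · rw [coeff_C_mul, coeff_X_pow, if_pos rfl, mul_one]
    · intro p hp hne
      rw [coeff_C_mul, coeff_X_pow, if_neg, mul_zero]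
      intro h2
      apply hne
      have h3 := Finset.HasAntidiagonal.mem_antidiagonal.1 hp
      ext
      · simp only; omega
      · simp only; omega
    · intro hn
      exact absurd (Finset.HasAntidiagonal.mem_antidiagonal.2 (rfl : (j, k).1 + (j, k).2 = j + k)) hn
  rw [hP0, coeff_zero] at h1
  have hn1 : (j : ℂ) + 1 ≠ 0 := by exact_mod_cast Nat.succ_ne_zero j
  have hn2 : (k : ℂ) + 1 ≠ 0 := by exact_mod_cast Nat.succ_ne_zero k
  exact (mul_eq_zero.1 h1.symm).resolve_left (mul_ne_zero hn1 hn2)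

/-- the retraction onto the closed disc -/
def rho (w : ℂ) : closedBall (0 : ℂ) 1 := ⟨((max 1 ‖w‖)⁻¹ : ℝ) • w, by
  rw [mem_closedBall_zero_iff, norm_smul, Real.norm_of_nonneg (by positivity),
    inv_mul_le_iff₀ (by positivity), mul_one]
  exact le_max_right _ _⟩

lemma rho_cont : Continuous rho := by
  unfold rho
  refine Continuous.subtype_mk ?_ _
  have h1 : Continuous fun w : ℂ => (max 1 ‖w‖)⁻¹ := by
    refine Continuous.inv₀ (by fun_prop) fun w => ?_
    positivity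
  exact h1.smul continuous_id

lemma rho_eq {w : ℂ} (hw : ‖w‖ < 1) : ((rho w : closedBall (0 : ℂ) 1) : ℂ) = w := by
  simp only [rho]
  rw [max_eq_left hw.le, inv_one, one_smul]

instance : CompactSpace (closedBall (0 : ℂ) 1) :=
  isCompact_iff_compactSpace.1 (isCompact_closedBall 0 1)

/-- the functional `f ↦ ∫ g f` on `C(closed disc, ℂ)` -/
def Lam (g : ℂ → ℂ) (f : C(closedBall (0 : ℂ) 1, ℂ)) : ℂ := ∫ w, g w * f (rho w) ∂μD

lemma Lam_int {g : ℂ → ℂ} {M : ℝ} (hg : AEStronglyMeasurable g μD)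
    (hM : ∀ᵐ z ∂μD, ‖g z‖ ≤ M) (f : C(closedBall (0 : ℂ) 1, ℂ)) :
    Integrable (fun w => g w * f (rho w)) μD :=
  gint_integrable hg hM (f.continuous.comp rho_cont).aestronglyMeasurable (B := ‖f‖)
    (Eventually.of_forall fun w => f.norm_coe_le_norm (rho w))

lemma Lam_adjoin {g : ℂ → ℂ} {M : ℝ} (hg : AEStronglyMeasurable g μD)
    (hM : ∀ᵐ z ∂μD, ‖g z‖ ≤ M) (hm : ∀ j k, MM g j k = 0)
    (f : C(closedBall (0 : ℂ) 1, ℂ))
    (hf : f ∈ (polynomialFunctions (closedBall (0 : ℂ) 1)).starClosure) : Lam g f = 0 := by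
  rw [polynomialFunctions.starClosure_eq_adjoin_X] at hf
  rw [← StarSubalgebra.mem_toSubalgebra, StarAlgebra.adjoin_toSubalgebra,
    ← Subalgebra.mem_toSubmodule, Algebra.adjoin_eq_span] at hf
  set X0 : C(closedBall (0 : ℂ) 1, ℂ) :=
    Polynomial.toContinuousMapOnAlgHom (closedBall (0 : ℂ) 1) Polynomial.X with hX0
  have hX : ∀ x : closedBall (0 : ℂ) 1, X0 x = (x : ℂ) := by
    intro x
    simp [hX0]
  have hmon : ∀ f ∈ Submonoid.closure ({X0} ∪ star {X0}), ∃ a b : ℕ, f = X0 ^ a * (star X0) ^ b := by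
    intro f hf
    induction hf using Submonoid.closure_induction with
    | mem x hx =>
      rcases hx with hx | hx
      · exact ⟨1, 0, by rw [mem_singleton_iff.1 hx]; simp⟩
      · refine ⟨0, 1, ?_⟩
        have : star x = X0 := hx
        rw [← this, star_star]
        simp
    | one => exact ⟨0, 0, by simp⟩
    | mul x y _ _ hx hy =>
      obtain ⟨a, b, rfl⟩ := hx
      obtain ⟨a', b', rfl⟩ := hy
      exact ⟨a + a', b + b', by rw [pow_add, pow_add]; ring⟩
  induction hf using Submodule.span_induction with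
  | mem x hx =>
    obtain ⟨a, b, rfl⟩ := hmon x hx
    refine Eq.trans ?_ (hm a b)
    unfold Lam MM
    refine integral_congr_ae ?_
    filter_upwards [ae_lt] with w hw
    simp only [ContinuousMap.mul_apply, ContinuousMap.pow_apply, ContinuousMap.star_apply, hX,
      rho_eq hw]
    rfl
  | zero => simp [Lam]
  | add x y _ _ hx hy =>
    rw [Lam] at *
    simp only [ContinuousMap.add_apply, mul_add]
    rw [integral_add (Lam_int hg hM x) (Lam_int hg hM y), hx, hy, add_zero]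
  | smul c x _ hx =>
    rw [Lam] at *
    have : ∀ w : ℂ, g w * (c • x) (rho w) = c * (g w * x (rho w)) := by
      intro w
      simp only [ContinuousMap.smul_apply, smul_eq_mul]
      ring
    simp_rw [this]
    rw [integral_const_mul, hx, mul_zero]

lemma Lam_zero {g : ℂ → ℂ} {M : ℝ} (hg : AEStronglyMeasurable g μD)
    (hM : ∀ᵐ z ∂μD, ‖g z‖ ≤ M) (hm : ∀ j k, MM g j k = 0)
    (f : C(closedBall (0 : ℂ) 1, ℂ)) : Lam g f = 0 := by
  have h1 : f ∈ closure (((polynomialFunctions (closedBall (0 : ℂ) 1)).starClosure :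
      StarSubalgebra ℂ C(closedBall (0 : ℂ) 1, ℂ)) : Set C(closedBall (0 : ℂ) 1, ℂ)) := by
    rw [← StarSubalgebra.topologicalClosure_coe,
      polynomialFunctions.starClosure_topologicalClosure]
    trivial
  rw [Metric.mem_closure_iff] at h1
  have hM0 := M_nonneg hM
  have h2 : ∀ ε > 0, ‖Lam g f‖ ≤ M * ε := by
    intro ε hε
    obtain ⟨f', hf', hd⟩ := h1 ε hε
    have h3 := Lam_adjoin hg hM hm f' hf'
    have h4 : Lam g f - Lam g f' = ∫ w, g w * (f - f') (rho w) ∂μD := by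
      rw [Lam, Lam, ← integral_sub (Lam_int hg hM f) (Lam_int hg hM f')]
      refine integral_congr_ae (Eventually.of_forall fun w => ?_)
      simp only [ContinuousMap.sub_apply]
      ring
    rw [h3, sub_zero] at h4
    rw [h4]
    have h5 : ∫ _ : ℂ, M * ε ∂μD = M * ε := by simp
    rw [← h5]
    refine norm_integral_le_of_norm_le (integrable_const _) ?_
    filter_upwards [hM] with w hw
    rw [norm_mul]
    refine mul_le_mul hw ?_ (norm_nonneg _) hM0
    refine ((f - f').norm_coe_le_norm _).trans ?_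
    rw [← dist_eq_norm]
    exact hd.le
  have h3 : ‖Lam g f‖ ≤ 0 := by
    refine le_of_forall_pos_le_add fun ε hε => ?_
    have := h2 (ε / (M + 1)) (by positivity)
    refine this.trans ?_
    rw [zero_add, ← mul_div_assoc, div_le_iff₀ (by positivity)]
    nlinarith
  exact norm_le_zero_iff.1 h3

/-- injectivity of the Berezin transform -/
theorem injective {g : ℂ → ℂ} {M : ℝ} (hg : AEStronglyMeasurable g μD)
    (hM : ∀ᵐ z ∂μD, ‖g z‖ ≤ M) (h : ∀ z : ℂ, ‖z‖ < 1 → uu 0 g z = 0) : g =ᵐ[μD] 0 := by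
  have hm := moments hg hM h
  have hgi : Integrable g μD := by
    refine Integrable.mono' (integrable_const M) hg hM
  refine ae_eq_zero_of_integral_contDiff_smul_eq_zero hgi.locallyIntegrable fun φ hφ _ => ?_
  have h1 := Lam_zero hg hM hm ⟨fun x => ((φ x : ℝ) : ℂ), by
    have := hφ.continuous
    fun_prop⟩
  rw [Lam] at h1
  rw [← h1]
  refine integral_congr_ae ?_
  filter_upwards [ae_lt] with w hw
  simp only [ContinuousMap.coe_mk, rho_eq hw, Complex.real_smul]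
  ring

end

end W
end Pool.Agent.R283.PT
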