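import Pool.Agent.R283.PT.W6
import Pool.Agent.R283.PT.W7

/-!
# Part W from part W-A
-/

set_option autoImplicit false

open MeasureTheory

namespace Pool.Agent.R283.PT

theorem stmtW_of (hA : StmtWA) : StmtW := by
  intro d β hβ g M hg hM h
  exact W.injective hg hM (W.reduce hA d β hβ g M hg hM h)

end Pool.Agent.R283.PT
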