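import Pool.Agent.R283.PT.WA
import Pool.Agent.R283.PT.WB

/-!
# Part W: the Tauberian theorem
-/

set_option autoImplicit false

namespace Pool.Agent.R283.PT

theorem stmtW : StmtW := stmtW_of stmtWA

end Pool.Agent.R283.PT
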