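import Pool.Agent.R662.PZ.Int

/-!
Part Z of MP_f074b0_an: `R_N(s(1-s))` has no zero in the closed strip `0 ≤ Re s ≤ 1`.
-/

set_option autoImplicit false

open Finset MeasureTheory Filter Topology
open scoped ComplexConjugate

namespace Pool.Agent.R662.PZ

open Pool.Agent.R283.PT

noncomputable section

lemma norm_Gamma_le {z : ℂ} (hz : 0 < z.re) : ‖Complex.Gamma z‖ ≤ Real.Gamma z.re := by
  rw [Complex.Gamma_eq_integral hz, Real.Gamma_eq_integral hz, Complex.GammaIntegral]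
  refine (norm_integral_le_integral_norm _).trans (le_of_eq ?_)
  refine setIntegral_congr_fun measurableSet_Ioi fun x hx => ?_
  rw [norm_mul, Complex.norm_of_nonneg (Real.exp_pos (-x)).le, Complex.norm_cpow_eq_rpow_re_of_pos hx]
  simp

lemma Gamma_bdd (m : ℕ) : ∃ B : ℝ, ∀ z : ℂ, (m:ℝ) + 1 ≤ z.re → z.re ≤ (m:ℝ) + 2 → ‖Complex.Gamma z‖ ≤ B := by
  have hc : ContinuousOn Real.Gamma (Set.Icc ((m:ℝ) + 1) (m + 2)) := by
    intro x hx
    have hx0 : 0 < x := lt_of_lt_of_le (by positivity) hx.1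
    exact (Real.differentiableAt_Gamma fun n h => by
      have : (0:ℝ) ≤ n := Nat.cast_nonneg n
      linarith).continuousAt.continuousWithinAt
  obtain ⟨B, hB⟩ := isCompact_Icc.exists_bound_of_continuousOn hc
  refine ⟨B, fun z h1 h2 => ?_⟩
  have hz : 0 < z.re := lt_of_lt_of_le (by positivity) h1
  refine (norm_Gamma_le hz).trans ((le_abs_self _).trans ?_)
  exact hB z.re ⟨h1, h2⟩

/-- the function `T` -/
def Tz (N : ℕ) (s : ℂ) : ℂ := ∑ k ∈ range (N + 1), ∑ l ∈ range (N + 1),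
  ((kap N k * kap N l / ((k + l + 1).factorial : ℝ) ^ 2 : ℝ) : ℂ) *
    (Complex.Gamma (((k + l : ℕ) : ℂ) + 1 + s) * Complex.Gamma (((k + l : ℕ) : ℂ) + 2 - s))

lemma ep_Gamma (m : ℕ) (s : ℂ) (h0 : 0 ≤ s.re) (h1 : s.re ≤ 1) :
    Complex.Gamma (1 + s) * Complex.Gamma (2 - s) * ep m (s * (1 - s)) =
      Complex.Gamma ((m : ℂ) + 1 + s) * Complex.Gamma ((m : ℂ) + 2 - s) /
        ((m.factorial : ℂ) * ((m + 1).factorial : ℂ)) := by
  induction m with
  | zero => simp [ep]
  | succ m ih =>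
    have e1 : ep (m + 1) (s * (1 - s)) = ep m (s * (1 - s)) *
        (1 + s * (1 - s) / (((m : ℂ) + 1) * ((m : ℂ) + 2))) := by
      rw [ep, Finset.prod_range_succ]; rfl
    have n1 : (m : ℂ) + 1 + s ≠ 0 := by
      intro h
      have := congrArg Complex.re h
      simp at this
      have h2 : (0:ℝ) ≤ m := Nat.cast_nonneg m
      linarith
    have n2 : (m : ℂ) + 2 - s ≠ 0 := by
      intro h
      have := congrArg Complex.re h
      simp at this
      have h2 : (0:ℝ) ≤ m := Nat.cast_nonneg m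
      linarith
    have g1 : Complex.Gamma (((m + 1 : ℕ) : ℂ) + 1 + s) = ((m : ℂ) + 1 + s) * Complex.Gamma ((m : ℂ) + 1 + s) := by
      rw [← Complex.Gamma_add_one _ n1]
      congr 1; push_cast; ring
    have g2 : Complex.Gamma (((m + 1 : ℕ) : ℂ) + 2 - s) = ((m : ℂ) + 2 - s) * Complex.Gamma ((m : ℂ) + 2 - s) := by
      rw [← Complex.Gamma_add_one _ n2]
      congr 1; push_cast; ring
    have f1 : (m.factorial : ℂ) ≠ 0 := by exact_mod_cast Nat.factorial_ne_zero _
    have f2 : ((m : ℂ) + 1) ≠ 0 := by exact_mod_cast Nat.succ_ne_zero m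
    have f3 : ((m : ℂ) + 2) ≠ 0 := by exact_mod_cast Nat.succ_ne_zero (m + 1)
    rw [e1, ← mul_assoc, ih, g1, g2, Nat.factorial_succ (m + 1), Nat.factorial_succ m]
    push_cast
    rw [show (m : ℂ) + 1 + 1 = m + 2 by ring]
    field_simp
    ring

lemma Tz_eq (N : ℕ) (s : ℂ) (h0 : 0 ≤ s.re) (h1 : s.re ≤ 1) :
    Tz N s = Complex.Gamma (1 + s) * Complex.Gamma (2 - s) * Rp N (s * (1 - s)) := by
  rw [Tz, Rp, Finset.mul_sum]
  refine Finset.sum_congr rfl fun k _ => ?_
  rw [Finset.mul_sum]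
  refine Finset.sum_congr rfl fun l _ => ?_
  have h := ep_Gamma (k + l) s h0 h1
  have f1 : ((k + l).factorial : ℂ) ≠ 0 := by exact_mod_cast Nat.factorial_ne_zero _
  have f2 : ((k : ℂ) + l + 1) ≠ 0 := by exact_mod_cast Nat.succ_ne_zero (k + l)
  have h2 : Complex.Gamma (1 + s) * Complex.Gamma (2 - s) *
      (((kap N k * kap N l / ((k : ℝ) + l + 1) : ℝ) : ℂ) * ep (k + l) (s * (1 - s))) =
      ((kap N k * kap N l / ((k : ℝ) + l + 1) : ℝ) : ℂ) *
        (Complex.Gamma (1 + s) * Complex.Gamma (2 - s) * ep (k + l) (s * (1 - s))) := by ring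
  rw [h2, h, Nat.factorial_succ]
  push_cast
  field_simp

lemma Tz_diff (N : ℕ) (s : ℂ) (h0 : 0 ≤ s.re) (h1 : s.re ≤ 1) : DifferentiableAt ℂ (Tz N) s := by
  unfold Tz
  refine DifferentiableAt.fun_sum fun k _ => DifferentiableAt.fun_sum fun l _ => ?_
  refine (DifferentiableAt.mul ?_ ?_).const_mul _
  · refine DifferentiableAt.comp (g := Complex.Gamma) s (Complex.differentiableAt_Gamma _ fun n h => ?_)
      (by fun_prop)
    have := congrArg Complex.re h
    simp at this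
    have h2 : (0:ℝ) ≤ n := Nat.cast_nonneg n
    have h3 : (0:ℝ) ≤ k := Nat.cast_nonneg k
    have h4 : (0:ℝ) ≤ l := Nat.cast_nonneg l
    linarith
  · refine DifferentiableAt.comp (g := Complex.Gamma) s (Complex.differentiableAt_Gamma _ fun n h => ?_)
      (by fun_prop)
    have := congrArg Complex.re h
    simp at this
    have h2 : (0:ℝ) ≤ n := Nat.cast_nonneg n
    have h3 : (0:ℝ) ≤ k := Nat.cast_nonneg k
    have h4 : (0:ℝ) ≤ l := Nat.cast_nonneg l
    linarith

lemma Tz_bdd (N : ℕ) : ∃ B : ℝ, ∀ s : ℂ, 0 ≤ s.re → s.re ≤ 1 → ‖Tz N s‖ ≤ B := by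
  choose B hB using Gamma_bdd
  refine ⟨∑ k ∈ range (N + 1), ∑ l ∈ range (N + 1),
    ‖((kap N k * kap N l / ((k + l + 1).factorial : ℝ) ^ 2 : ℝ) : ℂ)‖ * (B (k + l) * B (k + l)), ?_⟩
  intro s h0 h1
  unfold Tz
  refine (norm_sum_le _ _).trans (Finset.sum_le_sum fun k _ => (norm_sum_le _ _).trans
    (Finset.sum_le_sum fun l _ => ?_))
  rw [norm_mul]
  refine mul_le_mul_of_nonneg_left ?_ (norm_nonneg _)
  rw [norm_mul]
  have b1 := hB (k + l) (((k + l : ℕ) : ℂ) + 1 + s) (by simp; linarith) (by simp; linarith)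
  have b2 := hB (k + l) (((k + l : ℕ) : ℂ) + 2 - s) (by simp; linarith) (by simp; linarith)
  exact mul_le_mul b1 b2 (norm_nonneg _) ((norm_nonneg _).trans b1)

lemma Tz_symm (N : ℕ) (s : ℂ) : Tz N (1 - s) = Tz N s := by
  unfold Tz
  refine Finset.sum_congr rfl fun k _ => Finset.sum_congr rfl fun l _ => ?_
  rw [show ((k + l : ℕ) : ℂ) + 1 + (1 - s) = ((k + l : ℕ) : ℂ) + 2 - s by ring,
    show ((k + l : ℕ) : ℂ) + 2 - (1 - s) = ((k + l : ℕ) : ℂ) + 1 + s by ring]
  ring

lemma Tz_pos_left (N : ℕ) (s : ℂ) (hs : s.re = 0) : 0 < (Tz N s).re := by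
  obtain ⟨τ, rfl⟩ : ∃ τ : ℝ, s = τ * Complex.I := ⟨s.im, by
    apply Complex.ext <;> simp [hs]⟩
  have h := pos_main N τ
  convert h using 1
  unfold Tz
  rw [Complex.re_sum]
  refine Finset.sum_congr rfl fun k _ => ?_
  rw [Complex.re_sum]
  refine Finset.sum_congr rfl fun l _ => ?_
  set m := k + l
  have n1 : (m : ℂ) + 1 - τ * Complex.I ≠ 0 := by
    intro h
    have := congrArg Complex.re h
    simp at this
    have h2 : (0:ℝ) ≤ m := Nat.cast_nonneg m
    linarith
  have g2 : Complex.Gamma ((m : ℂ) + 2 - τ * Complex.I) =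
      ((m : ℂ) + 1 - τ * Complex.I) * conj (gam τ m) := by
    rw [← gam_conj, ← Complex.Gamma_add_one _ n1]
    congr 1; ring
  have g3 : Complex.Gamma ((m : ℂ) + 1 + τ * Complex.I) * Complex.Gamma ((m : ℂ) + 2 - τ * Complex.I) =
      ((‖gam τ m‖ ^ 2 : ℝ) : ℂ) * ((m : ℂ) + 1 - τ * Complex.I) := by
    rw [g2, ← conj_mul_self', gam]
    ring
  rw [g3, Complex.re_ofReal_mul, Complex.re_ofReal_mul]
  have g4 : ((m : ℂ) + 1 - τ * Complex.I).re = (m:ℝ) + 1 := by simp
  rw [g4, Nat.factorial_succ]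
  have f1 : (m.factorial : ℝ) ≠ 0 := by positivity
  push_cast
  field_simp

lemma Tz_pos (N : ℕ) (s : ℂ) (hs : s.re = 0 ∨ s.re = 1) : 0 < (Tz N s).re := by
  rcases hs with hs | hs
  · exact Tz_pos_left N s hs
  · rw [← Tz_symm]
    exact Tz_pos_left N (1 - s) (by simp [hs])

end

end Pool.Agent.R662.PZ

namespace Pool.Agent.R283.PT

open Pool.Agent.R662.PZ

theorem stmtZ : StmtZ := by
  intro N s h0 h1 hR
  have hT : Tz N s = 0 := by rw [Tz_eq N s h0 h1, hR, mul_zero]
  rcases h0.eq_or_lt with h0' | h0'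
  · have := Tz_pos N s (Or.inl h0'.symm)
    rw [hT] at this
    simp at this
  rcases h1.eq_or_lt with h1' | h1'
  · have := Tz_pos N s (Or.inr h1')
    rw [hT] at this
    simp at this
  obtain ⟨B, hB⟩ := Tz_bdd N
  set U : Set ℂ := Complex.re ⁻¹' Set.Ioo 0 1 with hU
  set f : ℂ → ℂ := fun z => Complex.exp (-Tz N z) with hf
  have hnorm : ∀ z, ‖f z‖ = Real.exp (-(Tz N z).re) := by
    intro z; rw [hf]; simp [Complex.norm_exp]
  have hcl : closure U = Complex.re ⁻¹' Set.Icc 0 1 := by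
    rw [hU, Complex.closure_preimage_re, closure_Ioo zero_ne_one]
  have hd : DiffContOnCl ℂ f U := by
    apply DifferentiableOn.diffContOnCl
    rw [hcl]
    intro z hz
    exact ((Tz_diff N z hz.1 hz.2).neg.cexp).differentiableWithinAt
  have hle : ∀ z : ℂ, 0 ≤ z.re → z.re ≤ 1 → ‖f z‖ ≤ 1 := by
    intro z hz0 hz1
    refine PhragmenLindelof.vertical_strip hd ?_ ?_ ?_ hz0 hz1
    · refine ⟨0, by positivity, 0, ?_⟩
      refine Asymptotics.IsBigO.of_bound (Real.exp B) ?_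
      have : ∀ᶠ z : ℂ in comap (_root_.abs ∘ Complex.im) atTop ⊓ 𝓟 (Complex.re ⁻¹' Set.Ioo 0 1), z ∈ U :=
        mem_inf_of_right (mem_principal_self _)
      filter_upwards [this] with w hw
      rw [hnorm]
      simp only [zero_mul, Real.exp_zero, norm_one, mul_one]
      apply Real.exp_le_exp.mpr
      have h3 := hB w hw.1.le hw.2.le
      have h4 := Complex.abs_re_le_norm (Tz N w)
      have h5 := neg_abs_le (Tz N w).re
      linarith
    · intro w hw
      rw [hnorm]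
      apply Real.exp_le_one_iff.mpr
      have := Tz_pos N w (Or.inl hw)
      linarith
    · intro w hw
      rw [hnorm]
      apply Real.exp_le_one_iff.mpr
      have := Tz_pos N w (Or.inr hw)
      linarith
  have hsU : s ∈ U := ⟨h0', h1'⟩
  have hmax : IsMaxOn (norm ∘ f) U s := by
    intro z hz
    have h2 : f s = 1 := by rw [hf]; simp [hT]
    simp only [Function.comp_apply, Set.mem_ofPred_eq, h2, norm_one]
    exact hle z hz.1.le hz.2.le
  have hUo : IsOpen U := isOpen_Ioo.preimage Complex.continuous_re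
  have hUc : IsPreconnected U := by
    apply Convex.isPreconnected
    exact (convex_Ioo 0 1).linear_preimage Complex.reLm
  have hEq := Complex.eqOn_closure_of_isPreconnected_of_isMaxOn_norm hUc hUo hd hsU hmax
  have h0c : (0 : ℂ) ∈ closure U := by rw [hcl]; simp
  have h6 := hEq h0c
  have h7 : f 0 = 1 := by
    rw [h6]
    simp only [Function.const_apply, hf, hT, neg_zero, Complex.exp_zero]
  have h8 := hnorm 0
  rw [h7, norm_one] at h8
  have h9 := Tz_pos N 0 (Or.inl rfl)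
  have h10 : Real.exp (-(Tz N 0).re) < 1 := Real.exp_lt_one_iff.mpr (by linarith)
  linarith

end Pool.Agent.R283.PT
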