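import Pool.Agent.R283.PT.CptB
import Pool.Agent.R283.PT.W
import Pool.Agent.R283.PT.Z

/-!
# Part D: vanishing Berezin transform at the boundary implies vanishing of `Ph`
-/

set_option autoImplicit false

open MeasureTheory Complex Set Metric Filter Topology
open scoped ComplexConjugate ENNReal InnerProductSpace

namespace Pool.Agent.R283.PT

noncomputable section

/-- `(N+1)²` times the Berezin transform -/
def UU (N : ℕ) (g : ℂ → ℂ) (z : ℂ) : ℂ :=
  ∑ k ∈ Finset.range (N + 1), ∑ l ∈ Finset.range (N + 1),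
    ((kap N k * kap N l / ((k : ℝ) + l + 1) : ℝ) : ℂ) * uu (k + l) g z

lemma kk_alg (j : ℕ) {z w : ℂ} (hz : ‖z‖ < 1) (hw : ‖w‖ < 1) :
    kk j z w = ((j : ℝ) + 1) * ((1 - ‖z‖ ^ 2) ^ 2 *
      ((1 - ‖z‖ ^ 2) * (1 - ‖w‖ ^ 2) / ‖1 - conj z * w‖ ^ 2) ^ j / ‖1 - conj z * w‖ ^ 4) := by
  have h := norm_one_sub_pos hz hw.le
  unfold kk
  generalize ‖1 - conj z * w‖ = t at h
  rw [div_pow, mul_pow]
  field_simp
  ring

lemma gkk_int (j : ℕ) {g : ℂ → ℂ} {M : ℝ} (hg : AEStronglyMeasurable g μD)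
    (hM : ∀ᵐ w ∂μD, ‖g w‖ ≤ M) {z : ℂ} (hz : ‖z‖ < 1) :
    Integrable (fun w => g w * (kk j z w : ℂ)) μD := by
  have h := (W.kk_integrable j hz).ofReal (𝕜 := ℂ)
  have h2 := h.bdd_mul (c := M) hg hM
  exact h2

lemma berezin_eq {N : ℕ} (f : Lp ℂ ∞ μD) {z : ℂ} (hz : ‖z‖ < 1) :
    berezin (kA N) (toeplitz N f) z * ((((N : ℝ) + 1) ^ 2 : ℝ) : ℂ) = UU N f z := by
  have hs := one_sub_sq_pos hz
  have hN : (((N : ℝ) + 1) ^ 2 : ℝ) ≠ 0 := by positivity
  have hN' : ((((N : ℝ) + 1) ^ 2 : ℝ) : ℂ) ≠ 0 := by exact_mod_cast hN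
  have hs' : (((1 - ‖z‖ ^ 2) ^ 2 : ℝ) : ℂ) ≠ 0 := by
    exact_mod_cast (pow_pos hs 2).ne'
  rw [berezin, inner_kA_toeplitz_kA f hz hz, inner_kA_self N hz]
  have e1 : Nk N f z z / ((((N : ℝ) + 1) ^ 2 / (1 - ‖z‖ ^ 2) ^ 2 : ℝ) : ℂ) *
      ((((N : ℝ) + 1) ^ 2 : ℝ) : ℂ) = (((1 - ‖z‖ ^ 2) ^ 2 : ℝ) : ℂ) * Nk N f z z := by
    rw [Complex.ofReal_div]
    field_simp
  rw [e1, Nk, ← integral_const_mul, UU]
  have hM := norm_le_ae f
  have hfm : AEStronglyMeasurable (f : ℂ → ℂ) μD := Lp.aestronglyMeasurable f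
  simp only [uu]
  have hint : ∀ k l : ℕ, Integrable (fun w => ((kap N k * kap N l / ((k : ℝ) + l + 1) : ℝ) : ℂ) *
      (f w * (kk (k + l) z w : ℂ))) μD := fun k l => (gkk_int (k + l) hfm hM hz).const_mul _
  simp_rw [← integral_const_mul]
  simp_rw [← integral_finsetSum (Finset.range (N + 1)) fun l _ => hint _ l]
  rw [← integral_finsetSum (Finset.range (N + 1)) fun k _ =>
    integrable_finsetSum _ fun l _ => hint k l]
  refine integral_congr_ae ?_
  filter_upwards [ae_lt] with w hw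
  have hn := norm_one_sub_pos hz hw.le
  have e2 : Kf N z w * conj (Kf N z w) = ((‖Kf N z w‖ ^ 2 : ℝ) : ℂ) := by
    rw [sq_norm_eq]
  have e3 : ‖Kf N z w‖ ^ 2 = (∑ k ∈ Finset.range (N + 1), ∑ l ∈ Finset.range (N + 1),
      kap N k * kap N l * ((1 - ‖z‖ ^ 2) * (1 - ‖w‖ ^ 2) / ‖1 - conj z * w‖ ^ 2) ^ (k + l)) /
        ‖1 - conj z * w‖ ^ 4 := by
    rw [norm_Kf hz hw, div_pow, sq_abs, Qk, sq, Finset.sum_mul_sum, ← pow_mul]
    congr 1
    refine Finset.sum_congr rfl fun k _ => Finset.sum_congr rfl fun l _ => ?_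
    rw [pow_add]; ring
  calc (((1 - ‖z‖ ^ 2) ^ 2 : ℝ) : ℂ) * (f w * Kf N z w * conj (Kf N z w))
      = f w * (((1 - ‖z‖ ^ 2) ^ 2 * ‖Kf N z w‖ ^ 2 : ℝ) : ℂ) := by
        rw [mul_assoc (f w), e2]; push_cast; ring
    _ = f w * ((∑ k ∈ Finset.range (N + 1), ∑ l ∈ Finset.range (N + 1),
          (kap N k * kap N l / ((k : ℝ) + l + 1)) * kk (k + l) z w : ℝ) : ℂ) := by
        congr 2
        rw [e3, mul_div_assoc', Finset.mul_sum, Finset.sum_div]
        refine Finset.sum_congr rfl fun k _ => ?_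
        rw [Finset.mul_sum, Finset.sum_div]
        refine Finset.sum_congr rfl fun l _ => ?_
        rw [kk_alg (k + l) hz hw]
        have h1 : ((k : ℝ) + l + 1) ≠ 0 := by positivity
        push_cast
        generalize ((1 - ‖z‖ ^ 2) * (1 - ‖w‖ ^ 2) / ‖1 - conj z * w‖ ^ 2) ^ (k + l) = Y
        field_simp
    _ = _ := by
        push_cast
        rw [Finset.mul_sum]
        refine Finset.sum_congr rfl fun k _ => ?_
        rw [Finset.mul_sum]
        refine Finset.sum_congr rfl fun l _ => ?_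
        ring

lemma regroup (N : ℕ) (c : ℕ → ℕ → ℂ) (x : ℕ → ℂ) :
    ∑ j ∈ Finset.range (2 * N + 1), (∑ k ∈ Finset.range (N + 1), ∑ l ∈ Finset.range (N + 1),
      if k + l = j then c k l else 0) * x j =
    ∑ k ∈ Finset.range (N + 1), ∑ l ∈ Finset.range (N + 1), c k l * x (k + l) := by
  simp_rw [Finset.sum_mul]
  rw [Finset.sum_comm]
  refine Finset.sum_congr rfl fun k hk => ?_
  rw [Finset.sum_comm]
  refine Finset.sum_congr rfl fun l hl => ?_
  rw [Finset.mem_range] at hk hl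
  rw [Finset.sum_eq_single (k + l)]
  · simp
  · intro j _ hj
    rw [if_neg (Ne.symm hj), zero_mul]
  · intro h
    exact absurd (Finset.mem_range.2 (by omega)) h

/-- Tauberian step -/
lemma taub {N : ℕ} {g : ℂ → ℂ} {M : ℝ} (hg : AEStronglyMeasurable g μD)
    (hM : ∀ᵐ z ∂μD, ‖g z‖ ≤ M) (h : ∀ z : ℂ, ‖z‖ < 1 → UU N g z = 0) : g =ᵐ[μD] 0 := by
  refine stmtW (2 * N) (fun j => ∑ k ∈ Finset.range (N + 1), ∑ l ∈ Finset.range (N + 1),
      if k + l = j then ((kap N k * kap N l / ((k : ℝ) + l + 1) : ℝ) : ℂ) else 0) ?_ g M hg hM ?_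
  · intro s h0 h1
    rw [regroup N (fun k l => ((kap N k * kap N l / ((k : ℝ) + l + 1) : ℝ) : ℂ))
      (fun j => ep j (s * (1 - s)))]
    exact stmtZ N s h0 h1
  · intro z hz
    rw [regroup N (fun k l => ((kap N k * kap N l / ((k : ℝ) + l + 1) : ℝ) : ℂ))
      (fun j => uu j g z)]
    exact h z hz

lemma UU_phi {N : ℕ} (g : ℂ → ℂ) {a z : ℂ} (ha : ‖a‖ < 1) (hz : ‖z‖ < 1) :
    UU N (fun w => g (phi a w)) z = UU N g (phi a z) := by
  unfold UU
  simp_rw [W.uu_phi _ g ha hz]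

lemma phi_bd {ζ : ℂ} (hζ : ‖ζ‖ < 1) : Tendsto (fun z => phi z ζ) bd bd := by
  have h0 : Tendsto (fun z : ℂ => ‖z‖) bd (𝓝 1) :=
    (tendsto_comap : Tendsto (fun z : ℂ => ‖z‖) bd (𝓝[<] 1)).mono_right nhdsWithin_le_nhds
  have hz := one_sub_sq_pos hζ
  have h1 : Tendsto (fun z : ℂ => (1 - ‖z‖ ^ 2) * (1 - ‖ζ‖ ^ 2) / ‖1 - conj z * ζ‖ ^ 2) bd (𝓝 0) := by
    have h2 : Tendsto (fun z : ℂ => (1 - ‖z‖ ^ 2) * ((1 - ‖ζ‖ ^ 2) / (1 - ‖ζ‖) ^ 2)) bd (𝓝 0) := by
      have := (h0.pow 2).const_sub 1 |>.mul_const ((1 - ‖ζ‖ ^ 2) / (1 - ‖ζ‖) ^ 2)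
      simpa using this
    refine squeeze_zero' ?_ ?_ h2
    · filter_upwards [bd_lt] with z hz1
      have := one_sub_sq_pos hz1
      positivity
    · filter_upwards [bd_lt] with z hz1
      have h3 := one_sub_sq_pos hz1
      rw [mul_div_assoc]
      have h4 : 0 < 1 - ‖ζ‖ := by linarith
      have h5 : 1 - ‖ζ‖ ≤ ‖1 - conj z * ζ‖ := by
        have h1 : ‖(1 : ℂ)‖ - ‖conj z * ζ‖ ≤ ‖1 - conj z * ζ‖ := norm_sub_norm_le _ _
        rw [norm_one, norm_mul, Complex.norm_conj] at h1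
        nlinarith [norm_nonneg z, norm_nonneg ζ]
      gcongr
  have h2 : Tendsto (fun z : ℂ => ‖phi z ζ‖ ^ 2) bd (𝓝 1) := by
    have h3 := h1.const_sub 1
    rw [sub_zero] at h3
    refine h3.congr' ?_
    filter_upwards [bd_lt] with z hz1
    have := norm_phi_sq hz1 hζ.le
    linarith
  have h3 : Tendsto (fun z : ℂ => ‖phi z ζ‖) bd (𝓝 1) := by
    have := (Real.continuous_sqrt.tendsto 1).comp h2
    rw [Real.sqrt_one] at this
    refine this.congr fun z => ?_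
    simp [Real.sqrt_sq (norm_nonneg _)]
  refine tendsto_comap_iff.2 (tendsto_nhdsWithin_iff.2 ⟨h3, ?_⟩)
  filter_upwards [bd_lt] with z hz1
  exact norm_phi_lt hz1 hζ

/-- Bounded families have weak limits along ultrafilters. -/
lemma exists_weak_limit {ι : Type*} {H : Type*} [NormedAddCommGroup H] [InnerProductSpace ℂ H]
    [CompleteSpace H] (𝒰 : Ultrafilter ι) (u : ι → H) (C : ℝ)
    (hu : ∀ k, ‖u k‖ ≤ C) :
    ∃ v : H, ∀ y : H, Tendsto (fun k => ⟪y, u k⟫_ℂ) 𝒰 (𝓝 ⟪y, v⟫_ℂ) := by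
  let w : ι → WeakDual ℂ H := fun k => StrongDual.toWeakDual (InnerProductSpace.toDual ℂ H (u k))
  have hc : IsCompact (WeakDual.toStrongDual ⁻¹' Metric.closedBall (0 : StrongDual ℂ H) C) :=
    WeakDual.isCompact_closedBall 0 C
  have hmem : ∀ k, w k ∈ (WeakDual.toStrongDual ⁻¹' Metric.closedBall (0 : StrongDual ℂ H) C) := by
    intro k
    have h0 : InnerProductSpace.toDual ℂ H (u k) ∈ Metric.closedBall (0 : StrongDual ℂ H) C := by
      rw [mem_closedBall_zero_iff, LinearIsometryEquiv.norm_map]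
      exact hu k
    exact h0
  have h1 : ((𝒰.map w : Ultrafilter (WeakDual ℂ H)) : Filter (WeakDual ℂ H))
      ≤ 𝓟 (WeakDual.toStrongDual ⁻¹' Metric.closedBall (0 : StrongDual ℂ H) C) := by
    rw [le_principal_iff, Ultrafilter.coe_map, mem_map]
    exact Eventually.of_forall hmem
  obtain ⟨ℓ, hb, hℓ⟩ := hc.ultrafilter_le_nhds (𝒰.map w) h1
  refine ⟨(InnerProductSpace.toDual ℂ H).symm (WeakDual.toStrongDual ℓ), fun y => ?_⟩
  have h2 : Tendsto w 𝒰 (𝓝 ℓ) := by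
    rw [Ultrafilter.coe_map] at hℓ
    exact hℓ
  have h3 := ((WeakDual.eval_continuous (𝕜 := ℂ) y).tendsto ℓ).comp h2
  have h4 : Tendsto (fun k => ⟪u k, y⟫_ℂ) 𝒰
      (𝓝 ⟪((InnerProductSpace.toDual ℂ H).symm (WeakDual.toStrongDual ℓ)), y⟫_ℂ) := by
    rw [InnerProductSpace.toDual_symm_apply]
    exact h3
  have h5 := (RCLike.continuous_conj.tendsto _).comp h4
  rw [inner_conj_symm] at h5
  refine h5.congr fun k => ?_
  rw [Function.comp_apply, inner_conj_symm]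

/-- A weak limit of functions bounded by `M` is bounded by `M`. -/
lemma weak_limit_bdd {ι : Type*} {𝒰 : Ultrafilter ι} {u : ι → Lp ℂ 2 μD} {v : Lp ℂ 2 μD} {M : ℝ}
    (hM0 : 0 ≤ M) (hu : ∀ k, ∀ᵐ w ∂μD, ‖u k w‖ ≤ M)
    (hlim : ∀ y : Lp ℂ 2 μD, Tendsto (fun k => ⟪y, u k⟫_ℂ) 𝒰 (𝓝 ⟪y, v⟫_ℂ)) :
    ∀ᵐ w ∂μD, ‖v w‖ ≤ M := by
  -- the truncated function
  have hvm : Measurable (v : ℂ → ℂ) := (Lp.stronglyMeasurable v).measurable
  have hvL : MemLp (v : ℂ → ℂ) 2 μD := Lp.memLp v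
  set θ : ℂ → ℝ := fun w => max (‖v w‖ - M) 0 / ‖v w‖ with hθ
  have hθm : Measurable θ := by
    rw [hθ]; fun_prop
  have hθ0 : ∀ w, 0 ≤ θ w := fun w => by rw [hθ]; positivity
  have hθ1 : ∀ w, θ w ≤ 1 := fun w => by
    rw [hθ]
    refine div_le_one_of_le₀ ?_ (norm_nonneg _)
    exact max_le (by linarith) (norm_nonneg _)
  have hψL : MemLp (fun w => (θ w : ℂ) * v w) 2 μD := by
    refine MemLp.of_le hvL ?_ (Eventually.of_forall fun w => ?_)
    · exact ((Complex.measurable_ofReal.comp hθm).mul hvm).aestronglyMeasurable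
    · rw [norm_mul, Complex.norm_real, Real.norm_of_nonneg (hθ0 w)]
      exact mul_le_of_le_one_left (norm_nonneg _) (hθ1 w)
  have hθv : ∀ w, θ w * ‖v w‖ = max (‖v w‖ - M) 0 := by
    intro w
    by_cases h : ‖v w‖ = 0
    · rw [h, mul_zero, max_eq_right (by linarith)]
    · rw [hθ]; field_simp
  set y : Lp ℂ 2 μD := hψL.toLp _ with hy
  have hyc : (y : ℂ → ℂ) =ᵐ[μD] fun w => (θ w : ℂ) * v w := MemLp.coeFn_toLp _
  have hint1 : Integrable (fun w => max (‖v w‖ - M) 0) μD := by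
    have := (integrable_of_Lp v).norm
    refine Integrable.mono' this ?_ (Eventually.of_forall fun w => ?_)
    · exact (by fun_prop : Measurable fun w => max (‖v w‖ - M) 0).aestronglyMeasurable
    · rw [Real.norm_of_nonneg (le_max_right _ _)]
      exact max_le (by linarith) (norm_nonneg _)
  have hb : ∀ k, ‖⟪y, u k⟫_ℂ‖ ≤ M * ∫ w, max (‖v w‖ - M) 0 ∂μD := by
    intro k
    rw [L2.inner_def, ← integral_const_mul]
    refine norm_integral_le_of_norm_le (hint1.const_mul M) ?_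
    filter_upwards [hyc, hu k] with w h1 h2
    rw [h1]
    have h3 : ‖⟪(θ w : ℂ) * v w, u k w⟫_ℂ‖ ≤ ‖(θ w : ℂ) * v w‖ * ‖u k w‖ := norm_inner_le_norm _ _
    refine h3.trans ?_
    rw [norm_mul, Complex.norm_real, Real.norm_of_nonneg (hθ0 w), hθv, mul_comm]
    exact mul_le_mul_of_nonneg_right h2 (le_max_right _ _)
  have hb2 : ‖⟪y, v⟫_ℂ‖ ≤ M * ∫ w, max (‖v w‖ - M) 0 ∂μD :=
    le_of_tendsto (hlim y).norm (Eventually.of_forall hb)
  have hv2 : Integrable (fun w => ‖v w‖ ^ 2) μD := by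
    have := hvL.integrable_norm_pow (by norm_num)
    simpa using this
  have hint2 : Integrable (fun w => max (‖v w‖ - M) 0 * ‖v w‖) μD := by
    refine Integrable.mono' hv2 ?_ (Eventually.of_forall fun w => ?_)
    · exact (by fun_prop : Measurable fun w => max (‖v w‖ - M) 0 * ‖v w‖).aestronglyMeasurable
    · rw [Real.norm_of_nonneg (mul_nonneg (le_max_right _ _) (norm_nonneg _)), sq]
      exact mul_le_mul_of_nonneg_right (max_le (by linarith) (norm_nonneg _)) (norm_nonneg _)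
  have e1 : ⟪y, v⟫_ℂ = ((∫ w, max (‖v w‖ - M) 0 * ‖v w‖ ∂μD : ℝ) : ℂ) := by
    rw [L2.inner_def, ← integral_complex_ofReal]
    refine integral_congr_ae ?_
    filter_upwards [hyc] with w h1
    rw [h1, RCLike.inner_apply, map_mul, Complex.conj_ofReal, ← hθv]
    have : v w * (↑(θ w) * conj (v w)) = (θ w : ℂ) * (v w * conj (v w)) := by ring
    rw [this, ← sq_norm_eq]
    push_cast
    ring
  rw [e1, Complex.norm_real] at hb2
  have hb3 : ∫ w, max (‖v w‖ - M) 0 * ‖v w‖ ∂μD ≤ M * ∫ w, max (‖v w‖ - M) 0 ∂μD :=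
    (le_abs_self _).trans hb2
  have hint3 : Integrable (fun w => max (‖v w‖ - M) 0 ^ 2) μD := by
    refine (hint2.sub (hint1.const_mul M)).congr (Eventually.of_forall fun w => ?_)
    simp only [Pi.sub_apply]
    rcases le_total (‖v w‖ - M) 0 with h | h
    · rw [max_eq_right h]; ring
    · rw [max_eq_left h]; ring
  have e2 : ∫ w, max (‖v w‖ - M) 0 ^ 2 ∂μD ≤ 0 := by
    have e3 : ∫ w, max (‖v w‖ - M) 0 ^ 2 ∂μD
        = ∫ w, max (‖v w‖ - M) 0 * ‖v w‖ ∂μD - M * ∫ w, max (‖v w‖ - M) 0 ∂μD := by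
      rw [← integral_const_mul, ← integral_sub hint2 (hint1.const_mul M)]
      refine integral_congr_ae (Eventually.of_forall fun w => ?_)
      simp only
      rcases le_total (‖v w‖ - M) 0 with h | h
      · rw [max_eq_right h]; ring
      · rw [max_eq_left h]; ring
    rw [e3]; linarith
  have e4 := (integral_eq_zero_iff_of_nonneg (fun w => sq_nonneg _) hint3).1
    (le_antisymm e2 (integral_nonneg fun w => sq_nonneg _))
  filter_upwards [e4] with w hw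
  have hw' : max (‖v w‖ - M) 0 = 0 := by
    have : max (‖v w‖ - M) 0 ^ 2 = 0 := hw
    exact pow_eq_zero_iff (two_ne_zero) |>.1 this
  have := le_max_left (‖v w‖ - M) 0
  linarith

/-- inner products with bounded functions -/
lemma inner_bdd {p : ℂ → ℂ} {C : ℝ} (hp : Measurable p) (hC : ∀ᵐ w ∂μD, ‖p w‖ ≤ C) :
    ∃ y : Lp ℂ 2 μD, ∀ g : Lp ℂ 2 μD, ⟪y, g⟫_ℂ = ∫ w, g w * p w ∂μD := by
  have hL : MemLp (fun w => conj (p w)) 2 μD := by
    refine MemLp.of_bound (Complex.continuous_conj.measurable.comp hp).aestronglyMeasurable C ?_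
    filter_upwards [hC] with w hw
    rwa [Complex.norm_conj]
  refine ⟨hL.toLp _, fun g => ?_⟩
  rw [L2.inner_def]
  refine integral_congr_ae ?_
  filter_upwards [hL.coeFn_toLp] with w hw
  rw [hw, RCLike.inner_apply, Complex.conj_conj]

lemma uu_congr (j : ℕ) {g h : ℂ → ℂ} (hgh : g =ᵐ[μD] h) (z : ℂ) : uu j g z = uu j h z := by
  unfold uu
  refine integral_congr_ae ?_
  filter_upwards [hgh] with w hw
  rw [hw]

theorem Ph_tendsto {N : ℕ} (f : Lp ℂ ∞ μD)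
    (hB : Tendsto (fun z => berezin (kA N) (toeplitz N f) z)
      (comap (fun z : ℂ => ‖z‖) (𝓝[<] 1)) (𝓝 0)) {ω : ℂ} (hω : ‖ω‖ < 1) :
    Tendsto (fun z => Ph N f z ω) (comap (fun z : ℂ => ‖z‖) (𝓝[<] 1)) (𝓝 0) := by
  change Tendsto (fun z => Ph N f z ω) bd (𝓝 0)
  change Tendsto (fun z => berezin (kA N) (toeplitz N f) z) bd (𝓝 0) at hB
  have hfm : Measurable (f : ℂ → ℂ) := (Lp.stronglyMeasurable f).measurable
  have hM := norm_le_ae f
  have hUB : Tendsto (fun z => UU N f z) bd (𝓝 0) := by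
    have h1 := hB.mul_const ((((N : ℝ) + 1) ^ 2 : ℝ) : ℂ)
    rw [zero_mul] at h1
    refine h1.congr' ?_
    filter_upwards [bd_lt] with z hz using berezin_eq f hz
  -- the functions u z
  have hL : ∀ z, ‖z‖ < 1 → MemLp (fun w => f (phi z w)) 2 μD := by
    intro z hz
    exact MemLp.of_bound (hfm.comp (measurable_phi z)).aestronglyMeasurable _
      ((qmp_phi hz).ae hM)
  let u : ℂ → Lp ℂ 2 μD := fun z => if hz : ‖z‖ < 1 then (hL z hz).toLp _ else 0
  have hu : ∀ z, ‖z‖ < 1 → (u z : ℂ → ℂ) =ᵐ[μD] fun w => f (phi z w) := by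
    intro z hz
    simp only [u, dif_pos hz]
    exact MemLp.coeFn_toLp _
  have hub : ∀ z, ∀ᵐ w ∂μD, ‖u z w‖ ≤ ‖f‖ := by
    intro z
    by_cases hz : ‖z‖ < 1
    · filter_upwards [hu z hz, (qmp_phi hz).ae hM] with w h1 h2
      rw [h1]; exact h2
    · simp only [u, dif_neg hz]
      filter_upwards [Lp.coeFn_zero ℂ 2 μD] with w h1
      rw [h1]; simp
  obtain ⟨C0, hun⟩ : ∃ C0, ∀ z, ‖u z‖ ≤ C0 :=
    ⟨_, fun z => Lp.norm_le_of_ae_bound (norm_nonneg f) (hub z)⟩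
  rw [tendsto_iff_ultrafilter]
  intro 𝒰 h𝒰
  obtain ⟨v, hv⟩ := exists_weak_limit 𝒰 u C0 hun
  have hvb := weak_limit_bdd (norm_nonneg f) hub hv
  have hvm : AEStronglyMeasurable (v : ℂ → ℂ) μD := Lp.aestronglyMeasurable v
  have hv0 : (v : ℂ → ℂ) =ᵐ[μD] 0 := by
    refine taub (N := N) hvm hvb fun ζ hζ => ?_
    -- limit of UU
    have h1 : ∀ j, Tendsto (fun z => uu j (u z) ζ) 𝒰 (𝓝 (uu j v ζ)) := by
      intro j
      obtain ⟨y, hy⟩ := inner_bdd (p := fun w => (kk j ζ w : ℂ))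
        (C := ((j : ℝ) + 1) / (1 - ‖ζ‖) ^ (2 * j + 4))
        (Complex.measurable_ofReal.comp (W.kk_meas j ζ)) (by
          filter_upwards [ae_lt] with w hw
          rw [Complex.norm_real, Real.norm_of_nonneg (W.kk_nonneg j hζ.le hw.le)]
          exact W.kk_le j hζ le_rfl hw)
      have := hv y
      simp only [hy] at this
      exact this
    have h2 : Tendsto (fun z => UU N (u z) ζ) 𝒰 (𝓝 (UU N v ζ)) := by
      unfold UU
      exact tendsto_finsetSum _ fun k _ => tendsto_finsetSum _ fun l _ => (h1 _).const_mul _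
    have h3 : Tendsto (fun z => UU N (u z) ζ) 𝒰 (𝓝 0) := by
      have h4 := (hUB.comp (phi_bd hζ)).mono_left h𝒰
      refine h4.congr' ?_
      filter_upwards [h𝒰 bd_lt] with z hz
      have h5 : UU N (u z) ζ = UU N (fun w => f (phi z w)) ζ := by
        unfold UU
        simp_rw [uu_congr _ (hu z hz) ζ]
      rw [h5, UU_phi _ hz hζ]
      rfl
    exact tendsto_nhds_unique h2 h3
  -- conclusion
  have hv00 : v = 0 := (Lp.eq_zero_iff_ae_eq_zero).2 hv0
  obtain ⟨C, hC0, hC⟩ := Qk_bound N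
  obtain ⟨C', hC'0, hC'⟩ := Kf_bdd N hω
  obtain ⟨y, hy⟩ := inner_bdd (p := fun η => Kf N ω η * (Qk N (1 - ‖η‖ ^ 2) : ℂ)) (C := C' * C)
    (by
      have h1 := measurable_Kf_right N ω
      have h2 := (Qk_continuous N).measurable
      fun_prop) (by
      filter_upwards [ae_lt, hC'] with w hw hw2
      rw [norm_mul, Complex.norm_real]
      exact mul_le_mul hw2 (hC _ (one_sub_sq_mem hw)) (norm_nonneg _) hC'0)
  have h1 := hv y
  rw [hv00, inner_zero_right] at h1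
  refine h1.congr' ?_
  filter_upwards [h𝒰 bd_lt] with z hz
  rw [hy, Ph]
  refine integral_congr_ae ?_
  filter_upwards [hu z hz] with w hw
  rw [hw]

end

end Pool.Agent.R283.PT
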