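import Pool.Agent.R283.PT.Rep

/-!
# Covariance of the kernel and the reproducing property at every point
-/

set_option autoImplicit false

open MeasureTheory Complex Set Metric
open scoped ComplexConjugate ENNReal

namespace Pool.Agent.R283.PT

noncomputable section

lemma alg_cov {N : ℕ} {s A A' B B' C C' : ℂ} (hs : s ≠ 0) (hA : A ≠ 0) (hA' : A' ≠ 0)
    (hB : B ≠ 0) (hB' : B' ≠ 0) (hC : C ≠ 0) :
    (s * C' / (A * B')) ^ N / (s * C / (A' * B)) ^ (N + 2) =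
      s⁻¹ ^ 2 * (A' ^ (N + 2) / A ^ N) * (B ^ (N + 2) / B' ^ N) * (C' ^ N / C ^ (N + 2)) := by
  rw [div_pow, div_pow, mul_pow, mul_pow, mul_pow, mul_pow, pow_add s N 2, inv_pow]
  field_simp

/-- covariance of the kernel under the involution `phi z` -/
theorem Kf_phi {N : ℕ} {z ω η : ℂ} (hz : ‖z‖ < 1) (hω : ‖ω‖ < 1) (hη : ‖η‖ < 1) :
    Kf N (phi z ω) (phi z η) = ((1 - ‖z‖ ^ 2 : ℝ) : ℂ)⁻¹ ^ 2 *
      ((1 - z * conj ω) ^ (N + 2) / (1 - conj z * ω) ^ N) *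
      ((1 - conj z * η) ^ (N + 2) / (1 - z * conj η) ^ N) * Kf N ω η := by
  have h1 := one_sub_phi_phi hz hω.le hη.le
  have h2 := one_sub_phi_phi hz hη.le hω.le
  have h3 := norm_one_sub_phi_phi hz hω.le hη.le
  have hA := one_sub_ne hz hω.le
  have hA' := one_sub_ne' hz hω.le
  have hB := one_sub_ne hz hη.le
  have hB' := one_sub_ne' hz hη.le
  have hC := one_sub_ne hω hη.le
  have hs : ((1 - ‖z‖ ^ 2 : ℝ) : ℂ) ≠ 0 := by exact_mod_cast (one_sub_sq_pos hz).ne'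
  have harg : (1 - ‖phi z ω‖ ^ 2) * (1 - ‖phi z η‖ ^ 2) / ‖1 - conj (phi z ω) * phi z η‖ ^ 2 =
      (1 - ‖ω‖ ^ 2) * (1 - ‖η‖ ^ 2) / ‖1 - conj ω * η‖ ^ 2 := by
    rw [norm_phi_sq hz hω.le, norm_phi_sq hz hη.le, h3]
    have n1 := (norm_one_sub_pos hz hω.le).ne'
    have n2 := (norm_one_sub_pos hz hη.le).ne'
    have n3 := (norm_one_sub_pos hω hη.le).ne'
    have n4 := (one_sub_sq_pos hz).ne'
    field_simp
  have e : 1 - phi z ω * conj (phi z η) =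
      ((1 - ‖z‖ ^ 2 : ℝ) : ℂ) * (1 - ω * conj η) / ((1 - conj z * ω) * (1 - z * conj η)) := by
    rw [mul_comm (phi z ω), h2, mul_comm (conj η) ω, mul_comm (1 - z * conj η)]
  rw [Kf, Kf, harg, e, h1, alg_cov hs hA hA' hB hB' hC]
  ring

lemma Kf_zero (N : ℕ) (w : ℂ) : Kf N 0 w = (Qk N (1 - ‖w‖ ^ 2) : ℂ) := by
  simp [Kf]

lemma Kf_conj (N : ℕ) (z w : ℂ) : conj (Kf N z w) = Kf N w z := by
  rw [Kf, Kf]
  simp only [map_mul, map_div₀, map_pow, map_sub, map_one, Complex.conj_conj, Complex.conj_ofReal]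
  have e : ‖1 - conj w * z‖ = ‖1 - conj z * w‖ := by
    rw [← Complex.norm_conj]
    simp [mul_comm]
  rw [e, mul_comm (1 - ‖w‖ ^ 2) (1 - ‖z‖ ^ 2), mul_comm w (conj z), mul_comm (conj w) z]

lemma uarg_mem {z w : ℂ} (hz : ‖z‖ < 1) (hw : ‖w‖ < 1) :
    (1 - ‖z‖ ^ 2) * (1 - ‖w‖ ^ 2) / ‖1 - conj z * w‖ ^ 2 ∈ Icc (0 : ℝ) 1 := by
  rw [← norm_phi_sq hz hw.le]
  exact one_sub_sq_mem (norm_phi_lt hz hw)

lemma norm_one_sub_conj (z w : ℂ) : ‖1 - z * conj w‖ = ‖1 - conj z * w‖ := by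
  rw [← Complex.norm_conj]; simp

lemma norm_Kf {N : ℕ} {z w : ℂ} (hz : ‖z‖ < 1) (hw : ‖w‖ < 1) :
    ‖Kf N z w‖ = |Qk N ((1 - ‖z‖ ^ 2) * (1 - ‖w‖ ^ 2) / ‖1 - conj z * w‖ ^ 2)| /
      ‖1 - conj z * w‖ ^ 2 := by
  have h := (norm_one_sub_pos hz hw.le).ne'
  rw [Kf, norm_mul, norm_div, norm_pow, norm_pow, norm_one_sub_conj, Complex.norm_real,
    Real.norm_eq_abs, pow_add]
  field_simp

lemma norm_Kf_le {N : ℕ} {C : ℝ} (hC : ∀ u ∈ Icc (0 : ℝ) 1, |Qk N u| ≤ C) {z w : ℂ}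
    (hz : ‖z‖ < 1) (hw : ‖w‖ < 1) : ‖Kf N z w‖ ≤ C / ‖1 - conj z * w‖ ^ 2 := by
  rw [norm_Kf hz hw]
  gcongr
  exact hC _ (uarg_mem hz hw)

lemma one_sub_le_norm {z w : ℂ} (hw : ‖w‖ ≤ 1) : 1 - ‖z‖ ≤ ‖1 - conj z * w‖ := by
  have h1 : ‖(1 : ℂ)‖ - ‖conj z * w‖ ≤ ‖1 - conj z * w‖ := norm_sub_norm_le _ _
  rw [norm_one, norm_mul, Complex.norm_conj] at h1
  nlinarith [norm_nonneg z]

lemma norm_Kf_le' {N : ℕ} {C : ℝ} (hC0 : 0 ≤ C) (hC : ∀ u ∈ Icc (0 : ℝ) 1, |Qk N u| ≤ C) {z w : ℂ}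
    (hz : ‖z‖ < 1) (hw : ‖w‖ < 1) : ‖Kf N z w‖ ≤ C / (1 - ‖z‖) ^ 2 := by
  refine (norm_Kf_le hC hz hw).trans ?_
  have h0 : 0 < 1 - ‖z‖ := by linarith
  gcongr
  exact one_sub_le_norm hw.le

lemma measurable_Kf (N : ℕ) : Measurable (fun p : ℂ × ℂ => Kf N p.1 p.2) := by
  unfold Kf
  have := (Qk_continuous N).measurable
  fun_prop

lemma measurable_Kf_right (N : ℕ) (z : ℂ) : Measurable (Kf N z) := by
  have h : Measurable (fun w => Kf N z w) := by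
    unfold Kf
    have := (Qk_continuous N).measurable
    fun_prop
  exact h

lemma alg_pull {a P R n x : ℂ} (hP : P ≠ 0) : a * P / R * (n / P * x) = a * (n * (x / R)) := by
  field_simp

lemma isPoly_pull_term {N k : ℕ} (hk' : k ≤ N) {h : ℂ → ℂ} (hh : DifferentiableOn ℂ h (ball 0 1))
    {z : ℂ} (hz : ‖z‖ < 1) : IsPoly (N + 1) (fun ω =>
      (1 - z * conj ω) ^ (N - k) * ((conj z - conj ω) ^ k *
        (h (phi z ω) / (1 - conj z * ω) ^ (N + 2)))) := by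
  have h0 : DifferentiableOn ℂ (fun ω : ℂ => h (phi z ω) / (1 - conj z * ω) ^ (N + 2))
      (ball 0 1) := by
    intro w hw
    rw [mem_ball_zero_iff] at hw
    have d1 : DifferentiableAt ℂ h (phi z w) :=
      hh.differentiableAt (isOpen_ball.mem_nhds (mem_ball_zero_iff.2 (norm_phi_lt hz hw)))
    have d2 : DifferentiableAt ℂ (fun ω => h (phi z ω)) w :=
      d1.comp w (hasDerivAt_phi hz hw.le).differentiableAt
    have d3 : DifferentiableAt ℂ (fun ω : ℂ => (1 - conj z * ω) ^ (N + 2)) w := by fun_prop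
    exact (d2.div d3 (pow_ne_zero _ (one_sub_ne hz hw.le))).differentiableWithinAt
  have h2 := ((IsPoly.hol h0).affine_pow_mul (conj z) (-1) k).affine_pow_mul 1 (-z) (N - k)
  have e : 1 + k + (N - k) = N + 1 := by omega
  rw [e] at h2
  refine h2.congr fun w _ => ?_
  rw [show (1 : ℂ) + -z * conj w = 1 - z * conj w by ring,
    show conj z + -1 * conj w = conj z - conj w by ring]

/-- the pull back of a polyanalytic function -/
lemma isPoly_pull {N : ℕ} {g : ℂ → ℂ} (hg : IsPoly (N + 1) g) {z : ℂ} (hz : ‖z‖ < 1) :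
    IsPoly (N + 1) (fun ω => ((1 - z * conj ω) ^ N / (1 - conj z * ω) ^ (N + 2)) * g (phi z ω)) := by
  obtain ⟨h, hh, hh2⟩ := hg
  refine (IsPoly.sum (Finset.range (N + 1)) (f := fun k ω =>
      (1 - z * conj ω) ^ (N - k) * ((conj z - conj ω) ^ k *
        (h k (phi z ω) / (1 - conj z * ω) ^ (N + 2)))) fun k hk => isPoly_pull_term
          (Nat.lt_succ_iff.1 (Finset.mem_range.1 hk)) (hh k) hz).congr fun ω hω => ?_
  rw [mem_ball_zero_iff] at hω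
  have hA' := one_sub_ne' hz hω.le
  have hA := one_sub_ne hz hω.le
  have e0 := hh2 (phi z ω) (by rw [mem_ball_zero_iff]; exact norm_phi_lt hz hω)
  rw [e0, Finset.mul_sum]
  refine Finset.sum_congr rfl fun k hk => ?_
  have hk' : k ≤ N := Nat.lt_succ_iff.1 (Finset.mem_range.1 hk)
  have e : conj (phi z ω) = (conj z - conj ω) / (1 - z * conj ω) := by
    simp [phi]
  have e2 : (1 - z * conj ω) ^ N = (1 - z * conj ω) ^ (N - k) * (1 - z * conj ω) ^ k := by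
    rw [← pow_add, Nat.sub_add_cancel hk']
  rw [e, e2, div_pow]
  exact alg_pull (pow_ne_zero k hA')

lemma jac_eq {z ω : ℂ} : ((jac z ω : ℝ) : ℂ) = ((1 - ‖z‖ ^ 2 : ℝ) : ℂ) ^ 2 /
    ((1 - conj z * ω) ^ 2 * (1 - z * conj ω) ^ 2) := by
  rw [jac]
  push_cast
  have e1 : ((‖1 - conj z * ω‖ : ℝ) : ℂ) ^ 4 = ((1 - conj z * ω) * (1 - z * conj ω)) ^ 2 := by
    rw [← normsq_one_sub]; push_cast; ring
  rw [e1, mul_pow]

/-- pull-back identity -/
lemma pull_identity {N : ℕ} {g : ℂ → ℂ} {z ω : ℂ} (hz : ‖z‖ < 1) (hω : ‖ω‖ < 1) :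
    jac z ω • (g (phi z ω) * conj (Kf N z (phi z ω))) =
      (((1 - z * conj ω) ^ N / (1 - conj z * ω) ^ (N + 2)) * g (phi z ω)) *
        (Qk N (1 - ‖ω‖ ^ 2) : ℂ) := by
  have h := Kf_phi (N := N) hz (norm_zero.trans_lt one_pos) hω
  rw [phi_zero, Kf_zero] at h
  rw [h, Complex.real_smul, jac_eq]
  have hA := one_sub_ne hz hω.le
  have hA' := one_sub_ne' hz hω.le
  have hs : ((1 - ‖z‖ ^ 2 : ℝ) : ℂ) ≠ 0 := by exact_mod_cast (one_sub_sq_pos hz).ne'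
  simp only [map_mul, map_div₀, map_pow, map_sub, map_one, Complex.conj_conj, Complex.conj_ofReal,
    map_inv₀, map_zero, mul_zero, sub_zero, one_pow, div_one, mul_one]
  generalize ((1 - ‖z‖ ^ 2 : ℝ) : ℂ) = s at *
  generalize 1 - conj z * ω = A at *
  generalize 1 - z * conj ω = A' at *
  rw [inv_pow, pow_add A' N 2, pow_add A N 2]
  field_simp

/-- reproducing property -/
theorem rep {N : ℕ} {g : ℂ → ℂ} (hg : IsPoly (N + 1) g) (hi : Integrable g μD) {z : ℂ}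
    (hz : ‖z‖ < 1) : ∫ w, g w * conj (Kf N z w) ∂μD = g z := by
  rw [← integral_phi hz]
  have hG := isPoly_pull hg hz
  have e1 : ∫ ω, jac z ω • (g (phi z ω) * conj (Kf N z (phi z ω))) ∂μD =
      ∫ ω, (((1 - z * conj ω) ^ N / (1 - conj z * ω) ^ (N + 2)) * g (phi z ω)) *
        (Qk N (1 - ‖ω‖ ^ 2) : ℂ) ∂μD := by
    refine integral_congr_ae ?_
    filter_upwards [ae_lt] with ω hω
    exact pull_identity hz hω
  rw [e1, rep_zero hG]
  · simp [phi_zero]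
  · have h1 := (integrable_phi hz g).2 hi
    have hs : 0 < 1 - ‖z‖ ^ 2 := one_sub_sq_pos hz
    have h2 : Integrable (fun ω => (jac z ω • g (phi z ω)) *
        (((1 - z * conj ω) ^ N / (1 - conj z * ω) ^ (N + 2)) / (jac z ω : ℂ))) μD := by
      refine Integrable.mul_bdd (c := 4 / (1 - ‖z‖ ^ 2) ^ 2) h1 ?_ ?_
      · refine Measurable.aestronglyMeasurable ?_
        unfold jac
        fun_prop
      · filter_upwards [ae_lt] with ω hω
        have hn := norm_one_sub_pos hz hω.le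
        rw [norm_div, norm_div, norm_pow, norm_pow, norm_one_sub_conj, Complex.norm_real,
          Real.norm_of_nonneg (jac_pos hz hω).le, jac]
        have h4 : ‖1 - conj z * ω‖ ≤ 2 := by
          have := norm_sub_le (1 : ℂ) (conj z * ω)
          have := norm_conj_mul_lt hz hω.le
          rw [norm_one] at *
          linarith
        have e5 : ‖1 - conj z * ω‖ ^ N / ‖1 - conj z * ω‖ ^ (N + 2) /
            ((1 - ‖z‖ ^ 2) ^ 2 / ‖1 - conj z * ω‖ ^ 4) = ‖1 - conj z * ω‖ ^ 2 / (1 - ‖z‖ ^ 2) ^ 2 := by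
          rw [pow_add]
          field_simp
        rw [e5]
        gcongr
        nlinarith
    refine h2.congr ?_
    filter_upwards [ae_lt] with ω hω
    have hj : (jac z ω : ℂ) ≠ 0 := by exact_mod_cast (jac_pos hz hω).ne'
    rw [Complex.real_smul]
    field_simp

end

end Pool.Agent.R283.PT
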