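import Pool.Agent.R283.PT.Sch
import Pool.Agent.Helper965.CN.Cpt

/-!
# Compactness from the vanishing of the Schur integrals at the boundary
-/

set_option autoImplicit false

open MeasureTheory Complex Set Metric Filter Topology
open scoped ComplexConjugate ENNReal InnerProductSpace

namespace Pool.Agent.R283.PT

noncomputable section

lemma Nk_symm {N : ℕ} (f : ℂ → ℂ) (z v : ℂ) :
    conj (Nk N f z v) = Nk N (fun w => conj (f w)) v z := by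
  rw [Nk, Nk, ← integral_conj]
  refine integral_congr_ae (Eventually.of_forall fun w => ?_)
  simp only [map_mul, Complex.conj_conj]
  ring

lemma enorm_Nk_symm {N : ℕ} (f : ℂ → ℂ) (z v : ℂ) :
    ‖Nk N f z v‖ₑ = ‖Nk N (fun w => conj (f w)) v z‖ₑ := by
  rw [← Nk_symm, ← ofReal_norm, ← ofReal_norm, Complex.norm_conj]

lemma measurable_Kf_comp {α : Type*} [MeasurableSpace α] {N : ℕ} {a b : α → ℂ} (ha : Measurable a)
    (hb : Measurable b) : Measurable (fun x => Kf N (a x) (b x)) := by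
  unfold Kf
  have := (Qk_continuous N).measurable
  have hb' := Complex.continuous_conj.measurable.comp hb
  have ha' := Complex.continuous_conj.measurable.comp ha
  fun_prop

lemma measurable_Nk {N : ℕ} {f : ℂ → ℂ} (hf : Measurable f) :
    Measurable (fun p : ℂ × ℂ => Nk N f p.1 p.2) := by
  have h1 : Measurable (fun q : (ℂ × ℂ) × ℂ => Kf N q.1.2 q.2) :=
    measurable_Kf_comp (by fun_prop) (by fun_prop)
  have h2 : Measurable (fun q : (ℂ × ℂ) × ℂ => Kf N q.1.1 q.2) :=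
    measurable_Kf_comp (by fun_prop) (by fun_prop)
  have h3 : Measurable (fun q : (ℂ × ℂ) × ℂ => conj (Kf N q.1.1 q.2)) :=
    Complex.continuous_conj.measurable.comp h2
  have h4 : Measurable (fun q : (ℂ × ℂ) × ℂ => f q.2) := hf.comp measurable_snd
  have h : StronglyMeasurable (fun q : (ℂ × ℂ) × ℂ =>
      f q.2 * Kf N q.1.2 q.2 * conj (Kf N q.1.1 q.2)) := ((h4.mul h1).mul h3).stronglyMeasurable
  exact (h.integral_prod_right' (ν := μD)).measurable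

lemma measurable_Nk_right {N : ℕ} {f : ℂ → ℂ} (hf : Measurable f) (z : ℂ) :
    Measurable (fun v : ℂ => Nk N f z v) := by
  have h1 := (measurable_Nk (N := N) hf).comp (measurable_prodMk_left (x := z))
  simpa only [Function.comp_def] using h1

lemma pw_ne_zero {v : ℂ} (hv : ‖v‖ < 1) : pw v ≠ 0 := by
  rw [pw, ENNReal.ofReal_rpow_of_pos (one_sub_sq_pos hv)]
  exact (ENNReal.ofReal_pos.2 (Real.rpow_pos_of_pos (one_sub_sq_pos hv) _)).ne'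

lemma pw_ne_top {v : ℂ} (hv : ‖v‖ < 1) : pw v ≠ ∞ := by
  rw [pw, ENNReal.ofReal_rpow_of_pos (one_sub_sq_pos hv)]
  exact ENNReal.ofReal_ne_top

/-- Cauchy-Schwarz step -/
lemma schur_pt {N : ℕ} {f h : ℂ → ℂ} (hf : Measurable f) (hh : Measurable h) (z : ℂ) :
    ‖∫ v, h v * Nk N f z v ∂μD‖ₑ ^ (2 : ℝ) ≤
      AA N f z * ∫⁻ v, ‖Nk N f z v‖ₑ * ((pw v)⁻¹ * ‖h v‖ₑ ^ (2 : ℝ)) ∂μD := by
  have hmN : Measurable (fun v => ‖Nk N f z v‖ₑ) := (measurable_Nk_right hf z).enorm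
  set F : ℂ → ℝ≥0∞ := fun v => (‖Nk N f z v‖ₑ * pw v) ^ (1 / 2 : ℝ) with hF
  set G : ℂ → ℝ≥0∞ := fun v => (‖Nk N f z v‖ₑ * ((pw v)⁻¹ * ‖h v‖ₑ ^ (2 : ℝ))) ^ (1 / 2 : ℝ) with hG
  have hFm : Measurable F := (hmN.mul measurable_pw).pow_const _
  have hGm : Measurable G := (hmN.mul (measurable_pw.inv.mul (hh.enorm.pow_const _))).pow_const _
  have h1 : ‖∫ v, h v * Nk N f z v ∂μD‖ₑ ≤ ∫⁻ v, (F * G) v ∂μD := by
    refine (enorm_integral_le_lintegral_enorm _).trans (le_of_eq (lintegral_congr_ae ?_))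
    filter_upwards [ae_lt] with v hv
    rw [Pi.mul_apply, hF, hG]
    simp only
    rw [← ENNReal.mul_rpow_of_nonneg _ _ (by norm_num : (0 : ℝ) ≤ 1 / 2), enorm_mul]
    have e : ‖Nk N f z v‖ₑ * pw v * (‖Nk N f z v‖ₑ * ((pw v)⁻¹ * ‖h v‖ₑ ^ (2 : ℝ))) =
        (‖h v‖ₑ * ‖Nk N f z v‖ₑ) ^ (2 : ℝ) := by
      rw [ENNReal.mul_rpow_of_nonneg _ _ (by norm_num)]
      calc _ = (pw v * (pw v)⁻¹) * (‖h v‖ₑ ^ (2 : ℝ) * (‖Nk N f z v‖ₑ * ‖Nk N f z v‖ₑ)) := by ring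
        _ = _ := by
          rw [ENNReal.mul_inv_cancel (pw_ne_zero hv) (pw_ne_top hv), one_mul]
          congr 1
          rw [show (2 : ℝ) = ((2 : ℕ) : ℝ) by norm_num, ENNReal.rpow_natCast, sq]
    rw [e, ← ENNReal.rpow_mul]
    norm_num
  have h2 := ENNReal.lintegral_mul_le_Lp_mul_Lq μD Real.HolderConjugate.two_two
    hFm.aemeasurable hGm.aemeasurable
  have h3 := ENNReal.rpow_le_rpow (h1.trans h2) (z := 2) (by norm_num)
  refine h3.trans (le_of_eq ?_)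
  rw [ENNReal.mul_rpow_of_nonneg _ _ (by norm_num), ← ENNReal.rpow_mul, ← ENNReal.rpow_mul, AA]
  norm_num
  congr 1
  · refine lintegral_congr fun v => ?_
    rw [hF]
    simp only
    rw [← ENNReal.rpow_natCast, ← ENNReal.rpow_mul]
    norm_num
  · refine lintegral_congr fun v => ?_
    rw [hG]
    simp only
    rw [← ENNReal.rpow_natCast, ← ENNReal.rpow_mul]
    norm_num

/-- Schur's test -/
theorem schur {N : ℕ} {f h : ℂ → ℂ} (hf : Measurable f) (hh : Measurable h) {S : Set ℂ}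
    (hS : MeasurableSet S) {a b : ℝ≥0∞}
    (ha : ∀ z ∈ S, ‖z‖ < 1 → AA N f z ≤ pw z * a)
    (hb : ∀ v, ‖v‖ < 1 → AA N (fun w => conj (f w)) v ≤ pw v * b) :
    ∫⁻ z in S, ‖∫ v, h v * Nk N f z v ∂μD‖ₑ ^ (2 : ℝ) ∂μD ≤
      a * b * ∫⁻ v, ‖h v‖ₑ ^ (2 : ℝ) ∂μD := by
  have hmN : Measurable (fun p : ℂ × ℂ => ‖Nk N f p.1 p.2‖ₑ) := (measurable_Nk hf).enorm
  have hm1 : Measurable (fun p : ℂ × ℂ => ‖Nk N f p.1 p.2‖ₑ *
      ((pw p.2)⁻¹ * ‖h p.2‖ₑ ^ (2 : ℝ))) :=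
    hmN.mul (((measurable_pw.comp measurable_snd).inv).mul ((hh.comp measurable_snd).enorm.pow_const _))
  have h1 : ∫⁻ z in S, ‖∫ v, h v * Nk N f z v ∂μD‖ₑ ^ (2 : ℝ) ∂μD ≤
      ∫⁻ z, a * ∫⁻ v, pw z * (‖Nk N f z v‖ₑ * ((pw v)⁻¹ * ‖h v‖ₑ ^ (2 : ℝ))) ∂μD ∂μD := by
    refine le_trans ?_ (setLIntegral_le_lintegral S _)
    refine setLIntegral_mono_ae' hS ?_
    filter_upwards [ae_lt] with z hz hzS
    refine (schur_pt hf hh z).trans ?_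
    rw [lintegral_const_mul' _ _ (pw_ne_top hz)]
    calc AA N f z * _ ≤ (pw z * a) * _ := mul_le_mul' (ha z hzS hz) le_rfl
      _ = _ := by ring
  refine h1.trans ?_
  have hm2 : Measurable (fun p : ℂ × ℂ => pw p.1 * (‖Nk N f p.1 p.2‖ₑ *
      ((pw p.2)⁻¹ * ‖h p.2‖ₑ ^ (2 : ℝ)))) := (measurable_pw.comp measurable_fst).mul hm1
  rw [lintegral_const_mul _ hm2.lintegral_prod_right', lintegral_lintegral_swap hm2.aemeasurable,
    mul_assoc]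
  refine mul_le_mul' le_rfl ?_
  have h2 : ∀ᵐ v ∂μD, ∫⁻ z, pw z * (‖Nk N f z v‖ₑ * ((pw v)⁻¹ * ‖h v‖ₑ ^ (2 : ℝ))) ∂μD ≤
      b * ‖h v‖ₑ ^ (2 : ℝ) := by
    filter_upwards [ae_lt] with v hv
    have e : ∀ z, pw z * (‖Nk N f z v‖ₑ * ((pw v)⁻¹ * ‖h v‖ₑ ^ (2 : ℝ))) =
        ((pw v)⁻¹ * ‖h v‖ₑ ^ (2 : ℝ)) * (‖Nk N (fun w => conj (f w)) v z‖ₑ * pw z) := by
      intro z
      rw [← enorm_Nk_symm]; ring
    simp only [e]
    have hm3 : Measurable (fun z => ‖Nk N (fun w => conj (f w)) v z‖ₑ * pw z) := by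
      refine (Measurable.enorm ?_).mul measurable_pw
      exact measurable_Nk_right (Complex.continuous_conj.measurable.comp hf) v
    rw [lintegral_const_mul _ hm3]
    calc _ ≤ ((pw v)⁻¹ * ‖h v‖ₑ ^ (2 : ℝ)) * (pw v * b) := mul_le_mul' le_rfl (hb v hv)
      _ = ((pw v)⁻¹ * pw v) * (b * ‖h v‖ₑ ^ (2 : ℝ)) := by ring
      _ = _ := by rw [ENNReal.inv_mul_cancel (pw_ne_zero hv) (pw_ne_top hv), one_mul]
  refine (lintegral_mono_ae h2).trans ?_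
  rw [lintegral_const_mul _ (hh.enorm.pow_const _)]

lemma Qk_one (N : ℕ) : Qk N 1 = ((N : ℝ) + 1) ^ 2 := by
  rw [Qk, ← sum_kap]
  exact Finset.sum_congr rfl fun k _ => by simp

lemma Kf_self (N : ℕ) {z : ℂ} (hz : ‖z‖ < 1) :
    Kf N z z = (((((N : ℝ) + 1) ^ 2 / (1 - ‖z‖ ^ 2) ^ 2 : ℝ)) : ℂ) := by
  have hs := one_sub_sq_pos hz
  have hs' : ((1 - ‖z‖ ^ 2 : ℝ) : ℂ) ≠ 0 := by exact_mod_cast hs.ne'
  have e1 : 1 - z * conj z = ((1 - ‖z‖ ^ 2 : ℝ) : ℂ) := (one_sub_norm_sq_eq z).symm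
  have e2 : 1 - conj z * z = ((1 - ‖z‖ ^ 2 : ℝ) : ℂ) := by rw [mul_comm]; exact e1
  have e3 : (1 - ‖z‖ ^ 2) * (1 - ‖z‖ ^ 2) / ‖1 - conj z * z‖ ^ 2 = 1 := by
    rw [e2, Complex.norm_real, Real.norm_of_nonneg hs.le]
    field_simp
  rw [Kf, e3, Qk_one, e1, e2, pow_add]
  push_cast at hs' ⊢
  field_simp

lemma inner_kA_self (N : ℕ) {z : ℂ} (hz : ‖z‖ < 1) :
    ⟪kA N z, kA N z⟫_ℂ = (((((N : ℝ) + 1) ^ 2 / (1 - ‖z‖ ^ 2) ^ 2 : ℝ)) : ℂ) := by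
  rw [← Kf_self N hz]
  exact isKernel_kA N z hz (kA N z) (Kf N z) (isPoly_Kf hz) (kE_coe hz)

lemma norm_kA (N : ℕ) {z : ℂ} (hz : ‖z‖ < 1) : ‖kA N z‖ = ((N : ℝ) + 1) / (1 - ‖z‖ ^ 2) := by
  have h := inner_self_eq_norm_sq_to_K (𝕜 := ℂ) (kA N z)
  rw [inner_kA_self N hz] at h
  have h2 : ((N : ℝ) + 1) ^ 2 / (1 - ‖z‖ ^ 2) ^ 2 = ‖kA N z‖ ^ 2 := by
    apply Complex.ofReal_injective
    rw [h]
    push_cast
    rfl
  have hs := one_sub_sq_pos hz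
  rw [← div_pow] at h2
  exact ((pow_left_inj₀ (by positivity) (norm_nonneg _) two_ne_zero).1 h2).symm

end

end Pool.Agent.R283.PT
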