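import Pool.Agent.R283.PT.Cpt

/-!
# Compactness of the Toeplitz operator
-/

set_option autoImplicit false

open MeasureTheory Complex Set Metric Filter Topology
open scoped ComplexConjugate ENNReal InnerProductSpace

namespace Pool.Agent.R283.PT

noncomputable section

lemma enorm_sq_eq (g : Lp ℂ 2 μD) : ‖g‖ₑ ^ (2 : ℝ) = ∫⁻ x, ‖g x‖ₑ ^ (2 : ℝ) ∂μD := by
  rw [Lp.enorm_def, eLpNorm_eq_lintegral_rpow_enorm_toReal (by norm_num) (by norm_num)]
  rw [← ENNReal.rpow_mul]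
  norm_num

/-- the boundary filter of the disc -/
def bd : Filter ℂ := comap (fun z : ℂ => ‖z‖) (𝓝[<] 1)

instance : bd.IsCountablyGenerated := by unfold bd; infer_instance

lemma bd_lt : ∀ᶠ z in bd, ‖z‖ < 1 := by
  have h : ∀ᶠ x : ℝ in 𝓝[<] 1, x < 1 := eventually_nhdsWithin_of_forall fun x hx => hx
  exact h.comap _

lemma bd_exists {p : ℂ → Prop} (h : ∀ᶠ z in bd, p z) : ∃ r : ℝ, r < 1 ∧ ∀ z : ℂ, r < ‖z‖ → ‖z‖ < 1 → p z := by
  rw [bd, eventually_comap] at h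
  obtain ⟨r, hr, hr2⟩ := (mem_nhdsLT_iff_exists_Ioo_subset).1 h
  exact ⟨r, hr, fun z h1 h2 => hr2 ⟨h1, h2⟩ z rfl⟩

theorem compact_of_II {N : ℕ} (f : Lp ℂ ∞ μD) (h : Tendsto (fun z => II N f z) bd (𝓝 0)) :
    IsCompactOperator (toeplitz N f) := by
  by_contra hcpt
  obtain ⟨η, c, hc, hη, hT, hw⟩ := Pool.Agent.Helper965.CN.exists_weak_null hcpt
  have hfm : Measurable (f : ℂ → ℂ) := (Lp.stronglyMeasurable f).measurable
  have hfM := norm_le_ae f
  have hfM' : ∀ᵐ w ∂μD, ‖conj (f w)‖ ≤ ‖f‖ := by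
    filter_upwards [hfM] with w hw
    rwa [Complex.norm_conj]
  obtain ⟨C, hC, hC2⟩ := AA_le
  obtain ⟨C', hC', hC2'⟩ := II_le N
  set b : ℝ≥0∞ := ((ENNReal.ofReal ‖f‖) ^ (2 : ℝ) * C') ^ (1 / 2 : ℝ) * C with hb
  have hbf : b < ∞ := by
    refine ENNReal.mul_lt_top (ENNReal.rpow_lt_top_of_nonneg (by norm_num) ?_) hC
    exact (ENNReal.mul_lt_top (ENNReal.rpow_lt_top_of_nonneg (by norm_num)
      ENNReal.ofReal_ne_top) hC').ne
  have hbS : ∀ v, ‖v‖ < 1 → AA N (fun w => conj (f w)) v ≤ pw v * b := by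
    intro v hv
    refine (hC2 N _ (Complex.continuous_conj.measurable.comp hfm) v hv).trans ?_
    refine mul_le_mul' le_rfl (mul_le_mul' (ENNReal.rpow_le_rpow ?_ (by norm_num)) le_rfl)
    exact hC2' _ _ hfM' v hv
  set δ : ℝ := c ^ 2 / (4 * (b.toReal + 1)) with hδ
  have hδ0 : 0 < δ := by
    have := ENNReal.toReal_nonneg (a := b)
    positivity
  -- choose r
  have h1 : Tendsto (fun z => (II N f z) ^ (1 / 2 : ℝ) * C) bd (𝓝 0) := by
    have h2 := (ENNReal.continuous_rpow_const (y := 1 / 2)).tendsto 0 |>.comp h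
    rw [ENNReal.zero_rpow_of_pos (by norm_num)] at h2
    have h3 := ENNReal.Tendsto.mul_const h2 (b := C) (Or.inr hC.ne)
    rw [zero_mul] at h3
    exact h3
  have h2 : ∀ᶠ z in bd, (II N f z) ^ (1 / 2 : ℝ) * C < ENNReal.ofReal δ :=
    h1.eventually_lt_const (ENNReal.ofReal_pos.2 hδ0)
  obtain ⟨r, hr, hr2⟩ := bd_exists h2
  set S : Set ℂ := {z | r < ‖z‖} with hS
  have hSm : MeasurableSet S := measurableSet_lt measurable_const measurable_norm
  have haS : ∀ z ∈ S, ‖z‖ < 1 → AA N f z ≤ pw z * ENNReal.ofReal δ := fun z hz hz1 =>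
    (hC2 N f hfm z hz1).trans (mul_le_mul' le_rfl (hr2 z hz hz1).le)
  -- the integral over S
  have hint1 : ∀ n, ∫⁻ z in S, ‖⟪kA N z, toeplitz N f (η n)⟫_ℂ‖ₑ ^ (2 : ℝ) ∂μD ≤
      ENNReal.ofReal (c ^ 2 / 4) := by
    intro n
    have hh : Measurable (((η n : Lp ℂ 2 μD)) : ℂ → ℂ) := (Lp.stronglyMeasurable _).measurable
    have h3 := schur hfm hh hSm haS hbS
    have h4 : ∫⁻ z in S, ‖⟪kA N z, toeplitz N f (η n)⟫_ℂ‖ₑ ^ (2 : ℝ) ∂μD =
        ∫⁻ z in S, ‖∫ v, ((η n : Lp ℂ 2 μD)) v * Nk N f z v ∂μD‖ₑ ^ (2 : ℝ) ∂μD := by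
      refine lintegral_congr_ae (ae_restrict_of_ae ?_)
      filter_upwards [ae_lt] with z hz
      rw [toeplitz_kernel f hz]
    rw [h4]
    refine h3.trans ?_
    rw [← enorm_sq_eq]
    have h5 : ‖(η n : Lp ℂ 2 μD)‖ₑ ^ (2 : ℝ) ≤ 1 := by
      have h6 : ‖(η n : Lp ℂ 2 μD)‖ₑ ≤ 1 := by
        rw [← ofReal_norm, ENNReal.ofReal_le_one]
        exact hη n
      calc _ ≤ (1 : ℝ≥0∞) ^ (2 : ℝ) := ENNReal.rpow_le_rpow h6 (by norm_num)
        _ = 1 := ENNReal.one_rpow _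
    calc ENNReal.ofReal δ * b * _ ≤ ENNReal.ofReal δ * b * 1 := mul_le_mul' le_rfl h5
      _ = ENNReal.ofReal (δ * b.toReal) := by
        rw [mul_one, ENNReal.ofReal_mul hδ0.le, ENNReal.ofReal_toReal hbf.ne]
      _ ≤ _ := by
        refine ENNReal.ofReal_le_ofReal ?_
        rw [hδ]
        have h7 := ENNReal.toReal_nonneg (a := b)
        rw [div_mul_eq_mul_div, div_le_div_iff₀ (by positivity) (by norm_num)]
        nlinarith [sq_nonneg c, mul_nonneg (sq_nonneg c) h7]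
  -- the integral over the complement
  have hint2 : Tendsto (fun n => ∫⁻ z in Sᶜ, ‖⟪kA N z, toeplitz N f (η n)⟫_ℂ‖ₑ ^ (2 : ℝ) ∂μD)
      atTop (𝓝 0) := by
    have h0 : ∫⁻ _z in Sᶜ, (0 : ℝ≥0∞) ∂μD = 0 := by simp
    rw [← h0]
    have hr1 : ∀ z : ℂ, z ∈ Sᶜ → ‖z‖ < 1 → ‖kA N z‖ ≤ ((N : ℝ) + 1) / (1 - (max r 0) ^ 2) := by
      intro z hz hz1
      rw [norm_kA N hz1]
      have hz' : ¬ (r < ‖z‖) := hz
      have h3 : ‖z‖ ≤ max r 0 := (not_lt.1 hz').trans (le_max_left _ _)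
      have h4 : max r 0 < 1 := max_lt hr one_pos
      have h5 : 0 ≤ max r 0 := le_max_right _ _
      have h6 : 0 < 1 - (max r 0) ^ 2 := by nlinarith
      gcongr
    refine tendsto_lintegral_of_dominated_convergence'
      (fun _ => (ENNReal.ofReal (((N : ℝ) + 1) / (1 - (max r 0) ^ 2) * ‖toeplitz N f‖)) ^ (2 : ℝ))
      ?_ ?_ ?_ ?_
    · intro n
      refine AEMeasurable.restrict ?_
      have h3 : (fun z => ‖⟪kA N z, toeplitz N f (η n)⟫_ℂ‖ₑ ^ (2 : ℝ)) =ᵐ[μD]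
          fun z => ‖((toeplitz N f (η n) : A2 (N + 1)) : Lp ℂ 2 μD) z‖ₑ ^ (2 : ℝ) := by
        filter_upwards [coe_ae_eq (toeplitz N f (η n))] with z hz
        rw [hz]
      exact ((Lp.stronglyMeasurable _).measurable.enorm.pow_const _).aemeasurable.congr h3.symm
    · intro n
      filter_upwards [ae_restrict_mem hSm.compl, ae_restrict_of_ae (s := Sᶜ) ae_lt] with z hz hz1
      refine ENNReal.rpow_le_rpow ?_ (by norm_num)
      rw [← ofReal_norm]
      refine ENNReal.ofReal_le_ofReal ?_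
      have hcs := norm_inner_le_norm (𝕜 := ℂ) (kA N z) (toeplitz N f (η n))
      calc ‖⟪kA N z, toeplitz N f (η n)⟫_ℂ‖ ≤ ‖kA N z‖ * ‖toeplitz N f (η n)‖ := hcs
        _ ≤ ‖kA N z‖ * (‖toeplitz N f‖ * 1) := by
            gcongr
            exact (ContinuousLinearMap.le_opNorm _ _).trans (by gcongr; exact hη n)
        _ ≤ _ := by
            rw [mul_one]
            have h0 : 0 ≤ ‖toeplitz N f‖ := ContinuousLinearMap.opNorm_nonneg _
            exact mul_le_mul_of_nonneg_right (hr1 z hz hz1) h0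
    · rw [lintegral_const]
      refine (ENNReal.mul_lt_top (ENNReal.rpow_lt_top_of_nonneg (by norm_num)
        ENNReal.ofReal_ne_top) ?_).ne
      exact measure_lt_top _ _
    · refine Eventually.of_forall fun z => ?_
      have h3 : Tendsto (fun n => ⟪kA N z, toeplitz N f (η n)⟫_ℂ) atTop (𝓝 0) := by
        have h4 := hw ((ContinuousLinearMap.adjoint (toeplitz N f)) (kA N z))
        refine h4.congr fun n => ?_
        rw [ContinuousLinearMap.adjoint_inner_left]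
      have h5 := h3.enorm
      rw [enorm_zero] at h5
      have h6 := (ENNReal.continuous_rpow_const (y := 2)).tendsto 0 |>.comp h5
      rw [ENNReal.zero_rpow_of_pos (by norm_num)] at h6
      exact h6
  have h8 : ∀ᶠ n in atTop, ∫⁻ z in Sᶜ, ‖⟪kA N z, toeplitz N f (η n)⟫_ℂ‖ₑ ^ (2 : ℝ) ∂μD <
      ENNReal.ofReal (c ^ 2 / 4) :=
    hint2.eventually_lt_const (ENNReal.ofReal_pos.2 (by positivity))
  obtain ⟨n, hn⟩ := h8.exists
  have h9 : ‖toeplitz N f (η n)‖ₑ ^ (2 : ℝ) =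
      ∫⁻ z, ‖⟪kA N z, toeplitz N f (η n)⟫_ℂ‖ₑ ^ (2 : ℝ) ∂μD := by
    have h10 := enorm_sq_eq ((toeplitz N f (η n) : A2 (N + 1)) : Lp ℂ 2 μD)
    have h11 : ‖toeplitz N f (η n)‖ₑ = ‖((toeplitz N f (η n) : A2 (N + 1)) : Lp ℂ 2 μD)‖ₑ := rfl
    rw [h11, h10]
    refine lintegral_congr_ae ?_
    filter_upwards [coe_ae_eq (toeplitz N f (η n))] with z hz
    rw [hz]
  rw [← lintegral_add_compl _ hSm] at h9
  have h12 : ‖toeplitz N f (η n)‖ₑ ^ (2 : ℝ) ≤ ENNReal.ofReal (c ^ 2 / 2) := by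
    rw [h9]
    refine (add_le_add (hint1 n) hn.le).trans (le_of_eq ?_)
    rw [← ENNReal.ofReal_add (by positivity) (by positivity)]
    congr 1; ring
  have h13 : ENNReal.ofReal (c ^ 2) ≤ ‖toeplitz N f (η n)‖ₑ ^ (2 : ℝ) := by
    rw [← ofReal_norm, ENNReal.ofReal_rpow_of_nonneg (norm_nonneg _) (by norm_num)]
    refine ENNReal.ofReal_le_ofReal ?_
    rw [show (2 : ℝ) = ((2 : ℕ) : ℝ) by norm_num, Real.rpow_natCast]
    have := hT n
    gcongr
  have h14 := h13.trans h12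
  rw [ENNReal.ofReal_le_ofReal_iff (by positivity)] at h14
  have : 0 < c ^ 2 := by positivity
  linarith

end

end Pool.Agent.R283.PT
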