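import Mathlib

/-!
# Polyanalytic Bergman spaces: definitions of the statements used for MP_f074b0_an
-/

set_option autoImplicit false

open MeasureTheory
open scoped ComplexConjugate

namespace Pool.Agent.R283.PT

noncomputable section

/-- Coefficients of the kernel at the origin: the reproducing kernel of the polyanalytic Bergman
space of order `N + 1` at `0` is `w ↦ ∑_{k ≤ N} kap N k * (1 - |w|²)^k`. -/
def kap (N k : ℕ) : ℝ :=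
  (-1) ^ (N + k) * ((N + 1 + k).factorial : ℝ) /
    (((N - k).factorial : ℝ) * (k.factorial : ℝ) ^ 2)

/-- `e_m(x) = ∏_{i < m} (1 + x / ((i+1)(i+2)))`. -/
def ep (m : ℕ) (x : ℂ) : ℂ := ∏ i ∈ Finset.range m, (1 + x / (((i : ℂ) + 1) * ((i : ℂ) + 2)))

/-- The polynomial `R_N`. -/
def Rp (N : ℕ) (x : ℂ) : ℂ :=
  ∑ k ∈ Finset.range (N + 1), ∑ l ∈ Finset.range (N + 1),
    ((kap N k * kap N l / ((k : ℝ) + l + 1) : ℝ) : ℂ) * ep (k + l) x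

/-- Part Z: `R_N(s(1-s))` has no zero in the closed strip `0 ≤ Re s ≤ 1`. -/
def StmtZ : Prop :=
  ∀ (N : ℕ) (s : ℂ), 0 ≤ s.re → s.re ≤ 1 → Rp N (s * (1 - s)) ≠ 0

/-- Normalised area measure on the open unit disc. -/
def μD : Measure ℂ := ENNReal.ofReal (1 / Real.pi) • (volume.restrict (Metric.ball (0 : ℂ) 1))

/-- The kernel of the weighted Berezin transform:
`(j+1) (1-|z|²)^(j+2) (1-|w|²)^j / |1 - conj z w|^(2j+4)`. -/
def kk (j : ℕ) (z w : ℂ) : ℝ :=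
  ((j : ℝ) + 1) * (1 - ‖z‖ ^ 2) ^ (j + 2) * (1 - ‖w‖ ^ 2) ^ j / ‖1 - conj z * w‖ ^ (2 * j + 4)

/-- The weighted Berezin transform `u_j[g](z) = ∫ g(w) kk_j(z,w) dμ(w)`. -/
def uu (j : ℕ) (g : ℂ → ℂ) (z : ℂ) : ℂ := ∫ w, g w * (kk j z w : ℂ) ∂μD

/-- Part W: the Tauberian theorem. -/
def StmtW : Prop :=
  ∀ (d : ℕ) (β : ℕ → ℂ),
    (∀ s : ℂ, 0 ≤ s.re → s.re ≤ 1 → ∑ j ∈ Finset.range (d + 1), β j * ep j (s * (1 - s)) ≠ 0) →
    ∀ (g : ℂ → ℂ) (M : ℝ), AEStronglyMeasurable g μD → (∀ᵐ z ∂μD, ‖g z‖ ≤ M) →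
      (∀ z : ℂ, ‖z‖ < 1 → ∑ j ∈ Finset.range (d + 1), β j * uu j g z = 0) →
      g =ᵐ[μD] 0

end

end Pool.Agent.R283.PT
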