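import Pool.Agent.R283.PT.Mob

/-!
# Functions of the form `∑_{k<n} conj z ^ k h_k(z)` on the disc
-/

set_option autoImplicit false

open MeasureTheory Complex Set Metric
open scoped ComplexConjugate ENNReal

namespace Pool.Agent.R283.PT

noncomputable section

/-- `g(z) = ∑_{k < n} conj z ^ k * h k z` on the unit disc with `h k` holomorphic: `g` is
polyanalytic of order `n` on the unit disc. -/
def IsPoly (n : ℕ) (g : ℂ → ℂ) : Prop :=
  ∃ h : ℕ → ℂ → ℂ, (∀ k, DifferentiableOn ℂ (h k) (ball 0 1)) ∧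
    ∀ z ∈ ball (0 : ℂ) 1, g z = ∑ k ∈ Finset.range n, conj z ^ k * h k z

lemma IsPoly.add {n : ℕ} {f g : ℂ → ℂ} (hf : IsPoly n f) (hg : IsPoly n g) :
    IsPoly n (fun z => f z + g z) := by
  obtain ⟨a, ha, ha2⟩ := hf
  obtain ⟨b, hb, hb2⟩ := hg
  refine ⟨fun k z => a k z + b k z, fun k => (ha k).add (hb k), fun z hz => ?_⟩
  beta_reduce
  rw [ha2 z hz, hb2 z hz, ← Finset.sum_add_distrib]
  exact Finset.sum_congr rfl fun k _ => by ring

lemma IsPoly.hol_mul {n : ℕ} {f u : ℂ → ℂ} (hf : IsPoly n f)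
    (hu : DifferentiableOn ℂ u (ball 0 1)) : IsPoly n (fun z => u z * f z) := by
  obtain ⟨a, ha, ha2⟩ := hf
  refine ⟨fun k z => u z * a k z, fun k => hu.mul (ha k), fun z hz => ?_⟩
  simp only
  rw [ha2 z hz, Finset.mul_sum]
  exact Finset.sum_congr rfl fun k _ => by ring

lemma IsPoly.const_mul {n : ℕ} {f : ℂ → ℂ} (hf : IsPoly n f) (c : ℂ) :
    IsPoly n (fun z => c * f z) := hf.hol_mul (differentiableOn_const c)

lemma IsPoly.zero (n : ℕ) : IsPoly n (fun _ => 0) :=
  ⟨fun _ _ => 0, fun _ => differentiableOn_const 0, fun z _ => by simp⟩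

lemma IsPoly.sum {n : ℕ} {ι : Type*} (s : Finset ι) {f : ι → ℂ → ℂ}
    (hf : ∀ i ∈ s, IsPoly n (f i)) : IsPoly n (fun z => ∑ i ∈ s, f i z) := by
  classical
  induction s using Finset.induction_on with
  | empty => simpa using IsPoly.zero n
  | insert a s ha ih =>
    simp only [Finset.sum_insert ha]
    exact (hf a (Finset.mem_insert_self a s)).add
      (ih fun i hi => hf i (Finset.mem_insert_of_mem hi))

lemma IsPoly.congr {n : ℕ} {f g : ℂ → ℂ} (hf : IsPoly n f)
    (h : ∀ z ∈ ball (0 : ℂ) 1, g z = f z) : IsPoly n g := by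
  obtain ⟨a, ha, ha2⟩ := hf
  exact ⟨a, ha, fun z hz => by rw [h z hz, ha2 z hz]⟩

lemma IsPoly.mono {n m : ℕ} (hnm : n ≤ m) {f : ℂ → ℂ} (hf : IsPoly n f) : IsPoly m f := by
  obtain ⟨a, ha, ha2⟩ := hf
  refine ⟨fun k => if k < n then a k else fun _ => 0, fun k => ?_, fun z hz => ?_⟩
  · by_cases hk : k < n
    · simp only [hk, if_true]; exact ha k
    · simp only [hk, if_false]; exact differentiableOn_const 0
  · rw [ha2 z hz, ← Finset.sum_subset (Finset.range_mono hnm)]
    · exact Finset.sum_congr rfl fun k hk => by simp only [if_pos (Finset.mem_range.1 hk)]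
    · intro k _ hk
      simp only [if_neg (fun h => hk (Finset.mem_range.2 h)), mul_zero]

lemma IsPoly.conj_mul {n : ℕ} {f : ℂ → ℂ} (hf : IsPoly n f) :
    IsPoly (n + 1) (fun z => conj z * f z) := by
  obtain ⟨a, ha, ha2⟩ := hf
  refine ⟨fun k => match k with
    | 0 => fun _ => 0
    | k + 1 => a k, fun k => ?_, fun z hz => ?_⟩
  · cases k with
    | zero => exact differentiableOn_const 0
    | succ k => exact ha k
  · simp only
    rw [Finset.sum_range_succ', ha2 z hz, Finset.mul_sum, mul_zero, add_zero]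
    exact Finset.sum_congr rfl fun k _ => by ring

lemma IsPoly.affine_mul {n : ℕ} {f : ℂ → ℂ} (hf : IsPoly n f) (α β : ℂ) :
    IsPoly (n + 1) (fun z => (α + β * conj z) * f z) := by
  have h1 := (hf.mono (Nat.le_succ n)).const_mul α
  have h2 := hf.conj_mul.const_mul β
  exact (h1.add h2).congr fun z _ => by ring

lemma IsPoly.affine_pow_mul {n : ℕ} {f : ℂ → ℂ} (hf : IsPoly n f) (α β : ℂ) (k : ℕ) :
    IsPoly (n + k) (fun z => (α + β * conj z) ^ k * f z) := by
  induction k with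
  | zero => simpa using hf
  | succ k ih =>
    have := ih.affine_mul α β
    exact this.congr fun z _ => by ring

lemma IsPoly.hol {u : ℂ → ℂ} (hu : DifferentiableOn ℂ u (ball 0 1)) : IsPoly 1 u :=
  ⟨fun _ => u, fun _ => hu, fun z _ => by simp⟩

lemma IsPoly.continuousOn {n : ℕ} {f : ℂ → ℂ} (hf : IsPoly n f) : ContinuousOn f (ball 0 1) := by
  obtain ⟨a, ha, ha2⟩ := hf
  refine ContinuousOn.congr ?_ ha2
  refine continuousOn_finsetSum _ fun k _ => ?_
  exact (Complex.continuous_conj.pow k).continuousOn.mul (ha k).continuousOn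

end

end Pool.Agent.R283.PT
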