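import Pool.Agent.R283.PT.Mob

/-!
# A Forelli-Rudin type estimate
-/

set_option autoImplicit false

open MeasureTheory Complex Set Metric Filter Topology
open scoped ComplexConjugate ENNReal

namespace Pool.Agent.R283.PT

noncomputable section

open Pool.Agent.H366R3.ED

lemma rpow_neg_anti {x y : ℝ≥0∞} (h : x ≤ y) {γ : ℝ} (hγ : 0 ≤ γ) : y ^ (-γ) ≤ x ^ (-γ) := by
  rw [ENNReal.rpow_neg, ENNReal.rpow_neg]
  exact ENNReal.inv_le_inv.2 (ENNReal.rpow_le_rpow h hγ)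

lemma norm_ge_sin (s α : ℝ) : |Real.sin α| ≤ ‖1 - (s : ℂ) * Complex.exp (α * I)‖ := by
  have h : ‖1 - (s : ℂ) * Complex.exp (α * I)‖ ^ 2 = (s - Real.cos α) ^ 2 + Real.sin α ^ 2 := by
    rw [Complex.sq_norm, Complex.normSq_apply, Complex.exp_mul_I]
    simp [Complex.cos_ofReal_re, Complex.sin_ofReal_re]
    linear_combination (s ^ 2 - 1) * (Real.sin_sq_add_cos_sq α)
  exact abs_le_of_sq_le_sq (by rw [h]; nlinarith [sq_nonneg (s - Real.cos α)]) (norm_nonneg _)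

/-- integral of `|u|^(-γ)` over a bounded interval -/
lemma lint_abs_rpow {γ R : ℝ} (_hγ0 : 0 < γ) (hγ : γ < 1) (hR : 0 < R) :
    ∫⁻ u in Ioo (-R) R, (ENNReal.ofReal |u|) ^ (-γ) < ∞ := by
  have hpos : ∫⁻ u in Ioo 0 R, (ENNReal.ofReal |u|) ^ (-γ) < ∞ := by
    have h1 : IntegrableOn (fun x : ℝ => x ^ (-γ)) (Ioo 0 R) :=
      (intervalIntegral.integrableOn_Ioo_rpow_iff hR).2 (by linarith)
    have h2 := h1.2
    rw [hasFiniteIntegral_iff_norm] at h2
    refine lt_of_le_of_lt (setLIntegral_mono' measurableSet_Ioo fun u hu => ?_) h2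
    rw [abs_of_pos hu.1, ENNReal.ofReal_rpow_of_pos hu.1]
    exact ENNReal.ofReal_le_ofReal (le_abs_self _)
  have hneg : ∫⁻ u in Ioo (-R) 0, (ENNReal.ofReal |u|) ^ (-γ) < ∞ := by
    have h3 := (Measure.measurePreserving_neg (volume : Measure ℝ)).setLIntegral_comp_preimage_emb
      (MeasurableEquiv.neg ℝ).measurableEmbedding (fun u => (ENNReal.ofReal |u|) ^ (-γ)) (Ioo 0 R)
    have h4 : (Neg.neg ⁻¹' Ioo (0 : ℝ) R) = Ioo (-R) 0 := by
      ext x; simp only [mem_preimage, mem_Ioo]; constructor <;> rintro ⟨a, b⟩ <;> constructor <;> linarith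
    rw [h4] at h3
    simp only [abs_neg] at h3
    rw [h3]
    exact hpos
  have hsub : Ioo (-R) R ⊆ (Ioo (-R) 0 ∪ Ioo 0 R) ∪ {0} := by
    intro x hx
    rcases lt_trichotomy x 0 with h | h | h
    · exact Or.inl (Or.inl ⟨hx.1, h⟩)
    · exact Or.inr h
    · exact Or.inl (Or.inr ⟨h, hx.2⟩)
  refine lt_of_le_of_lt (lintegral_mono_set hsub) ?_
  refine lt_of_le_of_lt (lintegral_union_le _ _ _) ?_
  rw [setLIntegral_measure_zero {0} _ (by simp), add_zero]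
  exact lt_of_le_of_lt (lintegral_union_le _ _ _) (ENNReal.add_lt_top.2 ⟨hneg, hpos⟩)

lemma sin_lower {α : ℝ} (h1 : -(2 * Real.pi) < α) (h2 : α < 2 * Real.pi) :
    ∃ k ∈ ({-2, -1, 0, 1, 2} : Finset ℤ), 2 / Real.pi * |α - k * Real.pi| ≤ |Real.sin α| := by
  have hpi := Real.pi_pos
  have key : ∀ k : ℤ, |α - k * Real.pi| ≤ Real.pi / 2 →
      2 / Real.pi * |α - k * Real.pi| ≤ |Real.sin α| := by
    intro k hk
    have h3 := Real.mul_le_sin (abs_nonneg (α - k * Real.pi)) hk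
    have h4 : |Real.sin α| = Real.sin |α - k * Real.pi| := by
      have h5 : Real.sin (α - k * Real.pi) = (-1) ^ k * Real.sin α := by
        rw [Real.sin_sub_int_mul_pi]
      have h6 : |Real.sin (α - k * Real.pi)| = |Real.sin α| := by
        rw [h5, abs_mul, abs_zpow, abs_neg, abs_one, one_zpow, one_mul]
      rw [← h6]
      rcases le_total 0 (α - k * Real.pi) with h | h
      · rw [abs_of_nonneg h, abs_of_nonneg (Real.sin_nonneg_of_nonneg_of_le_pi h (by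
          rw [abs_of_nonneg h] at hk; linarith))]
      · rw [abs_of_nonpos h, Real.sin_neg, abs_of_nonpos]
        exact Real.sin_nonpos_of_nonpos_of_neg_pi_le h (by rw [abs_of_nonpos h] at hk; linarith)
    rw [h4]; exact h3
  rcases le_or_gt α (-(3 / 2) * Real.pi) with ha | ha
  · exact ⟨-2, by simp, key _ (by rw [abs_le]; push_cast; constructor <;> linarith)⟩
  rcases le_or_gt α (-(1 / 2) * Real.pi) with hb | hb
  · exact ⟨-1, by simp, key _ (by rw [abs_le]; push_cast; constructor <;> linarith)⟩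
  rcases le_or_gt α ((1 / 2) * Real.pi) with hc | hc
  · exact ⟨0, by simp, key _ (by rw [abs_le]; push_cast; constructor <;> linarith)⟩
  rcases le_or_gt α ((3 / 2) * Real.pi) with hd | hd
  · exact ⟨1, by simp, key _ (by rw [abs_le]; push_cast; constructor <;> linarith)⟩
  · exact ⟨2, by simp, key _ (by rw [abs_le]; push_cast; constructor <;> linarith)⟩

/-- uniform bound for the angular integrals -/
lemma lint_sin {γ : ℝ} (hγ0 : 0 < γ) (hγ : γ < 1) : ∃ C : ℝ≥0∞, C < ∞ ∧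
    ∀ ψ ∈ Ioc (-Real.pi) Real.pi,
      ∫⁻ θ in Ioo (-Real.pi) Real.pi, (ENNReal.ofReal |Real.sin (θ - ψ)|) ^ (-γ) ≤ C := by
  have hpi := Real.pi_pos
  have hfin := lint_abs_rpow (R := 4 * Real.pi) hγ0 hγ (by positivity)
  set B := ∫⁻ u in Ioo (-(4 * Real.pi)) (4 * Real.pi), (ENNReal.ofReal |u|) ^ (-γ) with hB
  set c : ℝ≥0∞ := (ENNReal.ofReal (2 / Real.pi)) ^ (-γ) with hc
  have hcfin : c < ∞ := by
    rw [hc, ENNReal.ofReal_rpow_of_pos (by positivity)]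
    exact ENNReal.ofReal_lt_top
  refine ⟨∑ _k ∈ ({-2, -1, 0, 1, 2} : Finset ℤ), c * B, ?_, ?_⟩
  · exact ENNReal.sum_lt_top.2 fun _ _ => ENNReal.mul_lt_top hcfin hfin
  intro ψ hψ
  have h1 : ∀ θ ∈ Ioo (-Real.pi) Real.pi, (ENNReal.ofReal |Real.sin (θ - ψ)|) ^ (-γ) ≤
      ∑ k ∈ ({-2, -1, 0, 1, 2} : Finset ℤ), c * (ENNReal.ofReal |θ - (ψ + k * Real.pi)|) ^ (-γ) := by
    intro θ hθ
    obtain ⟨k, hk, hk2⟩ := sin_lower (α := θ - ψ) (by linarith [hθ.1, hψ.2]) (by linarith [hθ.2, hψ.1])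
    refine le_trans ?_ (Finset.single_le_sum (f := fun k : ℤ =>
      c * (ENNReal.ofReal |θ - (ψ + k * Real.pi)|) ^ (-γ)) (fun _ _ => zero_le) hk)
    refine (rpow_neg_anti (ENNReal.ofReal_le_ofReal hk2) hγ0.le).trans ?_
    rw [ENNReal.ofReal_mul (by positivity), ENNReal.mul_rpow_of_ne_top ENNReal.ofReal_ne_top
      ENNReal.ofReal_ne_top, hc, show θ - ψ - k * Real.pi = θ - (ψ + k * Real.pi) by ring]
  refine (setLIntegral_mono' measurableSet_Ioo h1).trans ?_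
  rw [lintegral_finsetSum _ (fun k _ => by fun_prop)]
  refine Finset.sum_le_sum fun k hk => ?_
  rw [lintegral_const_mul _ (by fun_prop)]
  refine mul_le_mul_right ?_ _
  have hkb : |(k : ℝ)| ≤ 2 := by
    fin_cases hk <;> norm_num
  have h2 := (measurePreserving_sub_right (volume : Measure ℝ) (ψ + k * Real.pi)).setLIntegral_comp_preimage_emb
    (MeasurableEquiv.subRight (ψ + k * Real.pi)).measurableEmbedding
    (fun u => (ENNReal.ofReal |u|) ^ (-γ)) (Ioo (-(4 * Real.pi)) (4 * Real.pi))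
  rw [hB, ← h2]
  refine lintegral_mono_set fun θ hθ => ?_
  have h3 : |(k : ℝ) * Real.pi| ≤ 2 * Real.pi := by
    rw [abs_mul, abs_of_pos hpi]; nlinarith
  have h4 := abs_le.1 h3
  exact ⟨by linarith [hθ.1, hψ.2, h4.2], by linarith [hθ.2, hψ.1, h4.1]⟩

/-- Forelli-Rudin type estimate -/
theorem lint_G {γ : ℝ} (hγ0 : 0 < γ) (hγ : γ < 1) : ∃ C : ℝ≥0∞, C < ∞ ∧ ∀ z : ℂ,
    ∫⁻ w, (ENNReal.ofReal (1 - ‖w‖ ^ 2)) ^ (-γ) * (ENNReal.ofReal ‖1 - conj z * w‖) ^ (-γ) ∂μD ≤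
      C := by
  obtain ⟨C, hC, hC2⟩ := lint_sin hγ0 hγ
  have hD := lint_abs_rpow (R := 1) hγ0 hγ one_pos
  set D := ∫⁻ u in Ioo (-1 : ℝ) 1, (ENNReal.ofReal |u|) ^ (-γ) with hD2
  refine ⟨ENNReal.ofReal (1 / Real.pi) * (D * C), ENNReal.mul_lt_top ENNReal.ofReal_lt_top
    (ENNReal.mul_lt_top hD hC), fun z => ?_⟩
  rw [μD, lintegral_smul_measure, smul_eq_mul]
  refine mul_le_mul_right ?_ _
  have hae : (ball (0 : ℂ) 1 : Set ℂ) =ᵐ[volume] ann 0 1 := by
    have h1 : ∀ᵐ z : ℂ, z ≠ 0 := by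
      rw [ae_iff]; simp
    filter_upwards [h1] with z hz
    apply propext
    show z ∈ ball (0 : ℂ) 1 ↔ z ∈ ann 0 1
    rw [mem_ball_zero_iff]
    exact ⟨fun h => ⟨norm_pos_iff.2 hz, h⟩, fun h => h.2⟩
  rw [setLIntegral_congr hae, polar_lint le_rfl]
  have h1 : ∀ p ∈ Ioo (0 : ℝ) 1 ×ˢ Ioo (-Real.pi) Real.pi,
      ENNReal.ofReal p.1 * ((ENNReal.ofReal (1 - ‖circleMap 0 p.1 p.2‖ ^ 2)) ^ (-γ) *
        (ENNReal.ofReal ‖1 - conj z * circleMap 0 p.1 p.2‖) ^ (-γ)) ≤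
      (ENNReal.ofReal |1 - p.1|) ^ (-γ) *
        (ENNReal.ofReal |Real.sin (p.2 - z.arg)|) ^ (-γ) := by
    rintro ⟨r, θ⟩ ⟨hr, hθ⟩
    simp only at hr hθ ⊢
    have hn : ‖circleMap 0 r θ‖ = r := by
      rw [norm_circleMap_zero, abs_of_pos hr.1]
    rw [hn]
    have e1 : ENNReal.ofReal r ≤ 1 := by
      rw [ENNReal.ofReal_le_one]; exact hr.2.le
    have e2 : (ENNReal.ofReal (1 - r ^ 2)) ^ (-γ) ≤ (ENNReal.ofReal |1 - r|) ^ (-γ) := by
      refine rpow_neg_anti (ENNReal.ofReal_le_ofReal ?_) hγ0.le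
      rw [abs_of_pos (by linarith [hr.2])]
      nlinarith [hr.1, hr.2]
    have e3 : (ENNReal.ofReal ‖1 - conj z * circleMap 0 r θ‖) ^ (-γ) ≤
        (ENNReal.ofReal |Real.sin (θ - z.arg)|) ^ (-γ) := by
      refine rpow_neg_anti (ENNReal.ofReal_le_ofReal ?_) hγ0.le
      have e4 : conj z * circleMap 0 r θ = ((‖z‖ * r : ℝ) : ℂ) *
          Complex.exp (((θ - z.arg : ℝ) : ℂ) * I) := by
        conv_lhs => rw [← Complex.norm_mul_exp_arg_mul_I z]
        simp only [circleMap, map_mul, Complex.conj_ofReal, ← Complex.exp_conj, Complex.conj_I,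
          zero_add]
        push_cast
        rw [show ((θ : ℂ) - z.arg) * I = (z.arg : ℂ) * (-I) + θ * I by ring, Complex.exp_add]
        ring
      rw [e4]
      exact norm_ge_sin _ _
    calc _ ≤ 1 * ((ENNReal.ofReal |1 - r|) ^ (-γ) *
        (ENNReal.ofReal |Real.sin (θ - z.arg)|) ^ (-γ)) :=
          mul_le_mul' e1 (mul_le_mul' e2 e3)
      _ = _ := one_mul _
  refine (setLIntegral_mono' (measurableSet_Ioo.prod measurableSet_Ioo) h1).trans ?_
  rw [← Measure.prod_restrict, lintegral_prod_mul (f := fun r => (ENNReal.ofReal |1 - r|) ^ (-γ))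
    (g := fun θ => (ENNReal.ofReal |Real.sin (θ - z.arg)|) ^ (-γ)) (by fun_prop) (by fun_prop)]
  refine mul_le_mul' ?_ (hC2 z.arg (Complex.arg_mem_Ioc z))
  have h2 := (Measure.measurePreserving_sub_left (volume : Measure ℝ) 1).setLIntegral_comp_preimage_emb
    (MeasurableEquiv.subLeft (1 : ℝ)).measurableEmbedding
    (fun u => (ENNReal.ofReal |u|) ^ (-γ)) (Ioo (-1) 1)
  rw [hD2, ← h2]
  refine lintegral_mono_set fun r hr => ?_
  exact ⟨by linarith [hr.2], by linarith [hr.1]⟩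

end

end Pool.Agent.R283.PT
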