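import Pool.Agent.R283.PT.Form
import Pool.Agent.H713R2.Area

/-!
# The reproducing kernel of the polyanalytic Bergman space
-/

set_option autoImplicit false

open MeasureTheory Complex Set Metric
open scoped ComplexConjugate ENNReal

namespace Pool.Agent.R283.PT

noncomputable section

/-- `Q_N(u) = ∑_{k ≤ N} kap N k u^k` -/
def Qk (N : ℕ) (u : ℝ) : ℝ := ∑ k ∈ Finset.range (N + 1), kap N k * u ^ k

/-- The reproducing kernel of the polyanalytic Bergman space of order `N + 1`: `Kf N z` is the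
kernel function at `z`. -/
def Kf (N : ℕ) (z w : ℂ) : ℂ :=
  ((1 - z * conj w) ^ N / (1 - conj z * w) ^ (N + 2)) *
    (Qk N ((1 - ‖z‖ ^ 2) * (1 - ‖w‖ ^ 2) / ‖1 - conj z * w‖ ^ 2) : ℂ)

lemma one_sub_norm_sq_eq (z : ℂ) : ((1 - ‖z‖ ^ 2 : ℝ) : ℂ) = 1 - z * conj z := by
  push_cast; rw [sq_norm_eq']

lemma normsq_one_sub (z w : ℂ) :
    ((‖1 - conj z * w‖ ^ 2 : ℝ) : ℂ) = (1 - conj z * w) * (1 - z * conj w) := by
  rw [sq_norm_eq]; simp

lemma Kf_eq {N : ℕ} {z w : ℂ} (hz : ‖z‖ < 1) (hw : ‖w‖ ≤ 1) :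
    Kf N z w = ∑ k ∈ Finset.range (N + 1), ((kap N k : ℝ) : ℂ) * (1 - z * conj z) ^ k *
      (1 - w * conj w) ^ k * (1 - z * conj w) ^ (N - k) / (1 - conj z * w) ^ (N + 2 + k) := by
  have h1 := one_sub_ne hz hw
  have h2 := one_sub_ne' hz hw
  rw [Kf, Qk]
  push_cast
  rw [Finset.mul_sum]
  refine Finset.sum_congr rfl fun k hk => ?_
  have hk' : k ≤ N := Nat.lt_succ_iff.1 (Finset.mem_range.1 hk)
  have e1 : ((‖1 - conj z * w‖ : ℝ) : ℂ) ^ 2 = (1 - conj z * w) * (1 - z * conj w) := by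
    rw [← normsq_one_sub]; push_cast; rfl
  rw [sq_norm_eq', sq_norm_eq', e1, div_pow, mul_pow, mul_pow]
  have e2 : (1 - z * conj w) ^ N = (1 - z * conj w) ^ (N - k) * (1 - z * conj w) ^ k := by
    rw [← pow_add, Nat.sub_add_cancel hk']
  rw [e2, pow_add (1 - conj z * w) (N + 2) k]
  have h1' := pow_ne_zero k h1
  have h1'' := pow_ne_zero (N + 2) h1
  have h2' := pow_ne_zero k h2
  generalize conj z = c at *
  generalize conj w = d at *
  rw [div_mul_eq_mul_div, div_eq_div_iff h1'' (mul_ne_zero h1'' h1')]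
  rw [mul_assoc ((1 - z * d) ^ (N - k) * (1 - z * d) ^ k)]
  have : (↑(kap N k) * ((1 - z * c) ^ k * (1 - w * d) ^ k / ((1 - c * w) ^ k * (1 - z * d) ^ k))) *
      ((1 - z * d) ^ k * (1 - c * w) ^ k) = ↑(kap N k) * (1 - z * c) ^ k * (1 - w * d) ^ k := by
    field_simp
  calc _ = (1 - z * d) ^ (N - k) * (1 - c * w) ^ (N + 2) *
      ((↑(kap N k) * ((1 - z * c) ^ k * (1 - w * d) ^ k / ((1 - c * w) ^ k * (1 - z * d) ^ k))) *
      ((1 - z * d) ^ k * (1 - c * w) ^ k)) := by ring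
    _ = _ := by rw [this]; ring

/-- as a function of `w`, `Kf N z w` is polyanalytic of order `N + 1` -/
lemma isPoly_Kf {N : ℕ} {z : ℂ} (hz : ‖z‖ < 1) : IsPoly (N + 1) (Kf N z) := by
  have h : ∀ k ∈ Finset.range (N + 1), IsPoly (N + 1) (fun w => ((kap N k : ℝ) : ℂ) *
      (1 - z * conj z) ^ k *
      (1 - w * conj w) ^ k * (1 - z * conj w) ^ (N - k) / (1 - conj z * w) ^ (N + 2 + k)) := by
    intro k hk
    have hk' : k ≤ N := Nat.lt_succ_iff.1 (Finset.mem_range.1 hk)
    have h0 : DifferentiableOn ℂ (fun w : ℂ => 1 / (1 - conj z * w) ^ (N + 2 + k)) (ball 0 1) := by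
      intro w hw
      refine DifferentiableAt.differentiableWithinAt ?_
      refine (differentiableAt_const _).div (by fun_prop) ?_
      exact pow_ne_zero _ (one_sub_ne hz (mem_ball_zero_iff.1 hw).le)
    have h1 := (IsPoly.hol h0).affine_pow_mul 1 (-z) (N - k)
    -- multiply by (1 - w conj w)^k
    have h2 : ∀ (j n : ℕ) (f : ℂ → ℂ), IsPoly n f →
        IsPoly (n + j) (fun w => (1 - w * conj w) ^ j * f w) := by
      intro j
      induction j with
      | zero => intro n f hf; simpa using hf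
      | succ j ih =>
        intro n f hf
        have h3 := ih n f hf
        have h4 := h3.mono (Nat.le_succ (n + j))
        have h5 := h3.conj_mul.hol_mul (u := fun w => -w) (differentiableOn_id.neg)
        exact (h4.add h5).congr fun w _ => by ring
    have h3 := (h2 k _ _ h1).const_mul (((kap N k : ℝ) : ℂ) * (1 - z * conj z) ^ k)
    have h4 : 1 + (N - k) + k = N + 1 := by omega
    rw [h4] at h3
    exact h3.congr fun w _ => by ring
  exact (IsPoly.sum _ h).congr fun w hw => Kf_eq hz (mem_ball_zero_iff.1 hw).le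

end

end Pool.Agent.R283.PT
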