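import Pool.Agent.R283.PT.Defs
import Pool.Agent.H366R3.ED.Polar

/-!
# Moebius involutions of the disc, change of variables, polar coordinates
-/

set_option autoImplicit false

open MeasureTheory Complex Set Metric
open scoped ComplexConjugate ENNReal

namespace Pool.Agent.R283.PT

noncomputable section

/-- the involution of the disc exchanging `0` and `a` -/
def phi (a z : ℂ) : ℂ := (a - z) / (1 - conj a * z)

/-- the real Jacobian of `phi a` -/
def jac (a z : ℂ) : ℝ := (1 - ‖a‖ ^ 2) ^ 2 / ‖1 - conj a * z‖ ^ 4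

lemma norm_conj_mul_lt {a z : ℂ} (ha : ‖a‖ < 1) (hz : ‖z‖ ≤ 1) : ‖conj a * z‖ < 1 := by
  rw [norm_mul, Complex.norm_conj]; nlinarith [norm_nonneg a, norm_nonneg z]

lemma one_sub_ne {a z : ℂ} (ha : ‖a‖ < 1) (hz : ‖z‖ ≤ 1) : 1 - conj a * z ≠ 0 := by
  intro h
  have h1 := norm_conj_mul_lt ha hz
  rw [← sub_eq_zero.1 h] at h1
  simp at h1

lemma one_sub_ne' {a z : ℂ} (ha : ‖a‖ < 1) (hz : ‖z‖ ≤ 1) : 1 - a * conj z ≠ 0 := by
  have h := one_sub_ne ha hz
  intro h2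
  apply h
  have := congrArg conj h2
  simpa using this

lemma norm_one_sub_pos {a z : ℂ} (ha : ‖a‖ < 1) (hz : ‖z‖ ≤ 1) : 0 < ‖1 - conj a * z‖ :=
  norm_pos_iff.2 (one_sub_ne ha hz)

lemma one_sub_sq_pos {a : ℂ} (ha : ‖a‖ < 1) : 0 < 1 - ‖a‖ ^ 2 := by
  nlinarith [norm_nonneg a]

lemma sq_norm_eq (z : ℂ) : ((‖z‖ ^ 2 : ℝ) : ℂ) = z * conj z := by
  rw [Complex.mul_conj, Complex.normSq_eq_norm_sq]

lemma sq_norm_eq' (z : ℂ) : ((‖z‖ : ℝ) : ℂ) ^ 2 = z * conj z := by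
  rw [← sq_norm_eq]; push_cast; rfl

lemma normSq_aux (a z : ℂ) : ‖1 - conj a * z‖ ^ 2 - ‖a - z‖ ^ 2 = (1 - ‖a‖ ^ 2) * (1 - ‖z‖ ^ 2) := by
  have h : ((‖1 - conj a * z‖ ^ 2 - ‖a - z‖ ^ 2 : ℝ) : ℂ) =
      ((1 - ‖a‖ ^ 2) * (1 - ‖z‖ ^ 2) : ℝ) := by
    push_cast
    simp only [sq_norm_eq', map_sub, map_one, map_mul, Complex.conj_conj]
    ring
  exact_mod_cast h

lemma norm_phi_sq {a z : ℂ} (ha : ‖a‖ < 1) (hz : ‖z‖ ≤ 1) :
    1 - ‖phi a z‖ ^ 2 = (1 - ‖a‖ ^ 2) * (1 - ‖z‖ ^ 2) / ‖1 - conj a * z‖ ^ 2 := by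
  have h := norm_one_sub_pos ha hz
  rw [phi, norm_div, div_pow, ← normSq_aux, eq_div_iff (pow_pos h 2).ne', sub_mul, one_mul,
    div_mul_cancel₀ _ (pow_pos h 2).ne']

lemma norm_phi_lt {a z : ℂ} (ha : ‖a‖ < 1) (hz : ‖z‖ < 1) : ‖phi a z‖ < 1 := by
  have h := norm_phi_sq ha hz.le
  have h2 : 0 < (1 - ‖a‖ ^ 2) * (1 - ‖z‖ ^ 2) / ‖1 - conj a * z‖ ^ 2 :=
    div_pos (mul_pos (one_sub_sq_pos ha) (one_sub_sq_pos hz)) (pow_pos (norm_one_sub_pos ha hz.le) 2)
  nlinarith [norm_nonneg (phi a z)]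

lemma one_sub_conj_mul_phi {a z : ℂ} (ha : ‖a‖ < 1) (hz : ‖z‖ ≤ 1) :
    1 - conj a * phi a z = ((1 - ‖a‖ ^ 2 : ℝ) : ℂ) / (1 - conj a * z) := by
  have h := one_sub_ne ha hz
  rw [phi]
  push_cast
  rw [sq_norm_eq', eq_div_iff h, sub_mul, mul_assoc, div_mul_cancel₀ _ h]
  ring

lemma phi_phi {a z : ℂ} (ha : ‖a‖ < 1) (hz : ‖z‖ ≤ 1) : phi a (phi a z) = z := by
  have h := one_sub_ne ha hz
  have h1 := one_sub_conj_mul_phi ha hz
  have h0 : ((1 - ‖a‖ ^ 2 : ℝ) : ℂ) ≠ 0 := by exact_mod_cast (one_sub_sq_pos ha).ne'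
  have h2 : a - phi a z = z * ((1 - ‖a‖ ^ 2 : ℝ) : ℂ) / (1 - conj a * z) := by
    rw [phi]
    push_cast
    rw [sq_norm_eq', eq_div_iff h, sub_mul, div_mul_cancel₀ _ h]
    ring
  rw [phi, h1, h2, div_div_div_cancel_right₀ h, mul_div_cancel_right₀ _ h0]

lemma phi_zero (a : ℂ) : phi a 0 = a := by simp [phi]

lemma phi_self (a : ℂ) : phi a a = 0 := by simp [phi]

/-- `1 - conj (phi a w) * phi a z` -/
lemma one_sub_phi_phi {a w z : ℂ} (ha : ‖a‖ < 1) (hw : ‖w‖ ≤ 1) (hz : ‖z‖ ≤ 1) :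
    1 - conj (phi a w) * phi a z =
      ((1 - ‖a‖ ^ 2 : ℝ) : ℂ) * (1 - conj w * z) / ((1 - a * conj w) * (1 - conj a * z)) := by
  have h := one_sub_ne ha hz
  have h' := one_sub_ne' ha hw
  rw [phi, phi]
  push_cast
  rw [sq_norm_eq']
  simp only [map_div₀, map_sub, map_one, map_mul, Complex.conj_conj]
  generalize conj a = c at *
  generalize conj w = d at *
  rw [eq_div_iff (mul_ne_zero h' h), div_mul_div_comm, sub_mul, div_mul_cancel₀ _ (mul_ne_zero h' h)]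
  ring

lemma norm_one_sub_phi_phi {a w z : ℂ} (ha : ‖a‖ < 1) (hw : ‖w‖ ≤ 1) (hz : ‖z‖ ≤ 1) :
    ‖1 - conj (phi a w) * phi a z‖ =
      (1 - ‖a‖ ^ 2) * ‖1 - conj w * z‖ / (‖1 - conj a * w‖ * ‖1 - conj a * z‖) := by
  rw [one_sub_phi_phi ha hw hz, norm_div, norm_mul, norm_mul, Complex.norm_real,
    Real.norm_of_nonneg (one_sub_sq_pos ha).le]
  congr 2
  rw [← Complex.norm_conj]
  simp

lemma hasDerivAt_phi {a z : ℂ} (ha : ‖a‖ < 1) (hz : ‖z‖ ≤ 1) :
    HasDerivAt (phi a) (-((1 - ‖a‖ ^ 2 : ℝ) : ℂ) / (1 - conj a * z) ^ 2) z := by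
  have h := one_sub_ne ha hz
  have h1 : HasDerivAt (fun z : ℂ => a - z) (-1) z := by
    simpa using (hasDerivAt_id z).const_sub a
  have h2 : HasDerivAt (fun z : ℂ => 1 - conj a * z) (-(conj a)) z := by
    simpa using ((hasDerivAt_id z).const_mul (conj a)).const_sub 1
  have h3 := h1.div h2 h
  have e : (-1 * (1 - conj a * z) - (a - z) * -(conj a)) / (1 - conj a * z) ^ 2 =
      -((1 - ‖a‖ ^ 2 : ℝ) : ℂ) / (1 - conj a * z) ^ 2 := by
    push_cast
    rw [sq_norm_eq']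
    congr 1
    ring
  rw [e] at h3
  exact h3

lemma det_mul_real (a : ℂ) :
    ((ContinuousLinearMap.toSpanSingleton ℂ a).restrictScalars ℝ : ℂ →L[ℝ] ℂ).det = ‖a‖ ^ 2 := by
  rw [ContinuousLinearMap.det, ← LinearMap.det_toMatrix Complex.basisOneI, Matrix.det_fin_two]
  simp [LinearMap.toMatrix_apply, Complex.basisOneI, Complex.sq_norm, Complex.normSq_apply]

lemma hasFDeriv_phi {a z : ℂ} (ha : ‖a‖ < 1) (hz : ‖z‖ ≤ 1) :
    HasFDerivWithinAt (phi a) ((ContinuousLinearMap.toSpanSingleton ℂ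
      (-((1 - ‖a‖ ^ 2 : ℝ) : ℂ) / (1 - conj a * z) ^ 2)).restrictScalars ℝ : ℂ →L[ℝ] ℂ)
      (ball 0 1) z :=
  ((hasDerivAt_phi ha hz).hasFDerivAt.restrictScalars ℝ).hasFDerivWithinAt

lemma abs_det_phi {a z : ℂ} (ha : ‖a‖ < 1) :
    |((ContinuousLinearMap.toSpanSingleton ℂ
      (-((1 - ‖a‖ ^ 2 : ℝ) : ℂ) / (1 - conj a * z) ^ 2)).restrictScalars ℝ : ℂ →L[ℝ] ℂ).det| =
      jac a z := by
  rw [det_mul_real, jac, abs_of_nonneg (by positivity), norm_div, norm_neg, Complex.norm_real,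
    Real.norm_of_nonneg (one_sub_sq_pos ha).le, norm_pow, div_pow]
  ring

lemma injOn_phi {a : ℂ} (ha : ‖a‖ < 1) : InjOn (phi a) (ball 0 1) := by
  intro x hx y hy h
  rw [mem_ball_zero_iff] at hx hy
  rw [← phi_phi ha hx.le, h, phi_phi ha hy.le]

lemma image_phi {a : ℂ} (ha : ‖a‖ < 1) : phi a '' ball 0 1 = ball 0 1 := by
  ext z
  constructor
  · rintro ⟨w, hw, rfl⟩
    rw [mem_ball_zero_iff] at hw ⊢
    exact norm_phi_lt ha hw
  · intro hz
    rw [mem_ball_zero_iff] at hz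
    exact ⟨phi a z, by rw [mem_ball_zero_iff]; exact norm_phi_lt ha hz, phi_phi ha hz.le⟩

/-- change of variables -/
theorem integral_phi {E : Type*} [NormedAddCommGroup E] [NormedSpace ℝ E] {a : ℂ} (ha : ‖a‖ < 1)
    (F : ℂ → E) : ∫ w, jac a w • F (phi a w) ∂μD = ∫ w, F w ∂μD := by
  rw [μD, integral_smul_measure, integral_smul_measure]
  congr 1
  conv_rhs => rw [← image_phi ha]
  rw [integral_image_eq_integral_abs_det_fderiv_smul volume measurableSet_ball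
    (fun z hz => hasFDeriv_phi ha (mem_ball_zero_iff.1 hz).le) (injOn_phi ha)]
  exact setIntegral_congr_fun measurableSet_ball (fun z _ => by simp only [abs_det_phi ha])

theorem integrable_phi {E : Type*} [NormedAddCommGroup E] [NormedSpace ℝ E] {a : ℂ} (ha : ‖a‖ < 1)
    (F : ℂ → E) : Integrable (fun w => jac a w • F (phi a w)) μD ↔ Integrable F μD := by
  have h := integrableOn_image_iff_integrableOn_abs_det_fderiv_smul volume measurableSet_ball
    (fun z hz => hasFDeriv_phi ha (mem_ball_zero_iff.1 hz).le) (injOn_phi ha) F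
  rw [image_phi ha] at h
  have hc : ENNReal.ofReal (1 / Real.pi) ≠ 0 := by
    rw [Ne, ENNReal.ofReal_eq_zero, not_le]
    exact one_div_pos.2 Real.pi_pos
  have hc' : ENNReal.ofReal (1 / Real.pi) ≠ ∞ := ENNReal.ofReal_ne_top
  rw [μD, integrable_smul_measure hc hc', integrable_smul_measure hc hc']
  rw [← IntegrableOn, ← IntegrableOn, h]
  refine integrableOn_congr_fun (fun z _ => ?_) measurableSet_ball
  simp only [abs_det_phi ha]

theorem lintegral_phi {a : ℂ} (ha : ‖a‖ < 1) (F : ℂ → ℝ≥0∞) :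
    ∫⁻ w, ENNReal.ofReal (jac a w) * F (phi a w) ∂μD = ∫⁻ w, F w ∂μD := by
  rw [μD, lintegral_smul_measure, lintegral_smul_measure]
  congr 1
  conv_rhs => rw [← image_phi ha]
  rw [lintegral_image_eq_lintegral_abs_det_fderiv_mul volume measurableSet_ball
    (fun z hz => hasFDeriv_phi ha (mem_ball_zero_iff.1 hz).le) (injOn_phi ha)]
  exact setLIntegral_congr_fun measurableSet_ball (fun z _ => by simp only [abs_det_phi ha])

lemma measurable_phi (a : ℂ) : Measurable (phi a) := by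
  unfold phi; fun_prop

lemma ae_mem : ∀ᵐ w ∂μD, w ∈ ball (0 : ℂ) 1 := by
  rw [μD]
  exact Measure.ae_smul_measure (ae_restrict_mem measurableSet_ball) _

lemma ae_lt : ∀ᵐ w ∂μD, ‖w‖ < 1 := by
  filter_upwards [ae_mem] with w hw using mem_ball_zero_iff.1 hw

lemma jac_pos {a z : ℂ} (ha : ‖a‖ < 1) (hz : ‖z‖ < 1) : 0 < jac a z :=
  div_pos (pow_pos (one_sub_sq_pos ha) 2) (pow_pos (norm_one_sub_pos ha hz.le) 4)

theorem qmp_phi {a : ℂ} (ha : ‖a‖ < 1) : Measure.QuasiMeasurePreserving (phi a) μD μD := by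
  refine ⟨measurable_phi a, ?_⟩
  intro s hs
  obtain ⟨t, hst, ht, ht0⟩ := exists_measurable_superset_of_null hs
  refine measure_mono_null hst ?_
  rw [Measure.map_apply (measurable_phi a) ht]
  have h := lintegral_phi ha (t.indicator 1)
  rw [lintegral_indicator_one ht, ht0, lintegral_eq_zero_iff'] at h
  · rw [← compl_mem_ae_iff]
    filter_upwards [h, ae_lt] with w hw hw1 hwt
    have h2 : phi a w ∈ t := hwt
    simp only [Pi.zero_apply, indicator_of_mem h2, Pi.one_apply, mul_one,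
      ENNReal.ofReal_eq_zero] at hw
    exact absurd hw (not_le.2 (jac_pos ha hw1))
  · refine Measurable.aemeasurable (Measurable.mul ?_ ((measurable_one.indicator ht).comp
      (measurable_phi a)))
    refine ENNReal.measurable_ofReal.comp ?_
    unfold jac; fun_prop

instance : IsProbabilityMeasure μD := by
  refine ⟨?_⟩
  rw [μD, Measure.smul_apply, Measure.restrict_apply_univ, Complex.volume_ball]
  simp only [ENNReal.ofReal_one, one_pow, one_mul, smul_eq_mul]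
  rw [ENNReal.ofReal_div_of_pos Real.pi_pos, ENNReal.ofReal_one]
  have h0 : (ENNReal.ofReal Real.pi) ≠ 0 := by
    rw [Ne, ENNReal.ofReal_eq_zero, not_le]; exact Real.pi_pos
  have e : (NNReal.pi : ℝ≥0∞) = ENNReal.ofReal Real.pi := by
    rw [ENNReal.ofReal, ← NNReal.coe_real_pi, Real.toNNReal_coe]
  rw [e, ENNReal.div_eq_inv_mul, mul_one]
  exact ENNReal.inv_mul_cancel h0 ENNReal.ofReal_ne_top

open Pool.Agent.H366R3.ED in
/-- polar coordinates for continuous integrable functions -/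
theorem integral_polar {F : ℂ → ℂ} (hc : ContinuousOn F (ball 0 1)) (hi : Integrable F μD) :
    ∫ w, F w ∂μD = ∫ r in Ioo (0 : ℝ) 1, ((2 * r : ℝ) : ℂ) * Real.circleAverage F 0 r := by
  have hc0 : ENNReal.ofReal (1 / Real.pi) ≠ 0 := by
    rw [Ne, ENNReal.ofReal_eq_zero, not_le]
    exact one_div_pos.2 Real.pi_pos
  have hi2 : IntegrableOn F (ball 0 1) := by
    rw [μD, integrable_smul_measure hc0 ENNReal.ofReal_ne_top] at hi
    exact hi
  have hsub : ann 0 1 ⊆ ball (0 : ℂ) 1 := fun z hz => mem_ball_zero_iff.2 hz.2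
  have hae : (ball (0 : ℂ) 1 : Set ℂ) =ᵐ[volume] ann 0 1 := by
    have h1 : ∀ᵐ z : ℂ, z ≠ 0 := by
      rw [ae_iff]; simp
    filter_upwards [h1] with z hz
    apply propext
    show z ∈ ball (0 : ℂ) 1 ↔ z ∈ ann 0 1
    rw [mem_ball_zero_iff]
    exact ⟨fun h => ⟨norm_pos_iff.2 hz, h⟩, fun h => h.2⟩
  rw [μD, integral_smul_measure, setIntegral_congr_set hae,
    polar_avg le_rfl (hc.mono hsub) (hi2.mono_set hsub)]
  rw [ENNReal.toReal_ofReal (one_div_pos.2 Real.pi_pos).le, ← integral_smul]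
  refine integral_congr_ae (Filter.Eventually.of_forall fun r => ?_)
  have e : (1 / Real.pi) • (2 * Real.pi * r) • Real.circleAverage F 0 r =
      (2 * r) • Real.circleAverage F 0 r := by
    rw [smul_smul]
    congr 1
    have := Real.pi_ne_zero
    field_simp
  exact e.trans (Complex.real_smul)

end

end Pool.Agent.R283.PT
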