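import Pool.Agent.R283.PT.Ker
import Pool.Agent.R283.PT.Mom

/-!
# The reproducing property
-/

set_option autoImplicit false

open MeasureTheory Complex Set Metric
open scoped ComplexConjugate ENNReal

namespace Pool.Agent.R283.PT

noncomputable section

open Pool.Agent.H366R3.ED Pool.Agent.H713R2

lemma circleMap_norm {r θ : ℝ} (hr : 0 < r) : ‖circleMap 0 r θ‖ = r := by
  rw [norm_circleMap_zero, abs_of_pos hr]

lemma circleAverage_conj_pow {h : ℂ → ℂ} (hh : DifferentiableOn ℂ h (ball 0 1)) {r : ℝ}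
    (hr : 0 < r) (hr1 : r < 1) (k : ℕ) :
    Real.circleAverage (fun z => conj z ^ k * h z) 0 r = ((r ^ 2) ^ k : ℝ) * tc h k := by
  have h1 := integral_exp_tc hh hr hr1 k
  have h2 := avg_eq (fun z => conj z ^ k * h z) r
  rw [← integral_Ioc_eq_integral_Ioo, ← intervalIntegral.integral_of_le (by
    linarith [Real.pi_pos])] at h2
  have h3 : ∀ θ : ℝ, conj (circleMap 0 r θ) ^ k * h (circleMap 0 r θ) =
      (r : ℂ) ^ k * (Complex.exp (-(k * θ * I)) * h (circleMap 0 r θ)) := by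
    intro θ
    have e : conj (circleMap 0 r θ) = r * Complex.exp (-(θ * I)) := by
      simp [circleMap, ← Complex.exp_conj]
    rw [e, mul_pow, ← Complex.exp_nat_mul]
    rw [show (k : ℂ) * -(θ * I) = -(k * θ * I) by ring]
    ring
  simp only [h3] at h2
  rw [intervalIntegral.integral_const_mul, h1] at h2
  have hpi : (2 * Real.pi : ℝ) ≠ 0 := by have := Real.pi_pos; positivity
  have h4 : (2 * Real.pi : ℝ) • Real.circleAverage (fun z => conj z ^ k * h z) 0 r =
      (2 * Real.pi : ℝ) • (((r ^ 2) ^ k : ℝ) * tc h k) := by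
    rw [← h2, Complex.real_smul]
    push_cast
    ring
  exact smul_right_injective ℂ hpi h4

lemma circleAverage_congr {f g : ℂ → ℂ} {r : ℝ} (hr : 0 < r) (h : ∀ z, ‖z‖ = r → f z = g z) :
    Real.circleAverage f 0 r = Real.circleAverage g 0 r := by
  rw [Real.circleAverage, Real.circleAverage]
  congr 1
  refine intervalIntegral.integral_congr fun θ _ => ?_
  exact h _ (circleMap_norm hr)

lemma circleAverage_isPoly {n : ℕ} {h : ℕ → ℂ → ℂ}
    (hh : ∀ k, DifferentiableOn ℂ (h k) (ball 0 1)) {r : ℝ} (hr : 0 < r) (hr1 : r < 1) :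
    Real.circleAverage (fun z => ∑ k ∈ Finset.range n, conj z ^ k * h k z) 0 r =
      ∑ k ∈ Finset.range n, ((r ^ 2) ^ k : ℝ) * tc (h k) k := by
  have hc : ∀ k, CircleIntegrable (fun z => conj z ^ k * h k z) 0 r := by
    intro k
    refine ContinuousOn.circleIntegrable hr.le ?_
    refine (Complex.continuous_conj.pow k).continuousOn.mul ((hh k).continuousOn.mono ?_)
    intro z hz
    rw [mem_sphere_zero_iff_norm] at hz
    rw [mem_ball_zero_iff, hz]
    exact hr1
  have h2 := Real.circleAverage_sum (s := Finset.range n) (c := 0) (R := r)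
    (f := fun k z => conj z ^ k * h k z) (fun k _ => hc k)
  have e : (fun z => ∑ k ∈ Finset.range n, conj z ^ k * h k z) =
      ∑ k ∈ Finset.range n, fun z => conj z ^ k * h k z := by
    ext z; simp
  rw [e, h2]
  exact Finset.sum_congr rfl fun k _ => circleAverage_conj_pow (hh k) hr hr1 k

lemma radial_beta (j : ℕ) : ∀ k : ℕ, ∫ r in Ioo (0 : ℝ) 1, 2 * r * (r ^ 2) ^ k * (1 - r ^ 2) ^ j =
    (k.factorial : ℝ) * j.factorial / (k + j + 1).factorial := by
  have hint : ∀ k j : ℕ, IntegrableOn (fun r : ℝ => 2 * r * (r ^ 2) ^ k * (1 - r ^ 2) ^ j)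
      (Ioo 0 1) := by
    intro k j
    have : Continuous (fun r : ℝ => 2 * r * (r ^ 2) ^ k * (1 - r ^ 2) ^ j) := by fun_prop
    exact (this.integrableOn_Icc).mono_set Ioo_subset_Icc_self
  induction j with
  | zero =>
    intro k
    have e : ∀ r : ℝ, 2 * r * (r ^ 2) ^ k * (1 - r ^ 2) ^ 0 = 2 * r ^ (2 * k + 1) := by
      intro r; ring
    simp only [e]
    rw [← integral_Ioc_eq_integral_Ioo, ← intervalIntegral.integral_of_le zero_le_one,
      intervalIntegral.integral_const_mul, integral_pow]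
    rw [add_zero, Nat.factorial_succ]
    push_cast
    have f2 : (k.factorial : ℝ) ≠ 0 := by positivity
    have f3 : ((k : ℝ) + 1) ≠ 0 := by positivity
    have f4 : (2 * (k : ℝ) + 1 + 1) ≠ 0 := by positivity
    simp only [one_pow, Nat.factorial_zero, Nat.cast_one, mul_one]
    rw [zero_pow (by omega)]
    field_simp
    ring
  | succ j ih =>
    intro k
    have e : ∀ r : ℝ, 2 * r * (r ^ 2) ^ k * (1 - r ^ 2) ^ (j + 1) =
        2 * r * (r ^ 2) ^ k * (1 - r ^ 2) ^ j - 2 * r * (r ^ 2) ^ (k + 1) * (1 - r ^ 2) ^ j := by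
      intro r; ring
    simp only [e]
    rw [integral_sub (hint k j) (hint (k + 1) j), ih k, ih (k + 1)]
    rw [show k + 1 + j + 1 = (k + j + 1) + 1 by ring, show k + (j + 1) + 1 = (k + j + 1) + 1 by ring,
      Nat.factorial_succ (k + j + 1), Nat.factorial_succ k, Nat.factorial_succ j]
    push_cast
    have f2 : ((k + j + 1).factorial : ℝ) ≠ 0 := by positivity
    have f3 : ((k : ℝ) + j + 1 + 1) ≠ 0 := by positivity
    field_simp
    ring

lemma Qk_continuous (N : ℕ) : Continuous (Qk N) := by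
  unfold Qk; fun_prop

lemma Qk_bound (N : ℕ) : ∃ C : ℝ, 0 ≤ C ∧ ∀ u ∈ Icc (0 : ℝ) 1, |Qk N u| ≤ C := by
  obtain ⟨C, hC⟩ := (isCompact_Icc (a := (0 : ℝ)) (b := 1)).exists_bound_of_continuousOn
    (Qk_continuous N).continuousOn
  exact ⟨C, (norm_nonneg _).trans (hC 0 (by simp)), fun u hu => hC u hu⟩

lemma one_sub_sq_mem {w : ℂ} (hw : ‖w‖ < 1) : 1 - ‖w‖ ^ 2 ∈ Icc (0 : ℝ) 1 :=
  ⟨(one_sub_sq_pos hw).le, by nlinarith [norm_nonneg w]⟩

lemma integrable_mul_Qk {N : ℕ} {G : ℂ → ℂ} (hi : Integrable G μD) :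
    Integrable (fun w => G w * (Qk N (1 - ‖w‖ ^ 2) : ℂ)) μD := by
  obtain ⟨C, hC0, hC⟩ := Qk_bound N
  refine Integrable.mul_bdd (c := C) hi ?_ ?_
  · refine Continuous.aestronglyMeasurable ?_
    have := Qk_continuous N
    fun_prop
  · filter_upwards [ae_lt] with w hw
    rw [Complex.norm_real]
    exact hC _ (one_sub_sq_mem hw)

/-- the reproducing property at the origin -/
theorem rep_zero {N : ℕ} {G : ℂ → ℂ} (hG : IsPoly (N + 1) G) (hi : Integrable G μD) :
    ∫ w, G w * (Qk N (1 - ‖w‖ ^ 2) : ℂ) ∂μD = G 0 := by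
  have hcont : ContinuousOn (fun w => G w * (Qk N (1 - ‖w‖ ^ 2) : ℂ)) (ball 0 1) := by
    refine hG.continuousOn.mul (Continuous.continuousOn ?_)
    have := Qk_continuous N
    fun_prop
  rw [integral_polar hcont (integrable_mul_Qk hi)]
  obtain ⟨h, hh, hh2⟩ := hG
  have key : ∀ r ∈ Ioo (0 : ℝ) 1, ((2 * r : ℝ) : ℂ) *
      Real.circleAverage (fun w => G w * (Qk N (1 - ‖w‖ ^ 2) : ℂ)) 0 r =
      ∑ k ∈ Finset.range (N + 1), ∑ j ∈ Finset.range (N + 1),
        ((2 * r * (r ^ 2) ^ k * (1 - r ^ 2) ^ j : ℝ) : ℂ) * ((kap N j : ℝ) * tc (h k) k) := by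
    intro r hr
    have e1 : Real.circleAverage (fun w => G w * (Qk N (1 - ‖w‖ ^ 2) : ℂ)) 0 r =
        Real.circleAverage (fun w => (Qk N (1 - r ^ 2) : ℂ) •
          (∑ k ∈ Finset.range (N + 1), conj w ^ k * h k w)) 0 r := by
      refine circleAverage_congr hr.1 fun z hz => ?_
      rw [hh2 z (by rw [mem_ball_zero_iff, hz]; exact hr.2), hz, smul_eq_mul]
      ring
    rw [e1]
    have e2 : Real.circleAverage (fun w => (Qk N (1 - r ^ 2) : ℂ) •
          (∑ k ∈ Finset.range (N + 1), conj w ^ k * h k w)) 0 r =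
        (Qk N (1 - r ^ 2) : ℂ) • Real.circleAverage (fun w =>
          (∑ k ∈ Finset.range (N + 1), conj w ^ k * h k w)) 0 r := Real.circleAverage_fun_smul
    rw [e2, circleAverage_isPoly hh hr.1 hr.2, Qk, smul_eq_mul]
    push_cast
    rw [Finset.sum_mul_sum, Finset.mul_sum, Finset.sum_comm]
    simp only [Finset.mul_sum]
    refine Finset.sum_congr rfl fun k _ => Finset.sum_congr rfl fun j _ => ?_
    ring
  rw [setIntegral_congr_fun measurableSet_Ioo key]
  have hint : ∀ k j : ℕ, IntegrableOn (fun r : ℝ => ((2 * r * (r ^ 2) ^ k * (1 - r ^ 2) ^ j : ℝ) : ℂ) *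
      ((kap N j : ℝ) * tc (h k) k)) (Ioo 0 1) := by
    intro k j
    have : Continuous (fun r : ℝ => ((2 * r * (r ^ 2) ^ k * (1 - r ^ 2) ^ j : ℝ) : ℂ) *
      ((kap N j : ℝ) * tc (h k) k)) := by fun_prop
    exact (this.integrableOn_Icc).mono_set Ioo_subset_Icc_self
  rw [integral_finsetSum _ fun k _ => integrable_finsetSum _ fun j _ => hint k j]
  have h3 : ∀ k ∈ Finset.range (N + 1), ∫ r in Ioo (0 : ℝ) 1, ∑ j ∈ Finset.range (N + 1),
      ((2 * r * (r ^ 2) ^ k * (1 - r ^ 2) ^ j : ℝ) : ℂ) * ((kap N j : ℝ) * tc (h k) k) =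
      (if k = 0 then 1 else 0) * tc (h k) k := by
    intro k hk
    rw [integral_finsetSum _ fun j _ => hint k j]
    have h4 : ∀ j ∈ Finset.range (N + 1), ∫ r in Ioo (0 : ℝ) 1,
        ((2 * r * (r ^ 2) ^ k * (1 - r ^ 2) ^ j : ℝ) : ℂ) * ((kap N j : ℝ) * tc (h k) k) =
        ((kap N j * ((k.factorial : ℝ) * j.factorial / (k + j + 1).factorial) : ℝ) : ℂ) *
          tc (h k) k := by
      intro j _
      rw [integral_mul_const, integral_complex_ofReal, radial_beta]
      push_cast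
      ring
    rw [Finset.sum_congr rfl h4, ← Finset.sum_mul, ← Complex.ofReal_sum,
      kap_moment (Nat.lt_succ_iff.1 (Finset.mem_range.1 hk))]
    split_ifs <;> simp
  rw [Finset.sum_congr rfl h3, hh2 0 (by simp)]
  simp [Finset.sum_range_succ', tc_zero]

end

end Pool.Agent.R283.PT
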