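import Pool.Agent.R283.PT.Space

/-!
# Toeplitz operators on the polyanalytic Bergman spaces
-/

set_option autoImplicit false

open MeasureTheory Complex Set Metric Filter Topology
open scoped ComplexConjugate ENNReal InnerProductSpace

namespace Pool.Agent.R283.PT

noncomputable section

instance instCompleteA2 (N : ℕ) : CompleteSpace (A2 (N + 1)) :=
  (isClosed_A2 N).completeSpace_coe

/-- Multiplication by the bounded function `f` on `L²(D, dA)`. -/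
def mulOp (f : Lp ℂ ∞ μD) : Lp ℂ 2 μD →L[ℂ] Lp ℂ 2 μD :=
  (ContinuousLinearMap.mul ℂ ℂ).holderL μD ∞ 2 2 f

/-- The Toeplitz operator `T_f g = P (f g)` on the polyanalytic Bergman space of order `N + 1`,
where `P` is the orthogonal projection of `L²(D, dA)` onto this space. -/
def toeplitz (N : ℕ) (f : Lp ℂ ∞ μD) : A2 (N + 1) →L[ℂ] A2 (N + 1) :=
  (A2 (N + 1)).orthogonalProjectionOnto ∘L mulOp f ∘L (A2 (N + 1)).subtypeL

/-- `K z` is the reproducing kernel at `z` of the polyanalytic Bergman space of order `N + 1`: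
`g(z) = ⟨g, K z⟩` for every `g` in the space. (The inner product `⟪x, y⟫` is linear in `y`.) -/
def IsKernel (N : ℕ) (K : ℂ → A2 (N + 1)) : Prop :=
  ∀ z : ℂ, ‖z‖ < 1 → ∀ (f : A2 (N + 1)) (g : ℂ → ℂ), IsPoly (N + 1) g →
    ((f : Lp ℂ 2 μD) : ℂ → ℂ) =ᵐ[μD] g → ⟪K z, f⟫_ℂ = g z

/-- The Berezin transform `B(T)(z) = ⟨T K_z, K_z⟩ / ⟨K_z, K_z⟩`. -/
def berezin {N : ℕ} (K : ℂ → A2 (N + 1)) (T : A2 (N + 1) →L[ℂ] A2 (N + 1)) (z : ℂ) : ℂ :=
  ⟪K z, T (K z)⟫_ℂ / ⟪K z, K z⟫_ℂ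

/-- the kernel as an element of the space -/
def kA (N : ℕ) (z : ℂ) : A2 (N + 1) := ⟨kE N z, kE_mem N z⟩

theorem isKernel_kA (N : ℕ) : IsKernel N (kA N) := by
  intro z hz f g hg hfg
  exact inner_kE_eq hz hg hfg

theorem IsKernel.eq {N : ℕ} {K : ℂ → A2 (N + 1)} (hK : IsKernel N K) {z : ℂ} (hz : ‖z‖ < 1) :
    K z = kA N z := by
  refine ext_inner_right ℂ fun f => ?_
  obtain ⟨g, hg, hfg⟩ := f.2
  rw [hK z hz f g hg hfg, isKernel_kA N z hz f g hg hfg]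

lemma mulOp_coe (f : Lp ℂ ∞ μD) (h : Lp ℂ 2 μD) :
    (mulOp f h : ℂ → ℂ) =ᵐ[μD] fun w => f w * h w := by
  exact ContinuousLinearMap.coeFn_holder (ContinuousLinearMap.mul ℂ ℂ) f h

/-- bounded representative -/
lemma norm_le_ae (f : Lp ℂ ∞ μD) : ∀ᵐ w ∂μD, ‖f w‖ ≤ ‖f‖ := by
  have h := ae_le_eLpNormEssSup (f := (f : ℂ → ℂ)) (μ := μD)
  filter_upwards [h] with w hw
  rw [Lp.norm_def, eLpNorm_exponent_top]
  have hfin : eLpNormEssSup (f : ℂ → ℂ) μD ≠ ∞ := by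
    have := Lp.eLpNorm_ne_top f
    rwa [eLpNorm_exponent_top] at this
  have h2 := ENNReal.toReal_mono hfin hw
  rwa [toReal_enorm] at h2

lemma inner_kA_toeplitz {N : ℕ} (f : Lp ℂ ∞ μD) {z : ℂ} (hz : ‖z‖ < 1) (h : A2 (N + 1)) :
    ⟪kA N z, toeplitz N f h⟫_ℂ = ∫ w, f w * (h : Lp ℂ 2 μD) w * conj (Kf N z w) ∂μD := by
  have h1 : ⟪kA N z, toeplitz N f h⟫_ℂ = ⟪kE N z, mulOp f (h : Lp ℂ 2 μD)⟫_ℂ := by
    have h2 := Submodule.inner_orthogonalProjectionOnto_eq_of_mem_left (kA N z)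
      (mulOp f (h : Lp ℂ 2 μD))
    exact h2
  rw [h1, inner_kE hz]
  refine integral_congr_ae ?_
  filter_upwards [mulOp_coe f (h : Lp ℂ 2 μD)] with w hw
  rw [hw]

/-- the integral kernel of the Toeplitz operator -/
def Nk (N : ℕ) (f : ℂ → ℂ) (z v : ℂ) : ℂ := ∫ w, f w * Kf N v w * conj (Kf N z w) ∂μD

lemma inner_kA_toeplitz_kA {N : ℕ} (f : Lp ℂ ∞ μD) {z v : ℂ} (hz : ‖z‖ < 1) (hv : ‖v‖ < 1) :
    ⟪kA N z, toeplitz N f (kA N v)⟫_ℂ = Nk N f z v := by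
  rw [inner_kA_toeplitz f hz, Nk]
  refine integral_congr_ae ?_
  filter_upwards [kE_coe (N := N) hv] with w hw
  show f w * (kE N v : ℂ → ℂ) w * _ = _
  rw [hw]

/-- a Hilbert space element of `A2` equals a.e. its point values -/
lemma coe_ae_eq {N : ℕ} (h : A2 (N + 1)) :
    ((h : Lp ℂ 2 μD) : ℂ → ℂ) =ᵐ[μD] fun z => ⟪kA N z, h⟫_ℂ := by
  obtain ⟨g, hg, hfg⟩ := h.2
  filter_upwards [hfg, ae_lt] with z hz hz1
  rw [hz, isKernel_kA N z hz1 h g hg hfg]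

/-- the Toeplitz operator as an integral operator -/
lemma toeplitz_kernel {N : ℕ} (f : Lp ℂ ∞ μD) {z : ℂ} (hz : ‖z‖ < 1) (h : A2 (N + 1)) :
    ⟪kA N z, toeplitz N f h⟫_ℂ = ∫ v, (h : Lp ℂ 2 μD) v * Nk N f z v ∂μD := by
  rw [← ContinuousLinearMap.adjoint_inner_left]
  have h1 : ⟪(ContinuousLinearMap.adjoint (toeplitz N f)) (kA N z), h⟫_ℂ =
      ∫ v, conj ((((ContinuousLinearMap.adjoint (toeplitz N f)) (kA N z) : A2 (N + 1)) :
        Lp ℂ 2 μD) v) * (h : Lp ℂ 2 μD) v ∂μD := by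
    rw [Submodule.coe_inner, L2.inner_def]
    refine integral_congr_ae (Eventually.of_forall fun w => ?_)
    simp [RCLike.inner_apply, mul_comm]
  rw [h1]
  refine integral_congr_ae ?_
  filter_upwards [coe_ae_eq ((ContinuousLinearMap.adjoint (toeplitz N f)) (kA N z)), ae_lt]
    with v hv hv1
  rw [hv, ContinuousLinearMap.adjoint_inner_right, inner_conj_symm, inner_kA_toeplitz_kA f hz hv1,
    mul_comm]

end

end Pool.Agent.R283.PT
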