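import Pool.Agent.R283.PT.Cov
import Pool.Agent.R283.PT.Toep
import Pool.Agent.R283.PT.G

/-!
# Schur type estimates for the integral kernel of a Toeplitz operator
-/

set_option autoImplicit false

open MeasureTheory Complex Set Metric Filter Topology
open scoped ComplexConjugate ENNReal

namespace Pool.Agent.R283.PT

noncomputable section

/-- `Φ_z(ω) = ∫ f(φ_z η) K_ω(η) Q(1-|η|²) dμ(η)` -/
def Ph (N : ℕ) (f : ℂ → ℂ) (z ω : ℂ) : ℂ :=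
  ∫ η, f (phi z η) * (Kf N ω η * (Qk N (1 - ‖η‖ ^ 2) : ℂ)) ∂μD

lemma Nk_phi {N : ℕ} (f : ℂ → ℂ) {z ω : ℂ} (hz : ‖z‖ < 1) (hω : ‖ω‖ < 1) :
    Nk N f z (phi z ω) = ((1 - ‖z‖ ^ 2 : ℝ) : ℂ)⁻¹ ^ 2 *
      ((1 - z * conj ω) ^ (N + 2) / (1 - conj z * ω) ^ N) * Ph N f z ω := by
  rw [Nk, ← integral_phi hz, Ph, ← integral_const_mul]
  refine integral_congr_ae ?_
  filter_upwards [ae_lt] with η hη
  have h1 := Kf_phi (N := N) hz hω hη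
  have h := Kf_phi (N := N) hz (norm_zero.trans_lt one_pos) hη
  rw [phi_zero, Kf_zero] at h
  rw [h, h1, Complex.real_smul, jac_eq]
  have hA := one_sub_ne hz hη.le
  have hA' := one_sub_ne' hz hη.le
  have hs : ((1 - ‖z‖ ^ 2 : ℝ) : ℂ) ≠ 0 := by exact_mod_cast (one_sub_sq_pos hz).ne'
  simp only [map_mul, map_div₀, map_pow, map_sub, map_one, Complex.conj_conj, Complex.conj_ofReal,
    map_inv₀, map_zero, mul_zero, sub_zero, one_pow, div_one, mul_one]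
  generalize ((1 - ‖z‖ ^ 2 : ℝ) : ℂ) = s at *
  generalize 1 - conj z * η = A at *
  generalize 1 - z * conj η = A' at *
  generalize (1 - z * conj ω) ^ (N + 2) / (1 - conj z * ω) ^ N = X at *
  rw [inv_pow, pow_add A' N 2, pow_add A N 2]
  field_simp

lemma norm_Nk_phi {N : ℕ} (f : ℂ → ℂ) {z ω : ℂ} (hz : ‖z‖ < 1) (hω : ‖ω‖ < 1) :
    ‖Nk N f z (phi z ω)‖ = ‖1 - conj z * ω‖ ^ 2 / (1 - ‖z‖ ^ 2) ^ 2 * ‖Ph N f z ω‖ := by
  have hn := (norm_one_sub_pos hz hω.le).ne'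
  have hs := (one_sub_sq_pos hz)
  rw [Nk_phi f hz hω, norm_mul, norm_mul, norm_pow, norm_inv, norm_div, norm_pow, norm_pow,
    norm_one_sub_conj, Complex.norm_real, Real.norm_of_nonneg hs.le, pow_add]
  field_simp

/-- the weight `(1-|v|²)^(-7/8)` -/
def pw (v : ℂ) : ℝ≥0∞ := (ENNReal.ofReal (1 - ‖v‖ ^ 2)) ^ (-(7 / 8) : ℝ)

lemma measurable_pw : Measurable pw := by unfold pw; fun_prop

/-- first Schur integral -/
def AA (N : ℕ) (f : ℂ → ℂ) (z : ℂ) : ℝ≥0∞ := ∫⁻ v, ‖Nk N f z v‖ₑ * pw v ∂μD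

/-- the square integral of `Φ_z` -/
def II (N : ℕ) (f : ℂ → ℂ) (z : ℂ) : ℝ≥0∞ := ∫⁻ ω, ‖Ph N f z ω‖ₑ ^ (2 : ℝ) * pw ω ∂μD

lemma AA_eq {N : ℕ} (f : ℂ → ℂ) {z : ℂ} (hz : ‖z‖ < 1) :
    AA N f z = pw z * ∫⁻ ω, ‖Ph N f z ω‖ₑ *
      (pw ω * (ENNReal.ofReal ‖1 - conj z * ω‖) ^ (-(1 / 4) : ℝ)) ∂μD := by
  rw [AA, ← lintegral_phi hz, ← lintegral_const_mul' _ _ (by
    rw [pw, ENNReal.ofReal_rpow_of_pos (one_sub_sq_pos hz)]; exact ENNReal.ofReal_ne_top)]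
  refine lintegral_congr_ae ?_
  filter_upwards [ae_lt] with ω hω
  have hn := norm_one_sub_pos hz hω.le
  have hs := one_sub_sq_pos hz
  have hs' := one_sub_sq_pos hω
  have hsp := one_sub_sq_pos (norm_phi_lt hz hω)
  rw [pw, pw, pw, ENNReal.ofReal_rpow_of_pos hs, ENNReal.ofReal_rpow_of_pos hs',
    ENNReal.ofReal_rpow_of_pos hsp, ENNReal.ofReal_rpow_of_pos hn, ← ofReal_norm, ← ofReal_norm,
    ← ENNReal.ofReal_mul (norm_nonneg _), ← ENNReal.ofReal_mul (jac_pos hz hω).le,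
    ← ENNReal.ofReal_mul (by positivity), ← ENNReal.ofReal_mul (norm_nonneg _),
    ← ENNReal.ofReal_mul (by positivity)]
  congr 1
  rw [norm_Nk_phi f hz hω, norm_phi_sq hz hω.le, jac]
  rw [Real.div_rpow (by positivity) (by positivity), Real.mul_rpow hs.le hs'.le,
    ← Real.rpow_natCast ‖1 - conj z * ω‖ 2, ← Real.rpow_mul hn.le]
  set a := ‖1 - conj z * ω‖ with ha
  have e1 : a ^ ((2 : ℕ) * (-(7 / 8) : ℝ)) = (a ^ (7 / 4 : ℝ))⁻¹ := by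
    rw [← Real.rpow_neg hn.le]; norm_num
  have e2 : a ^ (-(1 / 4) : ℝ) = a ^ (7 / 4 : ℝ) / a ^ 2 := by
    rw [← Real.rpow_natCast a 2, ← Real.rpow_sub hn]; norm_num
  have h3 : a ^ (7 / 4 : ℝ) ≠ 0 := (Real.rpow_pos_of_pos hn _).ne'
  rw [e1, e2]
  have e3 : a ^ ((2 : ℕ) : ℝ) = a ^ 2 := Real.rpow_natCast a 2
  rw [e3]
  field_simp

lemma rpow_split {x : ℝ} (hx : 0 < x) : (ENNReal.ofReal x) ^ (-2 : ℝ) =
    (ENNReal.ofReal x) ^ (-(1 / 32) : ℝ) * (ENNReal.ofReal x) ^ (-(63 / 64) : ℝ) *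
      (ENNReal.ofReal x) ^ (-(63 / 64) : ℝ) := by
  have h0 : ENNReal.ofReal x ≠ 0 := (ENNReal.ofReal_pos.2 hx).ne'
  rw [← ENNReal.rpow_add _ _ h0 ENNReal.ofReal_ne_top, ← ENNReal.rpow_add _ _ h0 ENNReal.ofReal_ne_top]
  norm_num

lemma half_one_sub_le {z w : ℂ} (hz : ‖z‖ < 1) (hw : ‖w‖ ≤ 1) :
    (1 - ‖z‖ ^ 2) / 2 ≤ ‖1 - conj z * w‖ := by
  have h1 := one_sub_le_norm (z := z) hw
  nlinarith [norm_nonneg z]

lemma half_one_sub_le' {z w : ℂ} (hz : ‖z‖ ≤ 1) (hw : ‖w‖ < 1) :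
    (1 - ‖w‖ ^ 2) / 2 ≤ ‖1 - conj z * w‖ := by
  rw [← norm_one_sub_conj, mul_comm]
  exact half_one_sub_le hw hz

/-- `∫ |1 - conj ω η|^{-2} dμ(η) ≤ C (1-|ω|²)^{-1/32}` -/
lemma lint_two : ∃ C : ℝ≥0∞, C < ∞ ∧ ∀ ω : ℂ, ‖ω‖ < 1 →
    ∫⁻ η, (ENNReal.ofReal ‖1 - conj ω * η‖) ^ (-2 : ℝ) ∂μD ≤
      C * (ENNReal.ofReal (1 - ‖ω‖ ^ 2)) ^ (-(1 / 32) : ℝ) := by
  obtain ⟨C, hC, hC2⟩ := lint_G (γ := 63 / 64) (by norm_num) (by norm_num)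
  set c1 : ℝ≥0∞ := (ENNReal.ofReal (1 / 2)) ^ (-(1 / 32) : ℝ) with hc1
  set c2 : ℝ≥0∞ := (ENNReal.ofReal (1 / 2)) ^ (-(63 / 64) : ℝ) with hc2
  have h1 : c1 < ∞ := by
    rw [hc1, ENNReal.ofReal_rpow_of_pos (by norm_num)]; exact ENNReal.ofReal_lt_top
  have h2 : c2 < ∞ := by
    rw [hc2, ENNReal.ofReal_rpow_of_pos (by norm_num)]; exact ENNReal.ofReal_lt_top
  refine ⟨c1 * c2 * C, ENNReal.mul_lt_top (ENNReal.mul_lt_top h1 h2) hC, fun ω hω => ?_⟩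
  have hp : ∀ᵐ η ∂μD, (ENNReal.ofReal ‖1 - conj ω * η‖) ^ (-2 : ℝ) ≤
      (c1 * c2 * (ENNReal.ofReal (1 - ‖ω‖ ^ 2)) ^ (-(1 / 32) : ℝ)) *
      ((ENNReal.ofReal (1 - ‖η‖ ^ 2)) ^ (-(63 / 64) : ℝ) *
        (ENNReal.ofReal ‖1 - conj ω * η‖) ^ (-(63 / 64) : ℝ)) := by
    filter_upwards [ae_lt] with η hη
    rw [rpow_split (norm_one_sub_pos hω hη.le)]
    have e1 : (ENNReal.ofReal ‖1 - conj ω * η‖) ^ (-(1 / 32) : ℝ) ≤
        c1 * (ENNReal.ofReal (1 - ‖ω‖ ^ 2)) ^ (-(1 / 32) : ℝ) := by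
      rw [hc1, ← ENNReal.mul_rpow_of_ne_top ENNReal.ofReal_ne_top ENNReal.ofReal_ne_top,
        ← ENNReal.ofReal_mul (by norm_num)]
      refine rpow_neg_anti (ENNReal.ofReal_le_ofReal ?_) (by norm_num)
      have := half_one_sub_le hω hη.le
      linarith
    have e2 : (ENNReal.ofReal ‖1 - conj ω * η‖) ^ (-(63 / 64) : ℝ) ≤
        c2 * (ENNReal.ofReal (1 - ‖η‖ ^ 2)) ^ (-(63 / 64) : ℝ) := by
      rw [hc2, ← ENNReal.mul_rpow_of_ne_top ENNReal.ofReal_ne_top ENNReal.ofReal_ne_top,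
        ← ENNReal.ofReal_mul (by norm_num)]
      refine rpow_neg_anti (ENNReal.ofReal_le_ofReal ?_) (by norm_num)
      have := half_one_sub_le' hω.le hη
      linarith
    calc _ ≤ (c1 * (ENNReal.ofReal (1 - ‖ω‖ ^ 2)) ^ (-(1 / 32) : ℝ)) *
          (c2 * (ENNReal.ofReal (1 - ‖η‖ ^ 2)) ^ (-(63 / 64) : ℝ)) *
          (ENNReal.ofReal ‖1 - conj ω * η‖) ^ (-(63 / 64) : ℝ) :=
          mul_le_mul' (mul_le_mul' e1 e2) le_rfl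
      _ = _ := by ring
  refine (lintegral_mono_ae hp).trans ?_
  rw [lintegral_const_mul _ (by fun_prop)]
  calc _ ≤ (c1 * c2 * (ENNReal.ofReal (1 - ‖ω‖ ^ 2)) ^ (-(1 / 32) : ℝ)) * C :=
        mul_le_mul' le_rfl (hC2 ω)
    _ = _ := by ring

/-- `|Φ_z(ω)| ≤ C M (1-|ω|²)^{-1/32}` -/
lemma Ph_bound (N : ℕ) : ∃ C : ℝ≥0∞, C < ∞ ∧ ∀ (f : ℂ → ℂ) (M : ℝ),
    (∀ᵐ w ∂μD, ‖f w‖ ≤ M) → ∀ z ω : ℂ, ‖z‖ < 1 → ‖ω‖ < 1 →
      ‖Ph N f z ω‖ₑ ≤ ENNReal.ofReal M * C * (ENNReal.ofReal (1 - ‖ω‖ ^ 2)) ^ (-(1 / 32) : ℝ) := by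
  obtain ⟨C, hC, hC2⟩ := lint_two
  obtain ⟨q, hq0, hq⟩ := Qk_bound N
  refine ⟨ENNReal.ofReal (q * q) * C, ENNReal.mul_lt_top ENNReal.ofReal_lt_top hC, ?_⟩
  intro f M hf z ω hz hω
  have hM : 0 ≤ M := by
    obtain ⟨w, hw⟩ := hf.exists
    exact (norm_nonneg _).trans hw
  have hf' := (qmp_phi hz).ae hf
  rw [Ph]
  refine (enorm_integral_le_lintegral_enorm _).trans ?_
  have hp : ∀ᵐ η ∂μD, ‖f (phi z η) * (Kf N ω η * (Qk N (1 - ‖η‖ ^ 2) : ℂ))‖ₑ ≤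
      (ENNReal.ofReal M * ENNReal.ofReal (q * q)) *
        (ENNReal.ofReal ‖1 - conj ω * η‖) ^ (-2 : ℝ) := by
    filter_upwards [hf', ae_lt] with η h1 hη
    have hn := norm_one_sub_pos hω hη.le
    rw [← ofReal_norm, ENNReal.ofReal_rpow_of_pos hn, ← ENNReal.ofReal_mul hM,
      ← ENNReal.ofReal_mul (by positivity)]
    refine ENNReal.ofReal_le_ofReal ?_
    rw [norm_mul, norm_mul, Complex.norm_real]
    have h2 := norm_Kf_le hq hω hη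
    have h3 : ‖Qk N (1 - ‖η‖ ^ 2)‖ ≤ q := hq _ (one_sub_sq_mem hη)
    have e : ‖1 - conj ω * η‖ ^ (-2 : ℝ) = (‖1 - conj ω * η‖ ^ 2)⁻¹ := by
      rw [Real.rpow_neg hn.le]; norm_cast
    rw [e]
    calc ‖f (phi z η)‖ * (‖Kf N ω η‖ * ‖Qk N (1 - ‖η‖ ^ 2)‖)
        ≤ M * (q / ‖1 - conj ω * η‖ ^ 2 * q) := by gcongr
      _ = _ := by rw [div_eq_mul_inv]; ring
  refine (lintegral_mono_ae hp).trans ?_
  rw [lintegral_const_mul _ (by fun_prop)]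
  calc _ ≤ (ENNReal.ofReal M * ENNReal.ofReal (q * q)) *
        (C * (ENNReal.ofReal (1 - ‖ω‖ ^ 2)) ^ (-(1 / 32) : ℝ)) := mul_le_mul' le_rfl (hC2 ω hω)
    _ = _ := by ring

lemma measurable_Ph {N : ℕ} {f : ℂ → ℂ} (hf : Measurable f) (z : ℂ) :
    Measurable (fun ω => Ph N f z ω) := by
  have h : StronglyMeasurable (fun p : ℂ × ℂ =>
      f (phi z p.2) * (Kf N p.1 p.2 * (Qk N (1 - ‖p.2‖ ^ 2) : ℂ))) := by
    refine Measurable.stronglyMeasurable ?_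
    have h1 := measurable_Kf N
    have h2 := (Qk_continuous N).measurable
    have h3 := measurable_phi z
    exact (hf.comp (h3.comp measurable_snd)).mul (h1.mul (by fun_prop))
  exact (h.integral_prod_right' (ν := μD)).measurable

/-- the dominating function -/
def dom (ω : ℂ) : ℝ≥0∞ := (ENNReal.ofReal (1 - ‖ω‖ ^ 2)) ^ (-(15 / 16) : ℝ)

lemma lint_dom : ∫⁻ ω, dom ω ∂μD < ∞ := by
  obtain ⟨C, hC, hC2⟩ := lint_G (γ := 15 / 16) (by norm_num) (by norm_num)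
  have h := hC2 0
  simp only [map_zero, zero_mul, sub_zero, norm_one, ENNReal.ofReal_one, ENNReal.one_rpow,
    mul_one] at h
  exact lt_of_le_of_lt h hC

lemma Ph_sq_bound (N : ℕ) : ∃ C : ℝ≥0∞, C < ∞ ∧ ∀ (f : ℂ → ℂ) (M : ℝ),
    (∀ᵐ w ∂μD, ‖f w‖ ≤ M) → ∀ z ω : ℂ, ‖z‖ < 1 → ‖ω‖ < 1 →
      ‖Ph N f z ω‖ₑ ^ (2 : ℝ) * pw ω ≤ (ENNReal.ofReal M) ^ (2 : ℝ) * C * dom ω := by
  obtain ⟨C, hC, hC2⟩ := Ph_bound N
  refine ⟨C ^ (2 : ℝ), ENNReal.rpow_lt_top_of_nonneg (by norm_num) hC.ne, ?_⟩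
  intro f M hf z ω hz hω
  have h := ENNReal.rpow_le_rpow (hC2 f M hf z ω hz hω) (z := 2) (by norm_num)
  rw [ENNReal.mul_rpow_of_nonneg _ _ (by norm_num), ENNReal.mul_rpow_of_nonneg _ _ (by norm_num),
    ← ENNReal.rpow_mul] at h
  refine (mul_le_mul' h le_rfl).trans (le_of_eq ?_)
  have h0 : ENNReal.ofReal (1 - ‖ω‖ ^ 2) ≠ 0 := (ENNReal.ofReal_pos.2 (one_sub_sq_pos hω)).ne'
  rw [pw, dom, mul_assoc, ← ENNReal.rpow_add _ _ h0 ENNReal.ofReal_ne_top]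
  norm_num

lemma II_le (N : ℕ) : ∃ C : ℝ≥0∞, C < ∞ ∧ ∀ (f : ℂ → ℂ) (M : ℝ),
    (∀ᵐ w ∂μD, ‖f w‖ ≤ M) → ∀ z : ℂ, ‖z‖ < 1 → II N f z ≤ (ENNReal.ofReal M) ^ (2 : ℝ) * C := by
  obtain ⟨C, hC, hC2⟩ := Ph_sq_bound N
  refine ⟨C * ∫⁻ ω, dom ω ∂μD, ENNReal.mul_lt_top hC lint_dom, ?_⟩
  intro f M hf z hz
  have h : ∀ᵐ ω ∂μD, ‖Ph N f z ω‖ₑ ^ (2 : ℝ) * pw ω ≤ (ENNReal.ofReal M) ^ (2 : ℝ) * C * dom ω := by
    filter_upwards [ae_lt] with ω hω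
    exact hC2 f M hf z ω hz hω
  refine (lintegral_mono_ae h).trans ?_
  rw [lintegral_const_mul _ (by unfold dom; fun_prop)]
  rw [mul_assoc]

/-- the limit of `II` -/
lemma II_tendsto {N : ℕ} {f : ℂ → ℂ} (hfm : Measurable f) {M : ℝ} (hf : ∀ᵐ w ∂μD, ‖f w‖ ≤ M)
    {l : Filter ℂ} [l.IsCountablyGenerated] (hl : ∀ᶠ z in l, ‖z‖ < 1)
    (h : ∀ ω, ‖ω‖ < 1 → Tendsto (fun z => Ph N f z ω) l (𝓝 0)) :
    Tendsto (fun z => II N f z) l (𝓝 0) := by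
  obtain ⟨C, hC, hC2⟩ := Ph_sq_bound N
  have h0 : ∫⁻ _ω : ℂ, (0 : ℝ≥0∞) ∂μD = 0 := by simp
  rw [← h0]
  refine tendsto_lintegral_filter_of_dominated_convergence
    (fun ω => (ENNReal.ofReal M) ^ (2 : ℝ) * C * dom ω) ?_ ?_ ?_ ?_
  · refine Eventually.of_forall fun z => ?_
    exact (((measurable_Ph hfm z).enorm.pow_const _).mul measurable_pw)
  · filter_upwards [hl] with z hz
    filter_upwards [ae_lt] with ω hω
    exact hC2 f M hf z ω hz hω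
  · rw [lintegral_const_mul _ (by unfold dom; fun_prop)]
    exact (ENNReal.mul_lt_top (ENNReal.mul_lt_top (ENNReal.rpow_lt_top_of_nonneg (by norm_num)
      ENNReal.ofReal_ne_top) hC) lint_dom).ne
  · filter_upwards [ae_lt] with ω hω
    have h1 := (h ω hω).enorm
    rw [enorm_zero] at h1
    have h2 := (ENNReal.continuous_rpow_const (y := 2)).tendsto 0 |>.comp h1
    rw [ENNReal.zero_rpow_of_pos (by norm_num)] at h2
    have hpw : pw ω ≠ ∞ := by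
      rw [pw, ENNReal.ofReal_rpow_of_pos (one_sub_sq_pos hω)]; exact ENNReal.ofReal_ne_top
    have h3 := ENNReal.Tendsto.mul_const h2 (Or.inr hpw)
    rw [zero_mul] at h3
    exact h3

/-- the first Schur bound -/
theorem AA_le : ∃ C : ℝ≥0∞, C < ∞ ∧ ∀ (N : ℕ) (f : ℂ → ℂ), Measurable f → ∀ z : ℂ, ‖z‖ < 1 →
    AA N f z ≤ pw z * ((II N f z) ^ (1 / 2 : ℝ) * C) := by
  obtain ⟨C, hC, hC2⟩ := lint_G (γ := 63 / 64) (by norm_num) (by norm_num)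
  set c : ℝ≥0∞ := (ENNReal.ofReal 2) ^ (31 / 64 : ℝ) with hc
  have hcf : c < ∞ := ENNReal.rpow_lt_top_of_nonneg (by norm_num) ENNReal.ofReal_ne_top
  refine ⟨(c * C) ^ (1 / 2 : ℝ), ENNReal.rpow_lt_top_of_nonneg (by norm_num)
    (ENNReal.mul_lt_top hcf hC).ne, ?_⟩
  intro N f hfm z hz
  rw [AA_eq f hz]
  refine mul_le_mul' le_rfl ?_
  set F : ℂ → ℝ≥0∞ := fun ω => ‖Ph N f z ω‖ₑ * (pw ω) ^ (1 / 2 : ℝ) with hF
  set G : ℂ → ℝ≥0∞ := fun ω => (pw ω) ^ (1 / 2 : ℝ) *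
    (ENNReal.ofReal ‖1 - conj z * ω‖) ^ (-(1 / 4) : ℝ) with hG
  have hFG : ∀ᵐ ω ∂μD, ‖Ph N f z ω‖ₑ *
      (pw ω * (ENNReal.ofReal ‖1 - conj z * ω‖) ^ (-(1 / 4) : ℝ)) = (F * G) ω := by
    filter_upwards [ae_lt] with ω hω
    rw [Pi.mul_apply, hF, hG]
    simp only
    have h1 : pw ω = (pw ω) ^ (1 / 2 : ℝ) * (pw ω) ^ (1 / 2 : ℝ) := by
      rw [← ENNReal.rpow_add_of_nonneg _ _ (by norm_num) (by norm_num)]
      norm_num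
    conv_lhs => rw [h1]
    ring
  rw [lintegral_congr_ae hFG]
  have hm1 : Measurable F := (measurable_Ph hfm z).enorm.mul (measurable_pw.pow_const _)
  have hm2 : Measurable G := by
    refine (measurable_pw.pow_const _).mul ?_
    fun_prop
  refine (ENNReal.lintegral_mul_le_Lp_mul_Lq μD Real.HolderConjugate.two_two hm1.aemeasurable
    hm2.aemeasurable).trans ?_
  refine mul_le_mul' (ENNReal.rpow_le_rpow (le_of_eq ?_) (by norm_num))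
    (ENNReal.rpow_le_rpow ?_ (by norm_num))
  · rw [II]
    refine lintegral_congr fun ω => ?_
    rw [hF]
    simp only
    rw [ENNReal.mul_rpow_of_nonneg _ _ (by norm_num), ← ENNReal.rpow_mul]
    norm_num
  · have hp : ∀ᵐ ω ∂μD, G ω ^ (2 : ℝ) ≤ c * ((ENNReal.ofReal (1 - ‖ω‖ ^ 2)) ^ (-(63 / 64) : ℝ) *
        (ENNReal.ofReal ‖1 - conj z * ω‖) ^ (-(63 / 64) : ℝ)) := by
      filter_upwards [ae_lt] with ω hω
      have hn := norm_one_sub_pos hz hω.le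
      have h0 : ENNReal.ofReal ‖1 - conj z * ω‖ ≠ 0 := (ENNReal.ofReal_pos.2 hn).ne'
      rw [hG]
      simp only
      rw [ENNReal.mul_rpow_of_nonneg _ _ (by norm_num), ← ENNReal.rpow_mul, ← ENNReal.rpow_mul]
      have e1 : pw ω ^ ((1 / 2 : ℝ) * 2) ≤ (ENNReal.ofReal (1 - ‖ω‖ ^ 2)) ^ (-(63 / 64) : ℝ) := by
        rw [pw, ← ENNReal.rpow_mul]
        refine ENNReal.rpow_le_rpow_of_exponent_ge ?_ (by norm_num)
        rw [ENNReal.ofReal_le_one]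
        nlinarith [norm_nonneg ω]
      have e2 : (ENNReal.ofReal ‖1 - conj z * ω‖) ^ (-(1 / 4) * 2 : ℝ) ≤
          c * (ENNReal.ofReal ‖1 - conj z * ω‖) ^ (-(63 / 64) : ℝ) := by
        have e3 : (-(1 / 4) * 2 : ℝ) = 31 / 64 + (-(63 / 64)) := by norm_num
        rw [e3, ENNReal.rpow_add _ _ h0 ENNReal.ofReal_ne_top]
        refine mul_le_mul' (ENNReal.rpow_le_rpow (ENNReal.ofReal_le_ofReal ?_) (by norm_num)) le_rfl
        have h4 := norm_sub_le (1 : ℂ) (conj z * ω)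
        have h5 := norm_conj_mul_lt hz hω.le
        rw [norm_one] at h4
        linarith
      calc _ ≤ _ := mul_le_mul' e1 e2
        _ = _ := by ring
    refine (lintegral_mono_ae hp).trans ?_
    rw [lintegral_const_mul _ (by fun_prop)]
    exact mul_le_mul' le_rfl (hC2 z)

end

end Pool.Agent.R283.PT
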