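import Pool.Agent.R283.PT.Ber

/-!
# Short forms of the definitions
-/

set_option autoImplicit false

open MeasureTheory Complex Set Metric Filter Topology
open scoped ComplexConjugate ENNReal InnerProductSpace

namespace Pool.Agent.R283.PT

noncomputable section

/-- The Hilbert space `L²(D, dA)`. -/
def L2 : Type := Lp ℂ 2 μD

instance L2.n : NormedAddCommGroup L2 := Lp.instNormedAddCommGroup
instance L2.i : InnerProductSpace ℂ L2 := MeasureTheory.L2.innerProductSpace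
instance L2.c : CompleteSpace L2 := inferInstanceAs (CompleteSpace (Lp ℂ 2 μD))

/-- The underlying function of an element of `L²(D, dA)`. -/
def fn (f : L2) : ℂ → ℂ := f.1.cast

lemma PB_add (n : ℕ) {a b : L2} (ha : ∃ g : ℂ → ℂ, IsPoly n g ∧ fn a =ᵐ[μD] g)
    (hb : ∃ g : ℂ → ℂ, IsPoly n g ∧ fn b =ᵐ[μD] g) :
    ∃ g : ℂ → ℂ, IsPoly n g ∧ fn (a + b) =ᵐ[μD] g := (A2 n).add_mem' ha hb

lemma PB_zero (n : ℕ) : ∃ g : ℂ → ℂ, IsPoly n g ∧ fn 0 =ᵐ[μD] g := (A2 n).zero_mem'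

lemma PB_smul (n : ℕ) (c : ℂ) {a : L2} (ha : ∃ g : ℂ → ℂ, IsPoly n g ∧ fn a =ᵐ[μD] g) :
    ∃ g : ℂ → ℂ, IsPoly n g ∧ fn (c • a) =ᵐ[μD] g := (A2 n).smul_mem' c ha

/-- The polyanalytic Bergman space of order `n`: the classes in `L²(D, dA)` of the functions
`∑_{k<n} conj z ^ k h_k(z)` with `h_k` holomorphic on the unit disc. -/
def PolyBergman (n : ℕ) : Submodule ℂ L2 where
  carrier := {f | ∃ g : ℂ → ℂ, IsPoly n g ∧ fn f =ᵐ[μD] g}
  add_mem' := PB_add n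
  zero_mem' := PB_zero n
  smul_mem' := PB_smul n

/-- The polyanalytic Bergman space of order `n` as a Hilbert space. -/
def PB (n : ℕ) : Type := PolyBergman n

instance PB.n (n : ℕ) : NormedAddCommGroup (PB n) := (PolyBergman n).normedAddCommGroup
instance PB.i (n : ℕ) : InnerProductSpace ℂ (PB n) := (PolyBergman n).innerProductSpace

/-- the inclusion -/
def incl {n : ℕ} (g : PB n) : L2 := g.1

/-- `T` is the Toeplitz operator with symbol `f`: `T g = P (f g)` for every `g` in the polyanalytic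
Bergman space, where `P` is the orthogonal projection onto it. That is, `f g - T g` is orthogonal
to the space. -/
def IsToeplitz (n : ℕ) (f : ℂ → ℂ) (T : PB n →L[ℂ] PB n) : Prop :=
  ∀ (g : PB n) (u : L2), (fn u =ᵐ[μD] fun z => f z * fn (incl g) z) →
    ∀ h : PB n, ⟪incl h, u - incl (T g)⟫_ℂ = 0

/-- `K z` is the reproducing kernel at `z`: `g(z) = ⟨g, K z⟩` for every `g` in the space. (The inner
product `⟪x, y⟫` is linear in `y`.) -/
def IsRepKernel (n : ℕ) (K : ℂ → PB n) : Prop :=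
  ∀ z : ℂ, ‖z‖ < 1 → ∀ (f : PB n) (g : ℂ → ℂ), IsPoly n g → fn (incl f) =ᵐ[μD] g →
    ⟪K z, f⟫_ℂ = g z

/-- The Berezin transform `B(T)(z) = ⟨T K_z, K_z⟩ / ⟨K_z, K_z⟩`. -/
def Berezin {n : ℕ} (K : ℂ → PB n) (T : PB n →L[ℂ] PB n) (z : ℂ) : ℂ :=
  ⟪K z, T (K z)⟫_ℂ / ⟪K z, K z⟫_ℂ

/-- bounded measurable function as an element of `L^∞` -/
def toI (f : ℂ → ℂ) (hf : Measurable f) {M : ℝ} (hM : ∀ z, ‖f z‖ ≤ M) : Lp ℂ ∞ μD :=
  (memLp_top_of_bound (μ := μD) hf.aestronglyMeasurable M (Eventually.of_forall hM)).toLp f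

lemma toI_coe (f : ℂ → ℂ) (hf : Measurable f) {M : ℝ} (hM : ∀ z, ‖f z‖ ≤ M) :
    (toI f hf hM : ℂ → ℂ) =ᵐ[μD] f := MemLp.coeFn_toLp _

theorem toeplitz_isToeplitz (N : ℕ) (f : ℂ → ℂ) (hf : Measurable f) {M : ℝ}
    (hM : ∀ z, ‖f z‖ ≤ M) :
    IsToeplitz (N + 1) f (toeplitz N (toI f hf hM)) := by
  intro g u hu
  have h1 : (u : L2) = (mulOp (toI f hf hM) (incl g) : L2) := by
    refine Lp.ext ?_
    have hu' : (show Lp ℂ 2 μD from u : ℂ → ℂ) =ᵐ[μD] fun z => f z * fn (incl g) z := hu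
    filter_upwards [hu', mulOp_coe (toI f hf hM) (show Lp ℂ 2 μD from (incl g)), toI_coe f hf hM]
      with z h1 h2 h3
    rw [h1]
    refine Eq.trans ?_ h2.symm
    rw [h3]
    rfl
  rw [h1]
  intro h
  exact Submodule.sub_starProjection_mem_orthogonal (K := A2 (N + 1))
    (mulOp (toI f hf hM) (show Lp ℂ 2 μD from (incl g))) _ h.2

lemma exists_mul (N : ℕ) {f : ℂ → ℂ} (hf : Measurable f) {M : ℝ}
    (hM : ∀ z, ‖f z‖ ≤ M) (g : PB (N + 1)) :
    ∃ u : L2, fn u =ᵐ[μD] fun z => f z * fn (incl g) z := by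
  refine ⟨mulOp (toI f hf hM) (show Lp ℂ 2 μD from (incl g)), ?_⟩
  filter_upwards [mulOp_coe (toI f hf hM) (show Lp ℂ 2 μD from (incl g)), toI_coe f hf hM]
    with z h2 h3
  refine Eq.trans h2 ?_
  rw [h3]
  rfl

theorem IsToeplitz.unique {N : ℕ} {f : ℂ → ℂ} (hf : Measurable f) {M : ℝ}
    (hM : ∀ z, ‖f z‖ ≤ M) {T T' : PB (N + 1) →L[ℂ] PB (N + 1)}
    (hT : IsToeplitz (N + 1) f T) (hT' : IsToeplitz (N + 1) f T') : T = T' := by
  ext1 g
  obtain ⟨u, hu⟩ := exists_mul N hf hM g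
  have h1 := hT g _ hu
  have h2 := hT' g _ hu
  have h3 : ∀ h : PB (N + 1), ⟪incl h, incl (T g) - incl (T' g)⟫_ℂ = 0 := by
    intro h
    have h4 : incl (T g) - incl (T' g) = (u - incl (T' g)) - (u - incl (T g)) := by abel
    have h5 := inner_sub_right (𝕜 := ℂ) (incl h) (u - incl (T' g)) (u - incl (T g))
    rw [h4]
    exact h5.trans ((congrArg₂ (fun a b : ℂ => a - b) (h2 h) (h1 h)).trans (sub_zero _))
  have h5 := inner_self_eq_zero (𝕜 := ℂ).1 (h3 (T g - T' g))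
  exact Subtype.ext (sub_eq_zero.1 h5)

end

end Pool.Agent.R283.PT
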