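import Pool.Agent.R283.PT.Cov

/-!
# The polyanalytic Bergman space is closed in `L²`; kernel elements
-/

set_option autoImplicit false

open MeasureTheory Complex Set Metric Filter Topology
open scoped ComplexConjugate ENNReal InnerProductSpace

namespace Pool.Agent.R283.PT

noncomputable section

/-- The polyanalytic Bergman space of order `n`: the classes in `L²(D, dA)` of the functions
`∑_{k<n} conj z ^ k h_k(z)` with `h_k` holomorphic on the unit disc. -/
def A2 (n : ℕ) : Submodule ℂ (Lp ℂ 2 μD) where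
  carrier := {f | ∃ g : ℂ → ℂ, IsPoly n g ∧ (f : ℂ → ℂ) =ᵐ[μD] g}
  add_mem' := by
    rintro a b ⟨g, hg, hg2⟩ ⟨k, hk, hk2⟩
    refine ⟨fun z => g z + k z, hg.add hk, ?_⟩
    filter_upwards [Lp.coeFn_add a b, hg2, hk2] with z h1 h2 h3
    rw [h1, Pi.add_apply, h2, h3]
  zero_mem' := ⟨fun _ => 0, IsPoly.zero n, Lp.coeFn_zero ℂ 2 μD⟩
  smul_mem' := by
    rintro c a ⟨g, hg, hg2⟩
    refine ⟨fun z => c * g z, hg.const_mul c, ?_⟩
    filter_upwards [Lp.coeFn_smul c a, hg2] with z h1 h2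
    rw [h1, Pi.smul_apply, h2, smul_eq_mul]

lemma mem_A2 {n : ℕ} {f : Lp ℂ 2 μD} :
    f ∈ A2 n ↔ ∃ g : ℂ → ℂ, IsPoly n g ∧ (f : ℂ → ℂ) =ᵐ[μD] g := Iff.rfl

lemma IsPoly.one_sub_pow_mul {n : ℕ} {f : ℂ → ℂ} (hf : IsPoly n f) (j : ℕ) :
    IsPoly (n + j) (fun w => (1 - w * conj w) ^ j * f w) := by
  induction j with
  | zero => simpa using hf
  | succ j ih =>
    have h4 := ih.mono (Nat.le_succ (n + j))
    have h5 := ih.conj_mul.hol_mul (u := fun w => -w) (differentiableOn_id.neg)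
    exact (h4.add h5).congr fun w _ => by ring

/-- Cauchy type integrals are holomorphic. -/
lemma hol_cauchy {F : ℂ → ℂ} (hF : Integrable F μD) (p : ℕ) :
    DifferentiableOn ℂ (fun z => ∫ w, F w / (1 - conj w * z) ^ p ∂μD) (ball 0 1) := by
  intro z0 hz0
  rw [mem_ball_zero_iff] at hz0
  set ρ : ℝ := (1 + ‖z0‖) / 2 with hρ
  have hρ1 : ρ < 1 := by rw [hρ]; linarith
  have hρ0 : ‖z0‖ < ρ := by rw [hρ]; linarith
  have hnb : ball (0 : ℂ) ρ ∈ 𝓝 z0 := isOpen_ball.mem_nhds (mem_ball_zero_iff.2 hρ0)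
  have hne : ∀ {w z : ℂ}, ‖w‖ < 1 → z ∈ ball (0 : ℂ) ρ → 1 - ρ ≤ ‖1 - conj w * z‖ := by
    intro w z hw hz
    rw [mem_ball_zero_iff] at hz
    have h1 : ‖(1 : ℂ)‖ - ‖conj w * z‖ ≤ ‖1 - conj w * z‖ := norm_sub_norm_le _ _
    rw [norm_one, norm_mul, Complex.norm_conj] at h1
    nlinarith [norm_nonneg z, norm_nonneg w]
  have h := hasDerivAt_integral_of_dominated_loc_of_deriv_le (μ := μD) (𝕜 := ℂ)
    (F := fun z w => F w / (1 - conj w * z) ^ p)
    (F' := fun z w => F w * (p * conj w) / (1 - conj w * z) ^ (p + 1)) (x₀ := z0)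
    (s := ball (0 : ℂ) ρ) (bound := fun w => ‖F w‖ * (p / (1 - ρ) ^ (p + 1))) hnb ?_ ?_ ?_ ?_ ?_ ?_
  · exact h.2.differentiableAt.differentiableWithinAt
  · refine Eventually.of_forall fun z => ?_
    refine hF.aestronglyMeasurable.mul ?_ |>.congr (Eventually.of_forall fun w => (div_eq_mul_inv _ _).symm)
    exact Measurable.aestronglyMeasurable (by fun_prop)
  · have : Integrable (fun w => F w * (1 / (1 - conj w * z0) ^ p)) μD := by
      refine Integrable.mul_bdd (c := 1 / (1 - ρ) ^ p) hF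
        (Measurable.aestronglyMeasurable (by fun_prop)) ?_
      filter_upwards [ae_lt] with w hw
      have h1 := hne hw (mem_ball_zero_iff.2 hρ0)
      rw [norm_div, norm_one, norm_pow]
      have : 0 < 1 - ρ := by linarith
      gcongr
    exact this.congr (Eventually.of_forall fun w => by simp only; ring)
  · refine hF.aestronglyMeasurable.mul (g := fun w => (p * conj w) / (1 - conj w * z0) ^ (p + 1)) ?_
      |>.congr (Eventually.of_forall fun w => ?_)
    · exact Measurable.aestronglyMeasurable (by fun_prop)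
    · show F w * ((p * conj w) / (1 - conj w * z0) ^ (p + 1)) = _
      ring
  · filter_upwards [ae_lt] with w hw z hz
    have h1 := hne hw hz
    have h0 : 0 < 1 - ρ := by linarith
    rw [norm_div, norm_mul, norm_mul, norm_pow, Complex.norm_conj, Complex.norm_natCast, mul_div_assoc]
    gcongr
    exact mul_le_of_le_one_right (by positivity) hw.le
  · exact hF.norm.mul_const _
  · filter_upwards [ae_lt] with w hw z hz
    have h1 := hne hw hz
    have h0 : 0 < 1 - ρ := by linarith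
    have hn : 1 - conj w * z ≠ 0 := norm_pos_iff.1 (h0.trans_le h1)
    have d1 : HasDerivAt (fun z : ℂ => 1 - conj w * z) (-(conj w)) z := by
      simpa using ((hasDerivAt_id z).const_mul (conj w)).const_sub 1
    have d2 := ((d1.pow p).inv (pow_ne_zero p hn)).const_mul (F w)
    have e1 : (fun z => F w / (1 - conj w * z) ^ p) = fun z => F w * ((1 - conj w * z) ^ p)⁻¹ := by
      funext z; rw [div_eq_mul_inv]
    rw [e1]
    refine d2.congr_deriv ?_
    cases p with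
    | zero => simp
    | succ p =>
      simp only [Nat.add_sub_cancel, Pi.pow_apply]
      generalize 1 - conj w * z = A at *
      generalize conj w = c at *
      rw [pow_succ A (p + 1), pow_succ A p]
      field_simp

/-- The integral against the kernel is polyanalytic. -/
lemma isPoly_proj {N : ℕ} {f : ℂ → ℂ} (hf : Integrable f μD) :
    IsPoly (N + 1) (fun z => ∫ w, f w * conj (Kf N z w) ∂μD) := by
  set U : ℕ → ℕ → ℂ → ℂ := fun k j z => ∫ w, (f w * ((1 - w * conj w) ^ k * (-w) ^ j)) /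
    (1 - conj w * z) ^ (N + 2 + k) ∂μD with hU
  have hint : ∀ k j, Integrable (fun w => f w * ((1 - w * conj w) ^ k * (-w) ^ j)) μD := by
    intro k j
    refine Integrable.mul_bdd (c := 1) hf (Measurable.aestronglyMeasurable (by fun_prop)) ?_
    filter_upwards [ae_lt] with w hw
    rw [norm_mul, norm_pow, norm_pow, norm_neg]
    have h1 : ‖1 - w * conj w‖ ≤ 1 := by
      rw [← sq_norm_eq]
      rw [show (1 : ℂ) - ((‖w‖ ^ 2 : ℝ) : ℂ) = ((1 - ‖w‖ ^ 2 : ℝ) : ℂ) by push_cast; ring,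
        Complex.norm_real, Real.norm_of_nonneg (one_sub_sq_pos hw).le]
      nlinarith [norm_nonneg w]
    exact mul_le_one₀ (pow_le_one₀ (norm_nonneg _) h1) (by positivity)
      (pow_le_one₀ (norm_nonneg _) hw.le)
  have hUhol : ∀ k j, DifferentiableOn ℂ (U k j) (ball 0 1) := fun k j => hol_cauchy (hint k j) _
  have hterm : ∀ k ∈ Finset.range (N + 1), IsPoly (N + 1) (fun z =>
      ∑ j ∈ Finset.range (N - k + 1), ((kap N k * ((N - k).choose j : ℝ) : ℝ) : ℂ) *
        ((1 - z * conj z) ^ k * ((0 + 1 * conj z) ^ j * U k j z))) := by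
    intro k hk
    have hk' : k ≤ N := Nat.lt_succ_iff.1 (Finset.mem_range.1 hk)
    refine IsPoly.sum _ fun j hj => ?_
    have hj' : j ≤ N - k := Nat.lt_succ_iff.1 (Finset.mem_range.1 hj)
    have h1 := ((IsPoly.hol (hUhol k j)).affine_pow_mul 0 1 j).one_sub_pow_mul k
    exact (h1.mono (by omega)).const_mul _
  refine (IsPoly.sum _ hterm).congr fun z hz => ?_
  rw [mem_ball_zero_iff] at hz
  have key : ∀ᵐ w ∂μD, f w * conj (Kf N z w) = ∑ k ∈ Finset.range (N + 1),
      ∑ j ∈ Finset.range (N - k + 1), (((kap N k * ((N - k).choose j : ℝ) : ℝ) : ℂ) *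
        ((1 - z * conj z) ^ k * (0 + 1 * conj z) ^ j)) *
        ((f w * ((1 - w * conj w) ^ k * (-w) ^ j)) / (1 - conj w * z) ^ (N + 2 + k)) := by
    filter_upwards [ae_lt] with w hw
    rw [Kf_conj, Kf_eq hw hz.le, Finset.mul_sum]
    refine Finset.sum_congr rfl fun k hk => ?_
    have e : (1 - w * conj z) ^ (N - k) = ∑ j ∈ Finset.range (N - k + 1),
        (-(w * conj z)) ^ j * 1 ^ (N - k - j) * ((N - k).choose j : ℂ) := by
      rw [← add_pow]; ring
    rw [e, Finset.mul_sum, Finset.sum_div, Finset.mul_sum]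
    refine Finset.sum_congr rfl fun j hj => ?_
    push_cast
    rw [one_pow, neg_pow, neg_pow w j, mul_pow]
    ring
  show ∫ w, f w * conj (Kf N z w) ∂μD = _
  rw [integral_congr_ae key]
  have hint2 : ∀ k j, Integrable (fun w => (f w * ((1 - w * conj w) ^ k * (-w) ^ j)) /
      (1 - conj w * z) ^ (N + 2 + k)) μD := by
    intro k j
    have : Integrable (fun w => (f w * ((1 - w * conj w) ^ k * (-w) ^ j)) *
        (1 / (1 - conj w * z) ^ (N + 2 + k))) μD := by
      refine Integrable.mul_bdd (c := 1 / (1 - ‖z‖) ^ (N + 2 + k)) (hint k j)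
        (Measurable.aestronglyMeasurable (by fun_prop)) ?_
      filter_upwards [ae_lt] with w hw
      have h1 : 1 - ‖z‖ ≤ ‖1 - conj w * z‖ := by
        have h1 : ‖(1 : ℂ)‖ - ‖conj w * z‖ ≤ ‖1 - conj w * z‖ := norm_sub_norm_le _ _
        rw [norm_one, norm_mul, Complex.norm_conj] at h1
        nlinarith [norm_nonneg z, norm_nonneg w]
      rw [norm_div, norm_one, norm_pow]
      have : 0 < 1 - ‖z‖ := by linarith
      gcongr
    exact this.congr (Eventually.of_forall fun w => by simp only; ring)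
  rw [integral_finsetSum _ fun k _ => integrable_finsetSum _ fun j _ => (hint2 k j).const_mul _]
  refine Finset.sum_congr rfl fun k _ => ?_
  rw [integral_finsetSum _ fun j _ => (hint2 k j).const_mul _]
  refine Finset.sum_congr rfl fun j _ => ?_
  rw [integral_const_mul, hU]
  ring

lemma Kf_bdd (N : ℕ) {z : ℂ} (hz : ‖z‖ < 1) : ∃ C : ℝ, 0 ≤ C ∧ ∀ᵐ w ∂μD, ‖Kf N z w‖ ≤ C := by
  obtain ⟨C, hC0, hC⟩ := Qk_bound N
  have h0 : 0 < 1 - ‖z‖ := by linarith
  refine ⟨C / (1 - ‖z‖) ^ 2, by positivity, ?_⟩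
  filter_upwards [ae_lt] with w hw
  exact norm_Kf_le' hC0 hC hz hw

lemma memLp_Kf (N : ℕ) {z : ℂ} (hz : ‖z‖ < 1) (p : ℝ≥0∞) : MemLp (Kf N z) p μD := by
  obtain ⟨C, -, hC⟩ := Kf_bdd N hz
  exact MemLp.of_bound (measurable_Kf_right N z).aestronglyMeasurable C hC

lemma integrable_of_Lp (f : Lp ℂ 2 μD) : Integrable (f : ℂ → ℂ) μD :=
  (Lp.memLp f).integrable (by norm_num)

lemma integrable_mul_Kf {N : ℕ} {f : ℂ → ℂ} (hf : Integrable f μD) {z : ℂ} (hz : ‖z‖ < 1) :
    Integrable (fun w => f w * conj (Kf N z w)) μD := by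
  obtain ⟨C, -, hC⟩ := Kf_bdd N hz
  refine Integrable.mul_bdd (c := C) hf ?_ ?_
  · exact (Complex.continuous_conj.measurable.comp (measurable_Kf_right N z)).aestronglyMeasurable
  · filter_upwards [hC] with w hw
    rwa [Complex.norm_conj]

/-- the kernel function as an element of `L²` -/
def kE (N : ℕ) (z : ℂ) : Lp ℂ 2 μD :=
  if hz : ‖z‖ < 1 then (memLp_Kf N hz 2).toLp (Kf N z) else 0

lemma kE_coe {N : ℕ} {z : ℂ} (hz : ‖z‖ < 1) : (kE N z : ℂ → ℂ) =ᵐ[μD] Kf N z := by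
  rw [kE, dif_pos hz]
  exact MemLp.coeFn_toLp _

lemma kE_mem (N : ℕ) (z : ℂ) : kE N z ∈ A2 (N + 1) := by
  by_cases hz : ‖z‖ < 1
  · exact ⟨Kf N z, isPoly_Kf hz, kE_coe hz⟩
  · rw [kE, dif_neg hz]
    exact Submodule.zero_mem _

lemma inner_kE {N : ℕ} {z : ℂ} (hz : ‖z‖ < 1) (f : Lp ℂ 2 μD) :
    ⟪kE N z, f⟫_ℂ = ∫ w, f w * conj (Kf N z w) ∂μD := by
  rw [L2.inner_def]
  refine integral_congr_ae ?_
  filter_upwards [kE_coe (N := N) hz] with w hw
  rw [hw]
  simp [RCLike.inner_apply]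

/-- reproducing property in the Hilbert space -/
lemma inner_kE_eq {N : ℕ} {z : ℂ} (hz : ‖z‖ < 1) {f : Lp ℂ 2 μD} {g : ℂ → ℂ}
    (hg : IsPoly (N + 1) g) (hfg : (f : ℂ → ℂ) =ᵐ[μD] g) : ⟪kE N z, f⟫_ℂ = g z := by
  rw [inner_kE hz, ← rep hg ((integrable_of_Lp f).congr hfg) hz]
  refine integral_congr_ae ?_
  filter_upwards [hfg] with w hw
  rw [hw]

/-- `A2 (N+1)` is closed -/
theorem isClosed_A2 (N : ℕ) : IsClosed ((A2 (N + 1) : Submodule ℂ (Lp ℂ 2 μD)) : Set (Lp ℂ 2 μD)) := by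
  refine IsSeqClosed.isClosed ?_
  intro u f hu hf
  refine ⟨fun z => ∫ w, f w * conj (Kf N z w) ∂μD, isPoly_proj (integrable_of_Lp f), ?_⟩
  choose g hg hg2 using hu
  have h1 : ∀ z, ‖z‖ < 1 → Tendsto (fun n => g n z) atTop
      (𝓝 (∫ w, f w * conj (Kf N z w) ∂μD)) := by
    intro z hz
    rw [← inner_kE hz]
    have h2 : Tendsto (fun n => ⟪kE N z, u n⟫_ℂ) atTop (𝓝 ⟪kE N z, f⟫_ℂ) :=
      tendsto_const_nhds.inner hf
    refine h2.congr fun n => ?_
    exact inner_kE_eq hz (hg n) (hg2 n)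
  have h3 := tendstoInMeasure_of_tendsto_Lp hf
  obtain ⟨ms, hms⟩ := h3.exists_seq_tendsto_ae
  have h4 : ∀ᵐ z ∂μD, ∀ n, (u n : ℂ → ℂ) z = g n z := ae_all_iff.2 hg2
  filter_upwards [hms.2, h4, ae_lt] with z hz1 hz2 hz3
  have h5 := (h1 z hz3).comp hms.1.tendsto_atTop
  refine tendsto_nhds_unique hz1 (h5.congr fun k => ?_)
  exact (hz2 (ms k)).symm

end

end Pool.Agent.R283.PT
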