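import Pool.Agent.R283.PT.WDefs

/-!
# Part W: covariance, boundedness, continuity of the weighted Berezin transforms
-/

set_option autoImplicit false

open MeasureTheory Complex Set Metric Filter Topology
open scoped ComplexConjugate ENNReal

namespace Pool.Agent.R283.PT
namespace W

noncomputable section

lemma sq_le {z : ℂ} (hz : ‖z‖ ≤ 1) : 0 ≤ 1 - ‖z‖ ^ 2 := by nlinarith [norm_nonneg z]

lemma kk_nonneg (j : ℕ) {z w : ℂ} (hz : ‖z‖ ≤ 1) (hw : ‖w‖ ≤ 1) : 0 ≤ kk j z w := by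
  unfold kk
  have h1 := sq_le hz
  have h2 := sq_le hw
  positivity

lemma kk_eq (j : ℕ) {z w : ℂ} (hz : ‖z‖ < 1) (hw : ‖w‖ < 1) :
    kk j z w = jac z w * (((j : ℝ) + 1) * (1 - ‖phi z w‖ ^ 2) ^ j) := by
  rw [norm_phi_sq hz hw.le, kk, jac]
  have h := norm_one_sub_pos hz hw.le
  generalize ‖1 - conj z * w‖ = t at h
  rw [div_pow, mul_pow]
  field_simp
  ring

lemma kk_phi (j : ℕ) {a z w : ℂ} (ha : ‖a‖ < 1) (hz : ‖z‖ < 1) (hw : ‖w‖ < 1) :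
    jac a w * kk j (phi a z) (phi a w) = kk j z w := by
  have h1 := norm_phi_sq ha hz.le
  have h2 := norm_phi_sq ha hw.le
  have h3 := norm_one_sub_phi_phi ha hz.le hw.le
  rw [kk, h1, h2, h3, kk, jac]
  have h4 := norm_one_sub_pos hz hw.le
  have h5 := norm_one_sub_pos ha hz.le
  have h6 := norm_one_sub_pos ha hw.le
  have h7 := one_sub_sq_pos ha
  generalize ‖1 - conj z * w‖ = t at *
  generalize ‖1 - conj a * z‖ = p at *
  generalize ‖1 - conj a * w‖ = q at *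
  generalize (1 - ‖a‖ ^ 2) = A at *
  generalize (1 - ‖z‖ ^ 2) = Z at *
  generalize (1 - ‖w‖ ^ 2) = V at *
  rw [div_pow, div_pow, div_pow, mul_pow, mul_pow, mul_pow, mul_pow]
  field_simp
  ring

/-- covariance -/
lemma uu_phi (j : ℕ) (g : ℂ → ℂ) {a z : ℂ} (ha : ‖a‖ < 1) (hz : ‖z‖ < 1) :
    uu j (fun w => g (phi a w)) z = uu j g (phi a z) := by
  rw [uu, uu, ← integral_phi ha (fun w => g w * (kk j (phi a z) w : ℂ))]
  refine integral_congr_ae ?_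
  filter_upwards [ae_lt] with w hw
  rw [← kk_phi j ha hz hw, Complex.real_smul]
  push_cast
  ring

lemma kk_integrable (j : ℕ) {z : ℂ} (hz : ‖z‖ < 1) : Integrable (fun w => kk j z w) μD := by
  have h : Integrable (fun w : ℂ => ((j : ℝ) + 1) * (1 - ‖w‖ ^ 2) ^ j) μD := by
    refine Integrable.mono' (integrable_const ((j : ℝ) + 1)) ?_ ?_
    · exact (by fun_prop : Continuous fun w : ℂ => ((j : ℝ) + 1) * (1 - ‖w‖ ^ 2) ^ j).aestronglyMeasurable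
    · filter_upwards [ae_lt] with w hw
      have h1 := sq_le hw.le
      have h2 : (1 - ‖w‖ ^ 2) ^ j ≤ 1 := pow_le_one₀ h1 (by nlinarith [norm_nonneg w])
      rw [Real.norm_of_nonneg (by positivity)]
      nlinarith [(by positivity : (0:ℝ) ≤ (j : ℝ) + 1)]
  refine ((integrable_phi hz _).2 h).congr ?_
  filter_upwards [ae_lt] with w hw
  rw [kk_eq j hz hw, smul_eq_mul]

lemma integral_kk_le (j : ℕ) {z : ℂ} (hz : ‖z‖ < 1) : ∫ w, kk j z w ∂μD ≤ (j : ℝ) + 1 := by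
  have e : ∫ w, kk j z w ∂μD = ∫ w : ℂ, ((j : ℝ) + 1) * (1 - ‖w‖ ^ 2) ^ j ∂μD := by
    rw [← integral_phi hz (fun w : ℂ => ((j : ℝ) + 1) * (1 - ‖w‖ ^ 2) ^ j)]
    refine integral_congr_ae ?_
    filter_upwards [ae_lt] with w hw
    rw [kk_eq j hz hw, smul_eq_mul]
  rw [e]
  have h0 : ∫ _ : ℂ, ((j : ℝ) + 1) ∂μD = (j : ℝ) + 1 := by simp
  rw [← h0]
  refine integral_mono_of_nonneg ?_ (integrable_const _) ?_
  · filter_upwards [ae_lt] with w hw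
    have h1 := sq_le hw.le
    simp only [Pi.zero_apply]
    positivity
  · filter_upwards [ae_lt] with w hw
    have h1 := sq_le hw.le
    have h2 : (1 - ‖w‖ ^ 2) ^ j ≤ 1 := pow_le_one₀ h1 (by nlinarith [norm_nonneg w])
    nlinarith [(by positivity : (0:ℝ) ≤ (j : ℝ) + 1)]

lemma kk_meas (j : ℕ) (z : ℂ) : Measurable (fun w => kk j z w) := by
  unfold kk; fun_prop

lemma kk_meas2 (j : ℕ) : Measurable (fun p : ℂ × ℂ => kk j p.1 p.2) := by
  unfold kk; fun_prop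

lemma M_nonneg {g : ℂ → ℂ} {M : ℝ} (hM : ∀ᵐ z ∂μD, ‖g z‖ ≤ M) : 0 ≤ M := by
  obtain ⟨z, hz⟩ := hM.exists
  exact (norm_nonneg _).trans hz

lemma norm_uu_le (j : ℕ) {g : ℂ → ℂ} {M : ℝ} (hM : ∀ᵐ z ∂μD, ‖g z‖ ≤ M) {z : ℂ} (hz : ‖z‖ < 1) :
    ‖uu j g z‖ ≤ M * ((j : ℝ) + 1) := by
  have h1 : ‖uu j g z‖ ≤ ∫ w, M * kk j z w ∂μD := by
    refine norm_integral_le_of_norm_le ((kk_integrable j hz).const_mul M) ?_
    filter_upwards [ae_lt, hM] with w hw hw2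
    rw [norm_mul, Complex.norm_real, Real.norm_of_nonneg (kk_nonneg j hz.le hw.le)]
    exact mul_le_mul_of_nonneg_right hw2 (kk_nonneg j hz.le hw.le)
  rw [integral_const_mul] at h1
  exact h1.trans (mul_le_mul_of_nonneg_left (integral_kk_le j hz) (M_nonneg hM))

lemma kk_le (j : ℕ) {ρ : ℝ} (hρ : ρ < 1) {z w : ℂ} (hz : ‖z‖ ≤ ρ) (hw : ‖w‖ < 1) :
    kk j z w ≤ ((j : ℝ) + 1) / (1 - ρ) ^ (2 * j + 4) := by
  have hz1 : ‖z‖ < 1 := lt_of_le_of_lt hz hρ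
  have h1 := sq_le hz1.le
  have h2 := sq_le hw.le
  have h3 : (1 - ‖w‖ ^ 2) ^ j ≤ 1 := pow_le_one₀ h2 (by nlinarith [norm_nonneg w])
  have h4 : (1 - ‖z‖ ^ 2) ^ (j + 2) ≤ 1 := pow_le_one₀ h1 (by nlinarith [norm_nonneg z])
  have h5 : 1 - ρ ≤ ‖1 - conj z * w‖ := by
    have h6 : ‖(1 : ℂ)‖ - ‖conj z * w‖ ≤ ‖1 - conj z * w‖ := norm_sub_norm_le _ _
    have h7 : ‖conj z * w‖ ≤ ρ := by
      rw [norm_mul, Complex.norm_conj]
      nlinarith [norm_nonneg z, norm_nonneg w]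
    rw [norm_one] at h6
    linarith
  have h8 : 0 < 1 - ρ := by linarith
  rw [kk]
  have h9 : ((j : ℝ) + 1) * (1 - ‖z‖ ^ 2) ^ (j + 2) * (1 - ‖w‖ ^ 2) ^ j ≤ (j : ℝ) + 1 := by
    have : (1 - ‖z‖ ^ 2) ^ (j + 2) * (1 - ‖w‖ ^ 2) ^ j ≤ 1 :=
      mul_le_one₀ h4 (by positivity) h3
    nlinarith [(by positivity : (0:ℝ) ≤ (j : ℝ) + 1)]
  exact div_le_div₀ (by positivity) h9 (by positivity) (pow_le_pow_left₀ h8.le h5 _)

lemma continuousAt_uu (j : ℕ) {g : ℂ → ℂ} {M : ℝ} (hg : AEStronglyMeasurable g μD)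
    (hM : ∀ᵐ z ∂μD, ‖g z‖ ≤ M) {z₀ : ℂ} (hz : ‖z₀‖ < 1) : ContinuousAt (uu j g) z₀ := by
  set ρ : ℝ := (1 + ‖z₀‖) / 2 with hρ
  have hρ1 : ρ < 1 := by rw [hρ]; linarith
  have hev : ∀ᶠ z in 𝓝 z₀, ‖z‖ ≤ ρ := by
    have h1 : ∀ᶠ z in 𝓝 z₀, ‖z‖ < ρ := by
      refine (continuous_norm.tendsto z₀).eventually (gt_mem_nhds ?_)
      rw [hρ]; linarith
    exact h1.mono fun z hz => hz.le
  refine continuousAt_of_dominated (bound := fun _ => M * (((j : ℝ) + 1) / (1 - ρ) ^ (2 * j + 4)))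
    ?_ ?_ (integrable_const _) ?_
  · refine Eventually.of_forall fun z => ?_
    exact hg.mul (Complex.measurable_ofReal.comp (kk_meas j z)).aestronglyMeasurable
  · filter_upwards [hev] with z hz2
    filter_upwards [ae_lt, hM] with w hw hw2
    have hn := kk_nonneg j (hz2.trans hρ1.le) hw.le
    rw [norm_mul, Complex.norm_real, Real.norm_of_nonneg hn]
    exact mul_le_mul hw2 (kk_le j hρ1 hz2 hw) hn (M_nonneg hM)
  · filter_upwards [ae_lt] with w hw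
    refine continuousAt_const.mul ?_
    refine Complex.continuous_ofReal.continuousAt.comp ?_
    unfold kk
    refine ContinuousAt.div (by fun_prop) (by fun_prop) ?_
    exact pow_ne_zero _ (norm_one_sub_pos hz hw.le).ne'

lemma continuousOn_uu (j : ℕ) {g : ℂ → ℂ} {M : ℝ} (hg : AEStronglyMeasurable g μD)
    (hM : ∀ᵐ z ∂μD, ‖g z‖ ≤ M) : ContinuousOn (uu j g) (ball 0 1) := fun z hz =>
  (continuousAt_uu j hg hM (mem_ball_zero_iff.1 hz)).continuousWithinAt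

lemma aesm_of_continuousOn {f : ℂ → ℂ} (hf : ContinuousOn f (ball 0 1)) :
    AEStronglyMeasurable f μD := by
  rw [μD]
  exact (hf.aestronglyMeasurable measurableSet_ball).smul_measure _

lemma comp_phi_aesm {g : ℂ → ℂ} (hg : AEStronglyMeasurable g μD) {a : ℂ} (ha : ‖a‖ < 1) :
    AEStronglyMeasurable (fun w => g (phi a w)) μD :=
  hg.comp_quasiMeasurePreserving (qmp_phi ha)

lemma comp_phi_bd {g : ℂ → ℂ} {M : ℝ} (hM : ∀ᵐ z ∂μD, ‖g z‖ ≤ M) {a : ℂ} (ha : ‖a‖ < 1) :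
    ∀ᵐ z ∂μD, ‖g (phi a z)‖ ≤ M := (qmp_phi ha).ae hM

end

end W
end Pool.Agent.R283.PT
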