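import Pool.Agent.R283.PT.W1

/-!
# Part W: Fubini, the commutation identity, the key lemma, the induction on the degree
-/

set_option autoImplicit false

open MeasureTheory Complex Set Metric Filter Topology
open scoped ComplexConjugate ENNReal

namespace Pool.Agent.R283.PT
namespace W

noncomputable section

lemma c_ne : ENNReal.ofReal (1 / Real.pi) ≠ 0 := by
  rw [Ne, ENNReal.ofReal_eq_zero, not_le]
  exact one_div_pos.2 Real.pi_pos

lemma rad_integrable {σ : ℝ} (hσ : -1 < σ) : Integrable (fun w : ℂ => (1 - ‖w‖ ^ 2) ^ σ) μD := by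
  rw [μD, integrable_smul_measure c_ne ENNReal.ofReal_ne_top, ← IntegrableOn,
    integrableOn_fun_norm_addHaar volume (f := fun y : ℝ => (1 - y ^ 2) ^ σ),
    Complex.finrank_real_complex]
  have h : IntegrableOn (fun y : ℝ => 2 * (σ + 1) * (y * (1 - y ^ 2) ^ σ)) (Ioc 0 1) := by
    refine intervalIntegral.integrableOn_deriv_of_nonneg
      (g := fun y : ℝ => -(1 - y ^ 2) ^ (σ + 1)) ?_ ?_ ?_
    · exact (ContinuousOn.rpow_const (by fun_prop) (fun y _ => Or.inr (by linarith))).neg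
    · intro y hy
      have h1 : 0 < 1 - y ^ 2 := by nlinarith [hy.1, hy.2]
      have h2 : HasDerivAt (fun y : ℝ => 1 - y ^ 2) (-(2 * y)) y := by
        simpa using ((hasDerivAt_id y).pow 2).const_sub 1
      have h3 := (h2.rpow_const (p := σ + 1) (Or.inl h1.ne')).neg
      refine HasDerivAt.congr_deriv h3 ?_
      rw [add_sub_cancel_right]
      ring
    · intro y hy
      have h1 : 0 < 1 - y ^ 2 := by nlinarith [hy.1, hy.2]
      have h2 : 0 < σ + 1 := by linarith
      have h3 := hy.1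
      positivity
  have h2 := (h.mono_set Ioo_subset_Ioc_self).const_mul (1 / (2 * (σ + 1)))
  refine IntegrableOn.congr_fun h2 ?_ measurableSet_Ioo
  intro y _
  have h2 : σ + 1 ≠ 0 := by linarith
  simp only [smul_eq_mul, show (2 : ℕ) - 1 = 1 from rfl, pow_one]
  field_simp

/-- the weight `(m+1)(1-|w|²)^m` -/
def wt (m w : ℂ) : ℂ := (m + 1) * ((1 - ‖w‖ ^ 2 : ℝ) : ℂ) ^ m

lemma wt_norm (m : ℂ) {w : ℂ} (hw : ‖w‖ < 1) : ‖wt m w‖ = ‖m + 1‖ * (1 - ‖w‖ ^ 2) ^ m.re := by
  rw [wt, norm_mul, Complex.norm_cpow_eq_rpow_re_of_pos (one_sub_sq_pos hw)]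

lemma wt_meas (m : ℂ) : Measurable (wt m) := by
  unfold wt
  exact measurable_const.mul (Measurable.pow_const (by fun_prop) m)

lemma wt_integrable {m : ℂ} (hm : -1 < m.re) : Integrable (wt m) μD := by
  refine Integrable.mono' ((rad_integrable hm).const_mul ‖m + 1‖) (wt_meas m).aestronglyMeasurable ?_
  filter_upwards [ae_lt] with w hw
  rw [wt_norm m hw]

/-- `T_m f` -/
def TT (m : ℂ) (f : ℂ → ℂ) : ℂ := ∫ w, wt m w * f w ∂μD

lemma HH_eq (m : ℂ) (l : ℕ) (ζ : ℂ) : HH m l ζ = ∫ w, wt m w * (kk l w ζ : ℂ) ∂μD := rfl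

lemma gkk_integrable (j : ℕ) {g : ℂ → ℂ} {M : ℝ} (hg : AEStronglyMeasurable g μD)
    (hM : ∀ᵐ z ∂μD, ‖g z‖ ≤ M) {z : ℂ} (hz : ‖z‖ < 1) :
    Integrable (fun w => g w * (kk j z w : ℂ)) μD := by
  refine Integrable.mono' ((kk_integrable j hz).const_mul M)
    (hg.mul (Complex.measurable_ofReal.comp (kk_meas j z)).aestronglyMeasurable) ?_
  filter_upwards [ae_lt, hM] with w hw hw2
  rw [norm_mul, Complex.norm_real, Real.norm_of_nonneg (kk_nonneg j hz.le hw.le)]
  exact mul_le_mul_of_nonneg_right hw2 (kk_nonneg j hz.le hw.le)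

lemma fub {m : ℂ} (hm : -1 < m.re) (l : ℕ) {g : ℂ → ℂ} {M : ℝ} (hg : AEStronglyMeasurable g μD)
    (hM : ∀ᵐ z ∂μD, ‖g z‖ ≤ M) :
    Integrable (fun ζ => g ζ * HH m l ζ) μD ∧ TT m (uu l g) = ∫ ζ, g ζ * HH m l ζ ∂μD := by
  have hF : Integrable (fun p : ℂ × ℂ => wt m p.1 * (g p.2 * (kk l p.1 p.2 : ℂ)))
      (μD.prod μD) := by
    have hmeas : AEStronglyMeasurable
        (fun p : ℂ × ℂ => wt m p.1 * (g p.2 * (kk l p.1 p.2 : ℂ))) (μD.prod μD) := by
      refine AEStronglyMeasurable.mul ?_ (AEStronglyMeasurable.mul ?_ ?_)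
      · exact ((wt_meas m).comp measurable_fst).aestronglyMeasurable
      · exact hg.comp_snd
      · exact (Complex.measurable_ofReal.comp (kk_meas2 l)).aestronglyMeasurable
    rw [integrable_prod_iff hmeas]
    constructor
    · filter_upwards [ae_lt] with w hw
      exact (gkk_integrable l hg hM hw).const_mul (wt m w)
    · refine Integrable.mono' ((rad_integrable hm).const_mul (‖m + 1‖ * (M * ((l : ℝ) + 1)))) ?_ ?_
      · exact hmeas.norm.integral_prod_right'
      · filter_upwards [ae_lt] with w hw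
        have h1 : 0 ≤ ∫ ζ, ‖wt m w * (g ζ * (kk l w ζ : ℂ))‖ ∂μD :=
          integral_nonneg fun _ => norm_nonneg _
        rw [Real.norm_of_nonneg h1]
        have h2 : ∫ ζ, ‖wt m w * (g ζ * (kk l w ζ : ℂ))‖ ∂μD ≤
            ∫ ζ, ‖wt m w‖ * (M * kk l w ζ) ∂μD := by
          refine integral_mono_ae ?_ (((kk_integrable l hw).const_mul M).const_mul _) ?_
          · exact ((gkk_integrable l hg hM hw).const_mul (wt m w)).norm
          · filter_upwards [ae_lt, hM] with ζ hζ hζ2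
            rw [norm_mul, norm_mul, Complex.norm_real, Real.norm_of_nonneg (kk_nonneg l hw.le hζ.le)]
            exact mul_le_mul_of_nonneg_left
              (mul_le_mul_of_nonneg_right hζ2 (kk_nonneg l hw.le hζ.le)) (norm_nonneg _)
        refine h2.trans ?_
        rw [integral_const_mul, integral_const_mul, wt_norm m hw]
        have h3 := integral_kk_le l hw
        have h4 := M_nonneg hM
        have h5 : 0 ≤ (1 - ‖w‖ ^ 2) ^ m.re := Real.rpow_nonneg (one_sub_sq_pos hw).le _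
        calc ‖m + 1‖ * (1 - ‖w‖ ^ 2) ^ m.re * (M * ∫ ζ, kk l w ζ ∂μD)
            ≤ ‖m + 1‖ * (1 - ‖w‖ ^ 2) ^ m.re * (M * ((l : ℝ) + 1)) := by
              refine mul_le_mul_of_nonneg_left (mul_le_mul_of_nonneg_left h3 h4) (by positivity)
          _ = ‖m + 1‖ * (M * ((l : ℝ) + 1)) * (1 - ‖w‖ ^ 2) ^ m.re := by ring
  have hin : ∀ ζ : ℂ, ∫ w, wt m w * (g ζ * (kk l w ζ : ℂ)) ∂μD = g ζ * HH m l ζ := by
    intro ζ
    rw [HH_eq, ← integral_const_mul]
    refine integral_congr_ae (Eventually.of_forall fun w => ?_)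
    ring
  constructor
  · refine hF.integral_prod_right.congr (Eventually.of_forall fun ζ => ?_)
    exact hin ζ
  · rw [TT]
    have h1 : ∀ w : ℂ, wt m w * uu l g w = ∫ ζ, wt m w * (g ζ * (kk l w ζ : ℂ)) ∂μD := by
      intro w
      rw [integral_const_mul, uu]
    simp_rw [h1]
    rw [integral_integral_swap (f := fun w ζ => wt m w * (g ζ * (kk l w ζ : ℂ))) hF]
    simp_rw [hin]

lemma TT_X (hA : StmtWA) {m : ℂ} (hm : -1 < m.re) (l : ℕ) {g : ℂ → ℂ} {M : ℝ}
    (hg : AEStronglyMeasurable g μD) (hM : ∀ᵐ z ∂μD, ‖g z‖ ≤ M) :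
    (m + 1) * (m + 2) * (TT (m + 1) (uu l g) - TT m (uu l g)) =
      ((l : ℂ) + 1) * ((l : ℂ) + 2) * (TT m (uu (l + 1) g) - TT m (uu l g)) := by
  obtain ⟨i1, e1⟩ := fub (m := m + 1) (by simp only [add_re, one_re]; linarith) l hg hM
  obtain ⟨i2, e2⟩ := fub hm l hg hM
  obtain ⟨i3, e3⟩ := fub hm (l + 1) hg hM
  rw [e1, e2, e3, ← integral_sub i1 i2, ← integral_sub i3 i2, ← integral_const_mul,
    ← integral_const_mul]
  refine integral_congr_ae ?_
  filter_upwards [ae_lt] with ζ hζ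
  have := hA m l ζ hm hζ
  linear_combination g ζ * this

lemma wt_mul_integrable {m : ℂ} (hm : -1 < m.re) {f : ℂ → ℂ} {B : ℝ}
    (hf : AEStronglyMeasurable f μD) (hB : ∀ᵐ z ∂μD, ‖f z‖ ≤ B) :
    Integrable (fun w => wt m w * f w) μD := by
  refine Integrable.mono' ((wt_integrable hm).norm.mul_const B)
    ((wt_meas m).aestronglyMeasurable.mul hf) ?_
  filter_upwards [hB] with w hw
  rw [norm_mul]
  exact mul_le_mul_of_nonneg_left hw (norm_nonneg _)

lemma wt_uu_integrable {m : ℂ} (hm : -1 < m.re) (l : ℕ) {g : ℂ → ℂ} {M : ℝ}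
    (hg : AEStronglyMeasurable g μD) (hM : ∀ᵐ z ∂μD, ‖g z‖ ≤ M) :
    Integrable (fun w => wt m w * uu l g w) μD := by
  refine wt_mul_integrable hm (aesm_of_continuousOn (continuousOn_uu l hg hM))
    (B := M * ((l : ℝ) + 1)) ?_
  filter_upwards [ae_lt] with w hw
  exact norm_uu_le l hM hw

lemma TT_sum {m : ℂ} (s : Finset ℕ) (b : ℕ → ℂ) (f : ℕ → ℂ → ℂ)
    (hf : ∀ l, Integrable (fun w => wt m w * f l w) μD) :
    TT m (fun z => ∑ l ∈ s, b l * f l z) = ∑ l ∈ s, b l * TT m (f l) := by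
  unfold TT
  simp_rw [Finset.mul_sum]
  rw [integral_finsetSum]
  · refine Finset.sum_congr rfl fun l _ => ?_
    rw [← integral_const_mul]
    refine integral_congr_ae (Eventually.of_forall fun w => ?_)
    ring
  · intro l _
    refine ((hf l).const_mul (b l)).congr (Eventually.of_forall fun w => ?_)
    ring

lemma TT_rec (hA : StmtWA) (n : ℕ) (b : ℕ → ℂ) {x : ℂ} {g : ℂ → ℂ} {M : ℝ}
    (hg : AEStronglyMeasurable g μD) (hM : ∀ᵐ z ∂μD, ‖g z‖ ≤ M)
    (h : ∀ z : ℂ, ‖z‖ < 1 → ∑ l ∈ Finset.range n, b l * (((l : ℂ) + 1) * ((l : ℂ) + 2) *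
      (uu (l + 1) g z - uu l g z) - x * uu l g z) = 0) {m : ℂ} (hm : -1 < m.re) :
    (m + 1) * (m + 2) * TT (m + 1) (fun z => ∑ l ∈ Finset.range n, b l * uu l g z) =
      ((m + 1) * (m + 2) + x) * TT m (fun z => ∑ l ∈ Finset.range n, b l * uu l g z) := by
  have hm1 : -1 < (m + 1).re := by simp only [add_re, one_re]; linarith
  rw [TT_sum _ b (fun l => uu l g) (fun l => wt_uu_integrable hm l hg hM),
    TT_sum _ b (fun l => uu l g) (fun l => wt_uu_integrable hm1 l hg hM)]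
  have h0 : TT m (fun z => ∑ l ∈ Finset.range n, b l * (((l : ℂ) + 1) * ((l : ℂ) + 2) *
      (uu (l + 1) g z - uu l g z) - x * uu l g z)) = 0 := by
    rw [TT, ← integral_zero ℂ ℂ (μ := μD)]
    refine integral_congr_ae ?_
    filter_upwards [ae_lt] with w hw
    rw [h w hw, mul_zero]
  have hi1 : ∀ l : ℕ, Integrable (fun w => wt m w * (((l : ℂ) + 1) * ((l : ℂ) + 2) *
      (uu (l + 1) g w - uu l g w) - x * uu l g w)) μD := by
    intro l
    have i1 := wt_uu_integrable hm l hg hM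
    have i2 := wt_uu_integrable hm (l + 1) hg hM
    refine (((i2.sub i1).const_mul (((l : ℂ) + 1) * ((l : ℂ) + 2))).sub (i1.const_mul x)).congr
      (Eventually.of_forall fun w => ?_)
    simp only [Pi.sub_apply]
    ring
  rw [TT_sum _ b _ hi1] at h0
  have h1 : ∀ l : ℕ, TT m (fun z => ((l : ℂ) + 1) * ((l : ℂ) + 2) *
      (uu (l + 1) g z - uu l g z) - x * uu l g z) =
      (m + 1) * (m + 2) * (TT (m + 1) (uu l g) - TT m (uu l g)) - x * TT m (uu l g) := by
    intro l
    rw [TT_X hA hm l hg hM]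
    have i1 := wt_uu_integrable hm l hg hM
    have i2 := wt_uu_integrable hm (l + 1) hg hM
    unfold TT
    rw [← integral_sub i2 i1, ← integral_const_mul, ← integral_const_mul, ← integral_sub]
    · refine integral_congr_ae (Eventually.of_forall fun w => ?_)
      simp only [Pi.sub_apply]
      ring
    · exact (i2.sub i1).const_mul _
    · exact i1.const_mul x
  simp_rw [h1] at h0
  rw [Finset.mul_sum, Finset.mul_sum, ← sub_eq_zero, ← Finset.sum_sub_distrib, ← h0]
  refine Finset.sum_congr rfl fun l _ => ?_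
  ring

/-- key lemma at the origin -/
lemma key0 (hA : StmtWA) (n : ℕ) (b : ℕ → ℂ) {s : ℂ} (hs : 1 < s.re) {g : ℂ → ℂ} {M : ℝ}
    (hg : AEStronglyMeasurable g μD) (hM : ∀ᵐ z ∂μD, ‖g z‖ ≤ M)
    (h : ∀ z : ℂ, ‖z‖ < 1 → ∑ l ∈ Finset.range n, b l * (((l : ℂ) + 1) * ((l : ℂ) + 2) *
      (uu (l + 1) g z - uu l g z) - (s * (1 - s)) * uu l g z) = 0) :
    ∑ l ∈ Finset.range n, b l * uu l g 0 = 0 := by
  have hrec := fun (m : ℂ) (hm : -1 < m.re) => TT_rec hA n b hg hM h hm
  set v : ℂ → ℂ := fun z => ∑ l ∈ Finset.range n, b l * uu l g z with hv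
  have hz0 : ‖(0 : ℂ)‖ < 1 := by simp
  -- vanishing
  have hne : ∀ z : ℂ, 0 < z.re → z ≠ 0 := by
    intro z hz h0
    rw [h0] at hz
    simp at hz
  have hvan : ∀ k : ℕ, TT (s - 1 + k) v = 0 := by
    intro k
    induction k with
    | zero =>
      have h1 := hrec (s - 2) (by simp; linarith)
      have e1 : s - 2 + 1 = s - 1 := by ring
      have e2 : s - 2 + 2 = s := by ring
      rw [e1, e2] at h1
      have e3 : (s - 1) * s + s * (1 - s) = 0 := by ring
      rw [e3, zero_mul] at h1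
      have n1 : s - 1 ≠ 0 := hne _ (by simp; linarith)
      have n2 : s ≠ 0 := hne _ (by linarith)
      simpa [n1, n2] using h1
    | succ k ih =>
      have h1 := hrec (s - 1 + k) (by simp only [sub_re, add_re, one_re, natCast_re, re_ofNat]; linarith [(Nat.cast_nonneg k : (0:ℝ) ≤ k)])
      rw [ih, mul_zero] at h1
      have n1 : s - 1 + k + 1 ≠ 0 := hne _ (by simp only [sub_re, add_re, one_re, natCast_re, re_ofNat]; linarith [(Nat.cast_nonneg k : (0:ℝ) ≤ k)])
      have n2 : s - 1 + k + 2 ≠ 0 := hne _ (by simp only [sub_re, add_re, one_re, natCast_re, re_ofNat]; linarith [(Nat.cast_nonneg k : (0:ℝ) ≤ k)])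
      have h2 := (mul_eq_zero.1 h1).resolve_left (mul_ne_zero n1 n2)
      push_cast
      rw [← add_assoc]
      exact h2
  -- peak functions
  have hvc : ContinuousOn v (ball 0 1) :=
    continuousOn_finsetSum _ fun l _ => continuousOn_const.mul (continuousOn_uu l hg hM)
  have hvb : ∀ᵐ z ∂μD, ‖v z‖ ≤ ∑ l ∈ Finset.range n, ‖b l‖ * (M * ((l : ℝ) + 1)) := by
    filter_upwards [ae_lt] with z hz
    refine (norm_sum_le _ _).trans (Finset.sum_le_sum fun l _ => ?_)
    rw [norm_mul]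
    exact mul_le_mul_of_nonneg_left (norm_uu_le l hM hz) (norm_nonneg _)
  set g0 : ℂ → ℂ := fun w => ((1 - ‖w‖ ^ 2 : ℝ) : ℂ) ^ (s - 1) * v w with hg0
  have hs0 : s ≠ 0 := hne _ (by linarith)
  have hint : Integrable g0 μD := by
    have h1 := wt_mul_integrable (m := s - 1) (by simp; linarith) (aesm_of_continuousOn hvc) hvb
    refine (h1.const_mul s⁻¹).congr (Eventually.of_forall fun w => ?_)
    simp only [wt, hg0, sub_add_cancel]
    field_simp
  have hself : μD.restrict (closedBall (0 : ℂ) 1) = μD := by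
    refine Measure.restrict_eq_self_of_ae_mem ?_
    filter_upwards [ae_lt] with w hw
    exact mem_closedBall_zero_iff.2 hw.le
  have hpeak := tendsto_setIntegral_pow_smul_of_unique_maximum_of_isCompact_of_measure_nhdsWithin_pos
    (μ := μD) (s := closedBall (0 : ℂ) 1) (x₀ := 0) (c := fun w : ℂ => 1 - ‖w‖ ^ 2) (g := g0)
    (isCompact_closedBall 0 1) ?_ (by fun_prop) ?_ ?_ (by simp) (by simp) ?_ ?_
  · have h0 : ∀ k : ℕ, ∫ x in closedBall (0 : ℂ) 1, (1 - ‖x‖ ^ 2) ^ k • g0 x ∂μD = 0 := by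
      intro k
      rw [hself]
      have h1 := hvan k
      rw [TT] at h1
      have n1 : s - 1 + k + 1 ≠ 0 := hne _ (by simp only [sub_re, add_re, one_re, natCast_re, re_ofNat]; linarith [(Nat.cast_nonneg k : (0:ℝ) ≤ k)])
      have h2 : ∫ w, (s - 1 + k + 1) * ((1 - ‖w‖ ^ 2) ^ k • g0 w) ∂μD = 0 := by
        rw [← h1]
        refine integral_congr_ae ?_
        filter_upwards [ae_lt] with w hw
        have hx : ((1 - ‖w‖ ^ 2 : ℝ) : ℂ) ≠ 0 := by exact_mod_cast (one_sub_sq_pos hw).ne'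
        rw [wt, Complex.cpow_add _ _ hx, Complex.cpow_natCast, Complex.real_smul, hg0]
        push_cast
        ring
      rw [integral_const_mul] at h2
      exact (mul_eq_zero.1 h2).resolve_left n1
    simp only [h0, smul_zero] at hpeak
    have h1 := tendsto_nhds_unique tendsto_const_nhds hpeak
    simp only [hg0, norm_zero] at h1
    simpa [hv] using h1.symm
  · intro u hu h0u
    have h1 : 0 < volume (u ∩ ball (0 : ℂ) 1) :=
      (hu.inter isOpen_ball).measure_pos volume ⟨0, h0u, by simp⟩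
    rw [μD, Measure.smul_apply, smul_eq_mul, Measure.restrict_apply' measurableSet_ball]
    refine ENNReal.mul_pos c_ne ?_
    refine (lt_of_lt_of_le h1 (measure_mono ?_)).ne'
    exact fun z hz => ⟨⟨hz.1, ball_subset_closedBall hz.2⟩, hz.2⟩
  · intro y _ hy
    have := norm_pos_iff.2 hy
    simp only [norm_zero]
    nlinarith
  · intro x hx
    exact sq_le (mem_closedBall_zero_iff.1 hx)
  · exact hint.integrableOn
  · refine ContinuousAt.continuousWithinAt ?_
    refine ContinuousAt.mul ?_ (hvc.continuousAt (ball_mem_nhds 0 one_pos))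
    refine ContinuousAt.cpow (by fun_prop) continuousAt_const ?_
    simp

lemma key (hA : StmtWA) (n : ℕ) (b : ℕ → ℂ) {s : ℂ} (hs : 1 < s.re) {g : ℂ → ℂ} {M : ℝ}
    (hg : AEStronglyMeasurable g μD) (hM : ∀ᵐ z ∂μD, ‖g z‖ ≤ M)
    (h : ∀ z : ℂ, ‖z‖ < 1 → ∑ l ∈ Finset.range n, b l * (((l : ℂ) + 1) * ((l : ℂ) + 2) *
      (uu (l + 1) g z - uu l g z) - (s * (1 - s)) * uu l g z) = 0) :
    ∀ z : ℂ, ‖z‖ < 1 → ∑ l ∈ Finset.range n, b l * uu l g z = 0 := by
  intro a ha
  have h1 := key0 hA n b hs (comp_phi_aesm hg ha) (comp_phi_bd hM ha) (fun z hz => by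
    simp only [uu_phi _ g ha hz]
    exact h _ (norm_phi_lt ha hz))
  have hz0 : ‖(0 : ℂ)‖ < 1 := by simp
  simp only [uu_phi _ g ha hz0, phi_zero] at h1
  exact h1

end

end W
end Pool.Agent.R283.PT
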