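import Pool.Agent.R283.PT.W4

/-!
# Part W: the induction on the degree
-/

set_option autoImplicit false

open MeasureTheory Complex Set Metric Filter Topology
open scoped ComplexConjugate ENNReal

namespace Pool.Agent.R283.PT
namespace W

noncomputable section

lemma division (x0 : ℂ) (n : ℕ) : ∀ β : ℕ → ℂ, ∃ (β' : ℕ → ℂ) (c : ℂ), ∀ U : ℕ → ℂ,
    ∑ j ∈ Finset.range (n + 1), β j * U j =
      ∑ j ∈ Finset.range n, β' j * (((j : ℂ) + 1) * ((j : ℂ) + 2) * (U (j + 1) - U j) - x0 * U j)
        + c * U 0 := by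
  induction n with
  | zero => intro β; exact ⟨0, β 0, fun U => by simp⟩
  | succ n ih =>
    intro β
    set γ : ℂ := β (n + 1) / (((n : ℂ) + 1) * ((n : ℂ) + 2)) with hγ
    obtain ⟨β', c, h⟩ := ih (Function.update β n (β n + γ * (((n : ℂ) + 1) * ((n : ℂ) + 2) + x0)))
    refine ⟨Function.update β' n γ, c, fun U => ?_⟩
    have hU := h U
    rw [Finset.sum_range_succ, Function.update_self] at hU
    have e1 : ∑ x ∈ Finset.range n, Function.update β n
        (β n + γ * (((n : ℂ) + 1) * ((n : ℂ) + 2) + x0)) x * U x =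
        ∑ x ∈ Finset.range n, β x * U x := by
      refine Finset.sum_congr rfl fun x hx => ?_
      rw [Function.update_of_ne (Finset.mem_range.1 hx).ne]
    rw [e1] at hU
    rw [Finset.sum_range_succ, Finset.sum_range_succ, Finset.sum_range_succ _ n,
      Function.update_self]
    have e2 : ∑ x ∈ Finset.range n, Function.update β' n γ x *
        (((x : ℂ) + 1) * ((x : ℂ) + 2) * (U (x + 1) - U x) - x0 * U x) =
        ∑ x ∈ Finset.range n, β' x *
        (((x : ℂ) + 1) * ((x : ℂ) + 2) * (U (x + 1) - U x) - x0 * U x) := by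
      refine Finset.sum_congr rfl fun x hx => ?_
      rw [Function.update_of_ne (Finset.mem_range.1 hx).ne]
    rw [e2]
    have hn1 : (n : ℂ) + 1 ≠ 0 := by exact_mod_cast Nat.succ_ne_zero n
    have hn2 : (n : ℂ) + 2 ≠ 0 := by exact_mod_cast Nat.succ_ne_zero (n + 1)
    have e3 : γ * (((n : ℂ) + 1) * ((n : ℂ) + 2)) = β (n + 1) := by
      rw [hγ, div_mul_cancel₀ _ (mul_ne_zero hn1 hn2)]
    linear_combination hU - U (n + 1) * e3

lemma ep_succ (j : ℕ) (x : ℂ) :
    ep (j + 1) x = ep j x * (1 + x / (((j : ℂ) + 1) * ((j : ℂ) + 2))) := by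
  rw [ep, Finset.prod_range_succ, ← ep]

lemma ep_rec (j : ℕ) (x : ℂ) :
    ((j : ℂ) + 1) * ((j : ℂ) + 2) * (ep (j + 1) x - ep j x) = x * ep j x := by
  have hn1 : (j : ℂ) + 1 ≠ 0 := by exact_mod_cast Nat.succ_ne_zero j
  have hn2 : (j : ℂ) + 2 ≠ 0 := by exact_mod_cast Nat.succ_ne_zero (j + 1)
  rw [ep_succ]
  field_simp
  ring

open Polynomial in
lemma exists_zero (n : ℕ) (β : ℕ → ℂ) (hn : 1 ≤ n) (hβ : β n ≠ 0) :
    ∃ x : ℂ, ∑ j ∈ Finset.range (n + 1), β j * ep j x = 0 := by
  let E : ℕ → Polynomial ℂ := fun j =>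
    ∏ i ∈ Finset.range j, (1 + C (1 / (((i : ℂ) + 1) * ((i : ℂ) + 2))) * X)
  have hE : ∀ j, E (j + 1) = E j * (1 + C (1 / (((j : ℂ) + 1) * ((j : ℂ) + 2))) * X) := fun j => by
    simp only [E, Finset.prod_range_succ]
  have hev : ∀ j x, (E j).eval x = ep j x := by
    intro j x
    simp only [E, ep, Polynomial.eval_prod]
    refine Finset.prod_congr rfl fun i _ => ?_
    simp only [eval_add, eval_one, eval_mul, eval_C, eval_X]
    ring
  have hdeg : ∀ j, (E j).natDegree ≤ j := by
    intro j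
    induction j with
    | zero => simp [E]
    | succ j ih =>
      rw [hE]
      refine natDegree_mul_le.trans (Nat.add_le_add ih ?_)
      refine (natDegree_add_le _ _).trans ?_
      rw [natDegree_one]
      exact max_le (Nat.zero_le _) ((natDegree_C_mul_le _ _).trans natDegree_X_le)
  have hlead : ∀ j, (E j).coeff j ≠ 0 := by
    intro j
    induction j with
    | zero => simp [E]
    | succ j ih =>
      have e : E (j + 1) = E j + C (1 / (((j : ℂ) + 1) * ((j : ℂ) + 2))) * (E j * X) := by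
        rw [hE]; ring
      rw [e, coeff_add, coeff_C_mul, coeff_mul_X,
        coeff_eq_zero_of_natDegree_lt (lt_of_le_of_lt (hdeg j) (Nat.lt_succ_self j)), zero_add]
      have hn1 : (j : ℂ) + 1 ≠ 0 := by exact_mod_cast Nat.succ_ne_zero j
      have hn2 : (j : ℂ) + 2 ≠ 0 := by exact_mod_cast Nat.succ_ne_zero (j + 1)
      exact mul_ne_zero (one_div_ne_zero (mul_ne_zero hn1 hn2)) ih
  set P : Polynomial ℂ := ∑ j ∈ Finset.range (n + 1), C (β j) * E j with hP
  have hPn : P.coeff n ≠ 0 := by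
    rw [hP, finsetSum_coeff, Finset.sum_range_succ, coeff_C_mul]
    have : ∑ x ∈ Finset.range n, (C (β x) * E x).coeff n = 0 := by
      refine Finset.sum_eq_zero fun x hx => ?_
      rw [coeff_C_mul, coeff_eq_zero_of_natDegree_lt
        (lt_of_le_of_lt (hdeg x) (Finset.mem_range.1 hx)), mul_zero]
    rw [this, zero_add]
    exact mul_ne_zero hβ (hlead n)
  have hd : 0 < P.degree := by
    refine lt_of_lt_of_le ?_ (le_degree_of_ne_zero hPn)
    exact_mod_cast hn
  obtain ⟨x, hx⟩ := Complex.exists_root hd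
  refine ⟨x, ?_⟩
  rw [IsRoot, hP, eval_finsetSum] at hx
  rw [← hx]
  refine Finset.sum_congr rfl fun j _ => ?_
  rw [eval_mul, eval_C, hev]

/-- a solution of `s (1-s) = x` with `Re s ≥ 1/2` -/
lemma exists_s (x : ℂ) : ∃ s : ℂ, s * (1 - s) = x ∧ 1 / 2 ≤ s.re := by
  obtain ⟨t, ht⟩ := IsAlgClosed.exists_pow_nat_eq (1 / 4 - x) (n := 2) (by norm_num)
  rcases le_total 0 t.re with h | h
  · refine ⟨1 / 2 + t, ?_, ?_⟩
    · linear_combination -ht
    · have : (1 / 2 + t).re = 1 / 2 + t.re := by simp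
      rw [this]
      linarith
  · refine ⟨1 / 2 - t, ?_, ?_⟩
    · linear_combination -ht
    · have : (1 / 2 - t).re = 1 / 2 - t.re := by simp
      rw [this]
      linarith

theorem reduce (hA : StmtWA) : ∀ (d : ℕ) (β : ℕ → ℂ),
    (∀ s : ℂ, 0 ≤ s.re → s.re ≤ 1 → ∑ j ∈ Finset.range (d + 1), β j * ep j (s * (1 - s)) ≠ 0) →
    ∀ (g : ℂ → ℂ) (M : ℝ), AEStronglyMeasurable g μD → (∀ᵐ z ∂μD, ‖g z‖ ≤ M) →
      (∀ z : ℂ, ‖z‖ < 1 → ∑ j ∈ Finset.range (d + 1), β j * uu j g z = 0) →
      ∀ z : ℂ, ‖z‖ < 1 → uu 0 g z = 0 := by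
  intro d
  induction d with
  | zero =>
    intro β hβ g M hg hM h z hz
    have h1 := hβ 0 (by simp) (by simp)
    have h2 := h z hz
    simp only [zero_add, Finset.range_one, Finset.sum_singleton, ep, Finset.range_zero,
      Finset.prod_empty, mul_one] at h1 h2
    exact (mul_eq_zero.1 h2).resolve_left h1
  | succ d ih =>
    intro β hβ g M hg hM h z hz
    by_cases h0 : β (d + 1) = 0
    · refine ih β (fun s hs0 hs1 => ?_) g M hg hM (fun z hz => ?_) z hz
      · have := hβ s hs0 hs1
        rwa [Finset.sum_range_succ, h0, zero_mul, add_zero] at this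
      · have := h z hz
        rwa [Finset.sum_range_succ, h0, zero_mul, add_zero] at this
    · obtain ⟨x0, hx0⟩ := exists_zero (d + 1) β (by omega) h0
      obtain ⟨s, hs, hsre⟩ := exists_s x0
      have hs1 : 1 < s.re := by
        by_contra hcon
        refine hβ s (by linarith) (not_lt.1 hcon) ?_
        rw [hs]
        exact hx0
      obtain ⟨β', c, hdiv⟩ := division x0 (d + 1) β
      have hp : ∀ x : ℂ, ∑ j ∈ Finset.range (d + 1 + 1), β j * ep j x =
          (x - x0) * ∑ j ∈ Finset.range (d + 1), β' j * ep j x + c := by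
        intro x
        rw [hdiv (fun j => ep j x), Finset.mul_sum]
        congr 1
        · refine Finset.sum_congr rfl fun j _ => ?_
          rw [ep_rec]
          ring
        · simp [ep]
      have hc : c = 0 := by
        have := hp x0
        rw [hx0, sub_self, zero_mul, zero_add] at this
        exact this.symm
      subst hc
      refine ih β' (fun t ht0 ht1 hcon => ?_) g M hg hM ?_ z hz
      · refine hβ t ht0 ht1 ?_
        rw [hp, hcon, mul_zero, add_zero]
      · refine key hA (d + 1) β' hs1 hg hM (fun z hz => ?_)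
        have h1 := h z hz
        rw [hdiv (fun j => uu j g z), zero_mul, add_zero] at h1
        rw [hs]
        exact h1

end

end W
end Pool.Agent.R283.PT
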