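import Pool.Agent.R283.PT.WDefs
import Pool.Agent.R283.PT.Cov
import Pool.Agent.R283.PT.G

/-!
# Part W-A
-/

set_option autoImplicit false

open MeasureTheory Complex Set Metric Filter Topology
open scoped ComplexConjugate ENNReal

namespace Pool.Agent.R283.PT

noncomputable section

open Pool.Agent.H366R3.ED Pool.Agent.H713R2

/-- `C(k+l+1, l+1)` -/
def Cb (l k : ℕ) : ℂ := (((k + (l + 1)).choose (l + 1) : ℕ) : ℂ)

lemma Cb_succ (l k : ℕ) : ((k : ℂ) + 1) * Cb l (k + 1) = ((k : ℂ) + l + 2) * Cb l k := by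
  have h := Nat.add_one_mul_choose_eq (k + (l + 1)) k
  have e1 : (k + 1 + (l + 1)).choose (l + 1) = (k + (l + 1)).succ.choose k.succ := by
    rw [show k + 1 + (l + 1) = (k + (l + 1)).succ by omega]
    rw [← Nat.choose_symm (show k.succ ≤ (k + (l + 1)).succ by omega)]
    congr 1; omega
  have e2 : (k + (l + 1)).choose (l + 1) = (k + (l + 1)).choose k := by
    rw [← Nat.choose_symm (show k ≤ k + (l + 1) by omega)]
    congr 1; omega
  rw [Cb, Cb, e1, e2]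
  have h2 : (((k + (l + 1)).succ * (k + (l + 1)).choose k : ℕ) : ℂ) =
    (((k + (l + 1)).succ.choose k.succ * k.succ : ℕ) : ℂ) := by rw [h]
  push_cast at h2
  linear_combination -h2

lemma Cb_l (l k : ℕ) : ((l : ℂ) + 2) * Cb (l + 1) k = ((k : ℂ) + l + 2) * Cb l k := by
  have h := Nat.add_one_mul_choose_eq (k + (l + 1)) (l + 1)
  rw [Cb, Cb]
  have e1 : (k + (l + 1 + 1)) = (k + (l + 1)).succ := by omega
  rw [e1]
  have h2 : (((k + (l + 1)).succ * (k + (l + 1)).choose (l + 1) : ℕ) : ℂ) =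
    (((k + (l + 1)).succ.choose (l + 1).succ * (l + 1).succ : ℕ) : ℂ) := by rw [h]
  push_cast at h2 ⊢
  linear_combination -h2

lemma hasSum_Cb (l : ℕ) {x : ℂ} (hx : ‖x‖ < 1) :
    HasSum (fun k => Cb l k * x ^ k) (1 / (1 - x) ^ (l + 2)) := by
  have h := hasSum_choose_mul_geometric_of_norm_lt_one (l + 1) hx
  exact h

lemma summable_Cb_norm (l : ℕ) {x : ℝ} (hx0 : 0 ≤ x) (hx : x < 1) :
    Summable (fun k => ‖Cb l k‖ * x ^ k) := by
  have h := summable_choose_mul_geometric_of_norm_lt_one (R := ℝ) (l + 1) (r := x)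
    (by rwa [Real.norm_of_nonneg hx0])
  refine h.congr fun k => ?_
  rw [Cb, Complex.norm_natCast]

/-- the radial beta integral -/
lemma radial_beta_c {c : ℂ} (j : ℕ) :
    ∫ r in Ioo (0 : ℝ) 1, ((2 * r : ℝ) : ℂ) * (((1 - r ^ 2 : ℝ) : ℂ) ^ c * (((r ^ 2) ^ j : ℝ) : ℂ)) =
      Complex.betaIntegral (j + 1) (c + 1) := by
  have himg : (fun r : ℝ => r ^ 2) '' Ioo 0 1 = Ioo 0 1 := by
    ext y
    constructor
    · rintro ⟨r, hr, rfl⟩
      simp only
      exact ⟨by have := hr.1; positivity, by nlinarith [hr.1, hr.2]⟩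
    · intro hy
      refine ⟨Real.sqrt y, ⟨Real.sqrt_pos.2 hy.1, ?_⟩, Real.sq_sqrt hy.1.le⟩
      rw [Real.sqrt_lt' one_pos]; simpa using hy.2
  rw [Complex.betaIntegral, intervalIntegral.integral_of_le zero_le_one,
    integral_Ioc_eq_integral_Ioo]
  conv_rhs => rw [← himg]
  rw [integral_image_eq_integral_abs_deriv_smul measurableSet_Ioo
    (f := fun r : ℝ => r ^ 2) (f' := fun r => 2 * r)
    (fun x _ => by simpa using (hasDerivAt_pow 2 x).hasDerivWithinAt)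
    (fun x hx y hy h => by
      have h' : x ^ 2 = y ^ 2 := h
      nlinarith [hx.1, hy.1, mul_self_nonneg (x - y)] )]
  refine setIntegral_congr_fun measurableSet_Ioo fun r hr => ?_
  rw [abs_of_pos (by linarith [hr.1]), Complex.real_smul, add_sub_cancel_right,
    add_sub_cancel_right, Complex.cpow_natCast]
  push_cast
  ring

lemma integrable_rpow {t : ℝ} (ht : -1 < t) : Integrable (fun w : ℂ => (1 - ‖w‖ ^ 2) ^ t) μD := by
  have hm : AEStronglyMeasurable (fun w : ℂ => (1 - ‖w‖ ^ 2) ^ t) μD :=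
    Measurable.aestronglyMeasurable (by fun_prop)
  rcases le_or_gt 0 t with h0 | h0
  · refine Integrable.of_bound hm 1 ?_
    filter_upwards [ae_lt] with w hw
    have h1 := one_sub_sq_mem hw
    rw [Real.norm_of_nonneg (Real.rpow_nonneg h1.1 _)]
    exact Real.rpow_le_one h1.1 h1.2 h0
  · obtain ⟨C, hC, hC2⟩ := lint_G (γ := -t) (by linarith) (by linarith)
    refine ⟨hm, ?_⟩
    rw [hasFiniteIntegral_iff_norm]
    refine lt_of_le_of_lt (le_trans (lintegral_mono_ae ?_) (hC2 0)) hC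
    filter_upwards [ae_lt] with w hw
    rw [Real.norm_of_nonneg (Real.rpow_nonneg (one_sub_sq_pos hw).le _), neg_neg,
      ENNReal.ofReal_rpow_of_pos (one_sub_sq_pos hw)]
    simp

lemma norm_cpow_radial {c : ℂ} {w : ℂ} (hw : ‖w‖ < 1) :
    ‖((1 - ‖w‖ ^ 2 : ℝ) : ℂ) ^ c‖ = (1 - ‖w‖ ^ 2) ^ c.re :=
  Complex.norm_cpow_eq_rpow_re_of_pos (one_sub_sq_pos hw) c

lemma measurable_cpow_radial (c : ℂ) : Measurable (fun w : ℂ => ((1 - ‖w‖ ^ 2 : ℝ) : ℂ) ^ c) := by
  fun_prop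

lemma continuousOn_cpow_radial (c : ℂ) :
    ContinuousOn (fun w : ℂ => ((1 - ‖w‖ ^ 2 : ℝ) : ℂ) ^ c) (ball 0 1) := by
  refine ContinuousOn.cpow_const (by fun_prop) fun w hw => ?_
  rw [mem_ball_zero_iff] at hw
  exact Or.inl (by rw [Complex.ofReal_re]; exact one_sub_sq_pos hw)

lemma integrable_cpow_radial {c : ℂ} (hc : -1 < c.re) :
    Integrable (fun w : ℂ => ((1 - ‖w‖ ^ 2 : ℝ) : ℂ) ^ c) μD := by
  refine (integrable_rpow hc).mono' (measurable_cpow_radial c).aestronglyMeasurable ?_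
  filter_upwards [ae_lt] with w hw
  rw [norm_cpow_radial hw]

lemma tc_geom (l : ℕ) {ζ : ℂ} (hζ : ‖ζ‖ < 1) (j : ℕ) :
    tc (fun w => 1 / (1 - w * conj ζ) ^ (l + 2)) j = Cb l j * conj ζ ^ j := by
  have hd : DifferentiableOn ℂ (fun w => 1 / (1 - w * conj ζ) ^ (l + 2)) (ball 0 1) := by
    intro w hw
    rw [mem_ball_zero_iff] at hw
    have h1 : 1 - w * conj ζ ≠ 0 := one_sub_ne' hw hζ.le
    exact DifferentiableAt.differentiableWithinAt
      ((differentiableAt_const _).div (by fun_prop) (pow_ne_zero _ h1))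
  have h := tc_unique (a := fun j => Cb l j * conj ζ ^ j) one_pos hd ?_
  · exact (congrFun h j).symm
  · filter_upwards [ball_mem_nhds (0 : ℂ) one_pos] with x hx
    rw [mem_ball_zero_iff] at hx
    have h2 : ‖x * conj ζ‖ < 1 := by
      rw [norm_mul, Complex.norm_conj]; nlinarith [norm_nonneg x, norm_nonneg ζ]
    refine (hasSum_Cb l h2).congr_fun ?_ |> fun h => h
    intro k
    rw [mul_pow]; ring

/-- (W2) -/
theorem hasSum_I {c : ℂ} (hc : -1 < c.re) (l : ℕ) {ζ : ℂ} (hζ : ‖ζ‖ < 1) :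
    HasSum (fun k => Cb l k ^ 2 * ((‖ζ‖ ^ 2 : ℝ) : ℂ) ^ k * Complex.betaIntegral (k + 1) (c + 1))
      (∫ w, ((1 - ‖w‖ ^ 2 : ℝ) : ℂ) ^ c / ((‖1 - conj w * ζ‖ ^ (2 * l + 4) : ℝ) : ℂ) ∂μD) := by
  set g : ℂ → ℂ := fun w => 1 / (1 - w * conj ζ) ^ (l + 2) with hg
  have hgd : DifferentiableOn ℂ g (ball 0 1) := by
    intro w hw
    rw [mem_ball_zero_iff] at hw
    have h1 : 1 - w * conj ζ ≠ 0 := one_sub_ne' hw hζ.le
    exact DifferentiableAt.differentiableWithinAt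
      ((differentiableAt_const _).div (by fun_prop) (pow_ne_zero _ h1))
  set F : ℕ → ℂ → ℂ := fun k w => (Cb l k * ζ ^ k) *
    (((1 - ‖w‖ ^ 2 : ℝ) : ℂ) ^ c * (conj w ^ k * g w)) with hF
  have hgb : ∀ w, ‖w‖ < 1 → ‖g w‖ ≤ 1 / (1 - ‖ζ‖) ^ (l + 2) := by
    intro w hw
    rw [hg]
    simp only
    rw [norm_div, norm_one, norm_pow, norm_one_sub_conj]
    have h1 : 1 - ‖ζ‖ ≤ ‖1 - conj w * ζ‖ := by
      have h1 : ‖(1 : ℂ)‖ - ‖conj w * ζ‖ ≤ ‖1 - conj w * ζ‖ := norm_sub_norm_le _ _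
      rw [norm_one, norm_mul, Complex.norm_conj] at h1
      nlinarith [norm_nonneg w, norm_nonneg ζ]
    have : 0 < 1 - ‖ζ‖ := by linarith
    gcongr
  have hFb : ∀ k, ∀ᵐ w ∂μD, ‖F k w‖ ≤
      (1 / (1 - ‖ζ‖) ^ (l + 2) * (‖Cb l k‖ * ‖ζ‖ ^ k)) * (1 - ‖w‖ ^ 2) ^ c.re := by
    intro k
    filter_upwards [ae_lt] with w hw
    rw [hF]
    simp only
    rw [norm_mul, norm_mul, norm_mul, norm_mul, norm_pow, norm_pow, Complex.norm_conj,
      norm_cpow_radial hw]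
    have h1 : ‖w‖ ^ k ≤ 1 := pow_le_one₀ (norm_nonneg _) hw.le
    have h2 := hgb w hw
    have h3 : 0 ≤ (1 - ‖w‖ ^ 2) ^ c.re := Real.rpow_nonneg (one_sub_sq_pos hw).le _
    calc ‖Cb l k‖ * ‖ζ‖ ^ k * ((1 - ‖w‖ ^ 2) ^ c.re * (‖w‖ ^ k * ‖g w‖))
        ≤ ‖Cb l k‖ * ‖ζ‖ ^ k * ((1 - ‖w‖ ^ 2) ^ c.re * (1 * (1 / (1 - ‖ζ‖) ^ (l + 2)))) := by
          gcongr
      _ = _ := by ring
  have hgm : AEStronglyMeasurable g μD := by
    refine Measurable.aestronglyMeasurable ?_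
    rw [hg]; fun_prop
  have hFm : ∀ k, AEStronglyMeasurable (F k) μD := by
    intro k
    refine AEStronglyMeasurable.const_mul (AEStronglyMeasurable.mul
      (measurable_cpow_radial c).aestronglyMeasurable (AEStronglyMeasurable.mul ?_ hgm)) _
    exact Measurable.aestronglyMeasurable (by fun_prop)
  have hFi : ∀ k, Integrable (F k) μD := fun k =>
    ((integrable_rpow hc).const_mul _).mono' (hFm k) (hFb k)
  have hsum : Summable fun k => ∫ w, ‖F k w‖ ∂μD := by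
    refine Summable.of_nonneg_of_le (fun k => integral_nonneg fun w => norm_nonneg _)
      (fun k => integral_mono_ae (hFi k).norm ((integrable_rpow hc).const_mul _) (hFb k)) ?_
    simp only [integral_const_mul]
    exact ((summable_Cb_norm l (norm_nonneg ζ) hζ).mul_left _).mul_right _
  have hmain := hasSum_integral_of_summable_integral_norm hFi hsum
  have e1 : ∫ w, ∑' k, F k w ∂μD =
      ∫ w, ((1 - ‖w‖ ^ 2 : ℝ) : ℂ) ^ c / ((‖1 - conj w * ζ‖ ^ (2 * l + 4) : ℝ) : ℂ) ∂μD := by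
    refine integral_congr_ae ?_
    filter_upwards [ae_lt] with w hw
    have h1 : ‖conj w * ζ‖ < 1 := norm_conj_mul_lt hw hζ.le
    have h2 := (hasSum_Cb l h1).mul_right (((1 - ‖w‖ ^ 2 : ℝ) : ℂ) ^ c * g w)
    have h3 : HasSum (fun k => F k w) (1 / (1 - conj w * ζ) ^ (l + 2) *
        (((1 - ‖w‖ ^ 2 : ℝ) : ℂ) ^ c * g w)) := by
      refine h2.congr_fun ?_ |> fun h => h
      intro k
      rw [hF, mul_pow]
      ring
    rw [h3.tsum_eq, hg]
    have h4 : ((‖1 - conj w * ζ‖ ^ (2 * l + 4) : ℝ) : ℂ) =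
        (1 - conj w * ζ) ^ (l + 2) * (1 - w * conj ζ) ^ (l + 2) := by
      have h5 : ‖1 - conj w * ζ‖ ^ (2 * l + 4) = (‖1 - conj w * ζ‖ ^ 2) ^ (l + 2) := by
        rw [← pow_mul]; congr 1
      rw [h5, ← mul_pow, ← normsq_one_sub, ← Complex.ofReal_pow]
    rw [h4]
    simp only
    generalize (1 - conj w * ζ) ^ (l + 2) = P
    generalize (1 - w * conj ζ) ^ (l + 2) = Q
    ring
  have e2 : ∀ k, ∫ w, F k w ∂μD =
      Cb l k ^ 2 * ((‖ζ‖ ^ 2 : ℝ) : ℂ) ^ k * Complex.betaIntegral (k + 1) (c + 1) := by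
    intro k
    have hcont : ContinuousOn (F k) (ball 0 1) :=
      continuousOn_const.mul ((continuousOn_cpow_radial c).mul
        ((Complex.continuous_conj.pow k).continuousOn.mul hgd.continuousOn))
    rw [integral_polar hcont (hFi k), ← radial_beta_c]
    rw [← integral_const_mul]
    refine setIntegral_congr_fun measurableSet_Ioo fun r hr => ?_
    have h5 : Real.circleAverage (F k) 0 r = Real.circleAverage
        (fun w => ((Cb l k * ζ ^ k) * ((1 - r ^ 2 : ℝ) : ℂ) ^ c) • (conj w ^ k * g w)) 0 r := by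
      refine circleAverage_congr hr.1 fun w hw => ?_
      rw [hF]
      simp only
      rw [hw, smul_eq_mul]
      ring
    have h6 : Real.circleAverage
        (fun w => ((Cb l k * ζ ^ k) * ((1 - r ^ 2 : ℝ) : ℂ) ^ c) • (conj w ^ k * g w)) 0 r =
        ((Cb l k * ζ ^ k) * ((1 - r ^ 2 : ℝ) : ℂ) ^ c) •
          Real.circleAverage (fun w => conj w ^ k * g w) 0 r := Real.circleAverage_fun_smul
    rw [h5, h6, circleAverage_conj_pow hgd hr.1 hr.2, hg, tc_geom l hζ, smul_eq_mul, sq_norm_eq,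
      mul_pow]
    ring
  rw [e1] at hmain
  refine hmain.congr_fun ?_ |> fun h => h
  intro k
  rw [e2]

/-- `b_k = B(k+1, M)` relations -/
lemma beta_rel1 (k : ℕ) {M : ℂ} (hM : 0 < M.re) :
    M * Complex.betaIntegral (k + 1) M = (M + k + 1) * Complex.betaIntegral (k + 1) (M + 1) := by
  have hk : 0 < ((k : ℂ) + 1).re := by simp; positivity
  have hM1 : 0 < (M + 1).re := by simp; linarith
  have h1 := Complex.Gamma_mul_Gamma_eq_betaIntegral hk hM
  have h2 := Complex.Gamma_mul_Gamma_eq_betaIntegral hk hM1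
  have hM0 : M ≠ 0 := by rintro rfl; simp at hM
  have hs : 0 < ((k : ℂ) + 1 + M).re := by simp; positivity
  have hs0 : (k : ℂ) + 1 + M ≠ 0 := by intro h; rw [h] at hs; simp at hs
  have h3 := Complex.Gamma_ne_zero_of_re_pos hs
  rw [Complex.Gamma_add_one M hM0, ← add_assoc, Complex.Gamma_add_one _ hs0] at h2
  have h4 : Complex.Gamma ((k : ℂ) + 1 + M) * (M * Complex.betaIntegral (k + 1) M) =
      Complex.Gamma ((k : ℂ) + 1 + M) * ((M + k + 1) * Complex.betaIntegral (k + 1) (M + 1)) := by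
    linear_combination h2 - M * h1
  exact mul_left_cancel₀ h3 h4

lemma beta_rel2 (k : ℕ) {M : ℂ} (hM : 0 < M.re) :
    (M + k + 1) * Complex.betaIntegral (((k + 1 : ℕ) : ℂ) + 1) M =
      ((k : ℂ) + 1) * Complex.betaIntegral (k + 1) M := by
  have hk : 0 < ((k : ℂ) + 1).re := by simp; positivity
  have hk2 : 0 < (((k + 1 : ℕ) : ℂ) + 1).re := by simp; positivity
  have h1 := Complex.Gamma_mul_Gamma_eq_betaIntegral hk hM
  have h2 := Complex.Gamma_mul_Gamma_eq_betaIntegral hk2 hM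
  have hk0 : (k : ℂ) + 1 ≠ 0 := by intro h; rw [h] at hk; simp at hk
  have hs : 0 < ((k : ℂ) + 1 + M).re := by simp; positivity
  have hs0 : (k : ℂ) + 1 + M ≠ 0 := by intro h; rw [h] at hs; simp at hs
  have h3 := Complex.Gamma_ne_zero_of_re_pos hs
  have e1 : (((k + 1 : ℕ) : ℂ) + 1) = (k : ℂ) + 1 + 1 := by push_cast; ring
  rw [e1] at h2 ⊢
  rw [Complex.Gamma_add_one _ hk0, show (k : ℂ) + 1 + 1 + M = (k : ℂ) + 1 + M + 1 by ring,
    Complex.Gamma_add_one _ hs0] at h2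
  have h4 : Complex.Gamma ((k : ℂ) + 1 + M) * ((M + k + 1) * Complex.betaIntegral (k + 1 + 1) M) =
      Complex.Gamma ((k : ℂ) + 1 + M) * (((k : ℂ) + 1) * Complex.betaIntegral (k + 1) M) := by
    linear_combination ((k : ℂ) + 1) * h1 - h2
  exact mul_left_cancel₀ h3 h4

lemma HH_eq (m : ℂ) (l : ℕ) (ζ : ℂ) :
    HH m l ζ = (m + 1) * ((l : ℂ) + 1) * ((1 - ‖ζ‖ ^ 2 : ℝ) : ℂ) ^ l *
      ∫ w, ((1 - ‖w‖ ^ 2 : ℝ) : ℂ) ^ (m + l + 2) /
        ((‖1 - conj w * ζ‖ ^ (2 * l + 4) : ℝ) : ℂ) ∂μD := by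
  rw [HH, ← integral_const_mul]
  refine integral_congr_ae ?_
  filter_upwards [ae_lt] with w hw
  have h0 : ((1 - ‖w‖ ^ 2 : ℝ) : ℂ) ≠ 0 := by exact_mod_cast (one_sub_sq_pos hw).ne'
  have h1 : ((1 - ‖w‖ ^ 2 : ℝ) : ℂ) ^ (m + l + 2) =
      ((1 - ‖w‖ ^ 2 : ℝ) : ℂ) ^ m * ((1 - ‖w‖ ^ 2 : ℝ) : ℂ) ^ (l + 2) := by
    rw [add_assoc, Complex.cpow_add _ _ h0]
    congr 1
    rw [← Complex.cpow_natCast]
    congr 1
    push_cast
    ring
  rw [h1, kk]
  push_cast
  ring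

/-- Part W-A -/
theorem stmtWA : StmtWA := by
  intro m l ζ hm hζ
  have hm1 : -1 < (m + 1).re := by simp; linarith
  rw [HH_eq (m + 1) l ζ, HH_eq m l ζ, HH_eq m (l + 1) ζ]
  set c : ℂ := m + l + 2 with hc
  have hcre : 0 < c.re := by
    rw [hc]
    simp only [Complex.add_re, Complex.natCast_re]
    have : (0 : ℝ) ≤ l := Nat.cast_nonneg l
    have h2 : ((2 : ℂ)).re = 2 := rfl
    rw [h2]; linarith
  have e1 : m + 1 + l + 2 = c + 1 := by rw [hc]; ring
  have e2 : m + ((l + 1 : ℕ) : ℂ) + 2 = c + 1 := by rw [hc]; push_cast; ring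
  rw [e1, e2]
  set ρ : ℂ := ((‖ζ‖ ^ 2 : ℝ) : ℂ) with hρ
  have e3 : ((1 - ‖ζ‖ ^ 2 : ℝ) : ℂ) = 1 - ρ := by rw [hρ]; push_cast; ring
  rw [e3]
  have hc1 : -1 < (c + 1).re := by simp; linarith
  have S1 := hasSum_I hc1 l hζ
  have S2 := hasSum_I (c := c) (by linarith) l hζ
  have S3 := hasSum_I hc1 (l + 1) hζ
  rw [← hρ] at S1 S2 S3
  set I1 := ∫ w, ((1 - ‖w‖ ^ 2 : ℝ) : ℂ) ^ (c + 1) / ((‖1 - conj w * ζ‖ ^ (2 * l + 4) : ℝ) : ℂ) ∂μD
    with hI1
  set I2 := ∫ w, ((1 - ‖w‖ ^ 2 : ℝ) : ℂ) ^ c / ((‖1 - conj w * ζ‖ ^ (2 * l + 4) : ℝ) : ℂ) ∂μD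
    with hI2
  set I3 := ∫ w, ((1 - ‖w‖ ^ 2 : ℝ) : ℂ) ^ (c + 1) /
    ((‖1 - conj w * ζ‖ ^ (2 * (l + 1) + 4) : ℝ) : ℂ) ∂μD with hI3
  -- the key identity
  have key : (m + 2) ^ 2 * I1 - (m + 1) * (m + 2) * I2 =
      ((l : ℂ) + 2) ^ 2 * (1 - ρ) * I3 - ((l : ℂ) + 1) * ((l : ℂ) + 2) * I2 := by
    have L := (S1.mul_left ((m + 2) ^ 2)).sub (S2.mul_left ((m + 1) * (m + 2)))
    set x : ℕ → ℂ := fun k => Cb (l + 1) k ^ 2 * Complex.betaIntegral (k + 1) (c + 1 + 1) with hx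
    have S3' : HasSum (fun k => x k * ρ ^ k) I3 := by
      refine S3.congr_fun ?_ |> fun h => h
      intro k
      rw [hx]
      ring
    -- multiply by (1 - ρ)
    have S4 : HasSum (fun k => (match k with
        | 0 => 0
        | k + 1 => x k * ρ ^ (k + 1))) (ρ * I3) := by
      rw [hasSum_nat_add_iff' 1 |>.symm]
      simp only [Finset.range_one, Finset.sum_singleton, sub_zero]
      refine (S3'.mul_left ρ).congr_fun ?_ |> fun h => h
      intro k
      ring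
    have R := ((S3'.sub S4).mul_left (((l : ℂ) + 2) ^ 2)).sub
      (S2.mul_left (((l : ℂ) + 1) * ((l : ℂ) + 2)))
    have hL := L.unique (R.congr_fun ?_)
    · rw [hL]; ring
    · intro k
      have hM : 0 < (c + 1).re := by simp; linarith
      have hM2 : 0 < (c + 1 + 1).re := by simp; linarith
      have hM0 : c + 1 ≠ 0 := by intro h; rw [h] at hM; simp at hM
      have r1 := beta_rel1 k hM
      have q1 := Cb_l l k
      have gen : ∀ (a b0 b1 y : ℂ), (c + 1) * b0 = (c + 1 + k + 1) * b1 →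
          y = k * (c + 1 + k + 1) * a ^ 2 * b1 →
          (m + 2) ^ 2 * (a ^ 2 * b1) - (m + 1) * (m + 2) * (a ^ 2 * b0) =
          (((k : ℂ) + l + 2) ^ 2 * a ^ 2 * b1 - y) - ((l : ℂ) + 1) * ((l : ℂ) + 2) * (a ^ 2 * b0) := by
        intro a b0 b1 y hb hy
        apply mul_left_cancel₀ hM0
        rw [hy]
        have hm2 : m = c - l - 2 := by rw [hc]; ring
        rw [hm2]
        linear_combination (((l : ℂ) + 1) * ((l : ℂ) + 2) - (c - l - 2 + 1) * (c - l - 2 + 2)) *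
          a ^ 2 * hb
      have e4 : ((l : ℂ) + 2) ^ 2 * x k = ((k : ℂ) + l + 2) ^ 2 * Cb l k ^ 2 *
          Complex.betaIntegral (k + 1) (c + 1 + 1) := by
        rw [hx]
        simp only
        linear_combination (((l : ℂ) + 2) * Cb (l + 1) k + ((k : ℂ) + l + 2) * Cb l k) *
          Complex.betaIntegral (k + 1) (c + 1 + 1) * q1
      cases k with
      | zero =>
        have g := gen (Cb l 0) (Complex.betaIntegral ((0 : ℕ) + 1) (c + 1))
          (Complex.betaIntegral ((0 : ℕ) + 1) (c + 1 + 1)) 0 r1 (by simp)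
        simp only [pow_zero, mul_one]
        linear_combination g - e4
      | succ k =>
        have r2 := beta_rel2 k hM2
        have q2 := Cb_succ l k
        have q3 := Cb_l l k
        have g := gen (Cb l (k + 1)) (Complex.betaIntegral ((k + 1 : ℕ) + 1) (c + 1))
          (Complex.betaIntegral ((k + 1 : ℕ) + 1) (c + 1 + 1)) (((l : ℂ) + 2) ^ 2 * x k) r1 ?_
        · simp only
          linear_combination ρ ^ (k + 1) * g - ρ ^ (k + 1) * e4
        · rw [hx]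
          simp only
          have h5 : ((l : ℂ) + 2) ^ 2 * Cb (l + 1) k ^ 2 = ((k : ℂ) + 1) ^ 2 * Cb l (k + 1) ^ 2 := by
            linear_combination (((l : ℂ) + 2) * Cb (l + 1) k + ((k : ℂ) + l + 2) * Cb l k) * q3 -
              (((k : ℂ) + 1) * Cb l (k + 1) + ((k : ℂ) + l + 2) * Cb l k) * q2
          push_cast at r2 ⊢
          linear_combination Complex.betaIntegral (k + 1) (c + 1 + 1) * h5 -
            ((k : ℂ) + 1) * Cb l (k + 1) ^ 2 * r2
  push_cast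
  linear_combination (m + 1) * ((l : ℂ) + 1) * (1 - ρ) ^ l * key

end

end Pool.Agent.R283.PT
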