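import Pool.Agent.R283.PT.Mob

/-!
# Part W, definitions of the split
-/

set_option autoImplicit false

open MeasureTheory
open scoped ComplexConjugate

namespace Pool.Agent.R283.PT

noncomputable section

/-- `H_{m,l}(ζ) = ∫ (m+1) (1-|w|²)^m kk l w ζ dμ(w)`, complex `m` with `Re m > -1`. -/
def HH (m : ℂ) (l : ℕ) (ζ : ℂ) : ℂ :=
  ∫ w, (m + 1) * ((1 - ‖w‖ ^ 2 : ℝ) : ℂ) ^ m * (kk l w ζ : ℂ) ∂μD

/-- Part W-A. -/
def StmtWA : Prop :=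
  ∀ (m : ℂ) (l : ℕ) (ζ : ℂ), -1 < m.re → ‖ζ‖ < 1 →
    (m + 1) * (m + 2) * (HH (m + 1) l ζ - HH m l ζ) =
      ((l : ℂ) + 1) * ((l : ℂ) + 2) * (HH m (l + 1) ζ - HH m l ζ)

end

end Pool.Agent.R283.PT
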